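import Pool.Agent.H97.OB.Stubs

set_option autoImplicit false

open Real

namespace Pool.Agent.H97.OB

theorem dPsi : S_dPsi := by
  intro p q r s hp hr
  have hpr : 0 < p * r := mul_pos hp hr
  have hsq : 0 < √(p * r) := Real.sqrt_pos.2 hpr
  have hsq2 : √(p * r) ^ 2 = p * r := Real.sq_sqrt hpr.le
  have e1 : √(r / p) = √(p * r) / p := by
    rw [show r / p = (p * r) / p ^ 2 by field_simp, Real.sqrt_div' _ (by positivity),
      Real.sqrt_sq hp.le]
  have h3 : 0 < p ^ 2 + (q + s) ^ 2 := by positivity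
  have h4 : 0 < p ^ 2 + (q - s) ^ 2 := by positivity
  have hid : HasDerivAt (fun s : ℝ => s) 1 s := hasDerivAt_id s
  -- the three terms
  have d1 : HasDerivAt (fun s : ℝ => 2 * √(r / p) * arctan (s / √(p * r)))
      (2 * √(r / p) * (1 / (1 + (s / √(p * r)) ^ 2) * (1 / √(p * r)))) s :=
    ((hid.div_const _).arctan).const_mul _
  have d2 : HasDerivAt (fun s : ℝ => arctan ((q + s) / p))
      (1 / (1 + ((q + s) / p) ^ 2) * (1 / p)) s :=
    (((hid.const_add q)).div_const p).arctan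
  have d3 : HasDerivAt (fun s : ℝ => arctan ((q - s) / p))
      (1 / (1 + ((q - s) / p) ^ 2) * (-1 / p)) s :=
    (((hid.const_sub q)).div_const p).arctan
  have d4 : HasDerivAt (fun s : ℝ => p ^ 2 + (q + s) ^ 2) (2 * (q + s)) s := by
    have := ((hid.const_add q).pow 2).const_add (p ^ 2)
    simpa using this
  have d5 : HasDerivAt (fun s : ℝ => p ^ 2 + (q - s) ^ 2) (-(2 * (q - s))) s := by
    have := ((hid.const_sub q).pow 2).const_add (p ^ 2)
    simpa using this
  have d6 : HasDerivAt (fun s : ℝ => Real.log ((p ^ 2 + (q + s) ^ 2) / (p ^ 2 + (q - s) ^ 2)))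
      ((2 * (q + s)) / (p ^ 2 + (q + s) ^ 2) - (-(2 * (q - s))) / (p ^ 2 + (q - s) ^ 2)) s := by
    have h := (d4.log h3.ne').sub (d5.log h4.ne')
    refine h.congr_of_eventuallyEq (Filter.Eventually.of_forall fun t => ?_)
    have h3' : p ^ 2 + (q + t) ^ 2 ≠ 0 := by positivity
    have h4' : p ^ 2 + (q - t) ^ 2 ≠ 0 := by positivity
    simp only [Pi.sub_apply]
    rw [Real.log_div h3' h4']
  have d := (d1.sub (d2.sub d3)).sub (d6.const_mul (q / (2 * p)))
  have key : HasDerivAt (fun s => Psi p q r s) _ s := d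
  convert key using 1
  unfold QQ
  rw [show (s ^ 2 + p ^ 2 - q ^ 2) ^ 2 + 4 * p ^ 2 * q ^ 2 =
    (p ^ 2 + (q + s) ^ 2) * (p ^ 2 + (q - s) ^ 2) by ring]
  have t1 : 2 * √(r / p) * (1 / (1 + (s / √(p * r)) ^ 2) * (1 / √(p * r))) =
      2 * r / (p * r + s ^ 2) := by
    rw [e1, div_pow, hsq2]
    have : p * r + s ^ 2 ≠ 0 := by positivity
    field_simp
  rw [t1]
  have t2 : 1 / (1 + ((q + s) / p) ^ 2) * (1 / p) = p / (p ^ 2 + (q + s) ^ 2) := by
    field_simp
  have t3 : 1 / (1 + ((q - s) / p) ^ 2) * (-1 / p) = -(p / (p ^ 2 + (q - s) ^ 2)) := by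
    field_simp
  rw [t2, t3]
  have : s ^ 2 + p * r ≠ 0 := by positivity
  have : p * r + s ^ 2 ≠ 0 := by positivity
  field_simp
  ring

end Pool.Agent.H97.OB
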