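import Mathlib

/-!
# Outer billiards: collars of a centrally symmetric oval

Definitions for the rigidity theorem (outer Bialy-Mironov theorem).
The affine plane is `ℂ`; `γ θ` is the point of the oval with outer unit normal `exp (θ i)`.
-/

set_option autoImplicit false

open Set Complex
open scoped Real

namespace Pool.Agent.H97.OB

/-- The unit tangent vector at the point with outer normal `exp (θ i)`. -/
noncomputable def tang (θ : ℝ) : ℂ := I * exp (θ * I)

/-- `γ` is a closed strictly convex curve of class `C²` with positive curvature, parametrised by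
the direction angle of the outer normal; `ρ` is its radius of curvature. -/
structure IsOval (γ : ℝ → ℂ) (ρ : ℝ → ℝ) : Prop where
  cont : Continuous ρ
  pos : ∀ θ, 0 < ρ θ
  deriv : ∀ θ, HasDerivAt γ (ρ θ * tang θ) θ
  per : ∀ θ, γ (θ + 2 * π) = γ θ

/-- The open convex region bounded by `γ`: the points which lie strictly on the inner side of
every tangent line of `γ`. -/
def inside (γ : ℝ → ℂ) : Set ℂ := {z | ∀ θ : ℝ, ((z - γ θ) * exp (-(θ * I))).re < 0}

/-- The closed exterior collar `{0 ≤ Y ≤ 1}` of `γ` is foliated by the closed convex curves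
`{Y = c}`, `0 ≤ c ≤ 1`: `Y` is continuously differentiable with nonzero differential on
(a neighbourhood of) the collar, the sets `{Y ≤ c}` are compact and convex, `{Y = 0}` is the
curve `γ` and `{Y < 0}` is the open region bounded by `γ`. -/
structure IsCollar (γ : ℝ → ℂ) (Y : ℂ → ℝ) : Prop where
  smooth : ∃ U : Set ℂ, IsOpen U ∧ {z | 0 ≤ Y z ∧ Y z ≤ 1} ⊆ U ∧ ContDiffOn ℝ 1 Y U
  regular : ∀ z, 0 ≤ Y z → Y z ≤ 1 → fderiv ℝ Y z ≠ 0
  compact : ∀ c, 0 ≤ c → c ≤ 1 → IsCompact {z | Y z ≤ c}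
  convex : ∀ c, 0 ≤ c → c ≤ 1 → Convex ℝ {z | Y z ≤ c}
  leaf_zero : ∀ z, Y z = 0 ↔ z ∈ range γ
  inner : ∀ z, Y z < 0 ↔ z ∈ inside γ

/-- The involution `σ_p`, `p = γ θ`, of the tangent line at `p`, which exchanges the two points of
every leaf of the collar, is the point reflection of the tangent line in `p`. -/
def SigmaReflection (γ : ℝ → ℂ) (Y : ℂ → ℝ) (θ : ℝ) : Prop :=
  ∀ t : ℝ, Y (γ θ + t * tang θ) ≤ 1 → Y (γ θ - t * tang θ) = Y (γ θ + t * tang θ)

/-- The segment from `z` to `w` touches `γ` at an inner point of the segment, and is directed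
counterclockwise. -/
def Next (γ : ℝ → ℂ) (z w : ℂ) : Prop :=
  ∃ θ s t : ℝ, s < 0 ∧ 0 < t ∧ z = γ θ + s * tang θ ∧ w = γ θ + t * tang θ

/-- Every point of the outer leaf `{Y = 1}` is a vertex of a quadrilateral with vertices on that
leaf whose sides touch `γ`. -/
def OuterLeafFourPeriodic (γ : ℝ → ℂ) (Y : ℂ → ℝ) : Prop :=
  ∀ z₁, Y z₁ = 1 → ∃ z₂ z₃ z₄, Y z₂ = 1 ∧ Y z₃ = 1 ∧ Y z₄ = 1 ∧
    Next γ z₁ z₂ ∧ Next γ z₂ z₃ ∧ Next γ z₃ z₄ ∧ Next γ z₄ z₁

/-! ### Analytic data -/

/-- Support function `p`, its derivative `q` and the radius of curvature `ρ = p + p''` of a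
centrally symmetric oval. -/
structure Supp (p q ρ : ℝ → ℝ) : Prop where
  cont : Continuous ρ
  rpos : ∀ θ, 0 < ρ θ
  ppos : ∀ θ, 0 < p θ
  dp : ∀ θ, HasDerivAt p (q θ) θ
  dq : ∀ θ, HasDerivAt q (ρ θ - p θ) θ
  pp : ∀ θ, p (θ + π) = p θ
  qp : ∀ θ, q (θ + π) = q θ
  rp : ∀ θ, ρ (θ + π) = ρ θ

/-- The function of the tangent coordinates `(θ, s)`; only the values `p`, `q`, `r` (radius of
curvature) of the data at `θ` enter. -/
noncomputable def Psi (p q r s : ℝ) : ℝ :=
  2 * √(r / p) * Real.arctan (s / √(p * r)) -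
    (Real.arctan ((q + s) / p) - Real.arctan ((q - s) / p)) -
    q / (2 * p) * Real.log ((p ^ 2 + (q + s) ^ 2) / (p ^ 2 + (q - s) ^ 2))

/-- `s * QQ` is the derivative of `Psi` with respect to `s`. -/
noncomputable def QQ (p q r s : ℝ) : ℝ :=
  2 * s / p * ((s ^ 2 + p ^ 2 - q ^ 2) / ((s ^ 2 + p ^ 2 - q ^ 2) ^ 2 + 4 * p ^ 2 * q ^ 2) -
    1 / (s ^ 2 + p * r))

/-- The nonnegative density; `b` is the derivative of `p s` along the leaf. -/
noncomputable def NN (p r s b : ℝ) : ℝ :=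
  2 * s * b ^ 2 / (p * (p * r + s ^ 2) * ((p * r + s ^ 2) ^ 2 - b ^ 2))

end Pool.Agent.H97.OB
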