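import Pool.Agent.H97.OB.Stubs

/-!
OB5: closed form of the integral of `Psi` for Radon curves.
-/

set_option autoImplicit false

open Set MeasureTheory Filter Topology
open scoped Real

namespace Pool.Agent.H97.OB

namespace Radon

theorem cos_arctan_sub (x y : ℝ) :
    Real.cos (Real.arctan x - Real.arctan y) = (1 + x * y) / (√(1 + x ^ 2) * √(1 + y ^ 2)) := by
  have h1 : 0 < √(1 + x ^ 2) := Real.sqrt_pos.2 (by positivity)
  have h2 : 0 < √(1 + y ^ 2) := Real.sqrt_pos.2 (by positivity)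
  rw [Real.cos_sub, Real.cos_arctan, Real.cos_arctan, Real.sin_arctan, Real.sin_arctan]
  field_simp

theorem sq1 (T l : ℝ) (hl : 0 < l) :
    1 + (-T + (1 + T ^ 2) / l) ^ 2 = (1 + T ^ 2) / l ^ 2 * (1 + (T - l) ^ 2) := by
  field_simp
  ring

theorem sq2 (T l : ℝ) (hl : 0 < l) :
    1 + (-T - (1 + T ^ 2) / l) ^ 2 = (1 + T ^ 2) / l ^ 2 * (1 + (T + l) ^ 2) := by
  field_simp
  ring

theorem arctan_diff_mem (x y : ℝ) (h : y < x) :
    Real.arctan x - Real.arctan y ∈ Icc 0 π := by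
  have h1 := Real.arctan_strictMono h
  have h2 := Real.arctan_lt_pi_div_two x
  have h3 := Real.neg_pi_div_two_lt_arctan y
  constructor <;> linarith

theorem delta (T l : ℝ) (hl : 0 < l) :
    Real.arctan (-T + (1 + T ^ 2) / l) - Real.arctan (-T - (1 + T ^ 2) / l) =
      π - (Real.arctan (T + l) - Real.arctan (T - l)) := by
  have hN : 0 < 1 + T ^ 2 := by positivity
  have ha : 0 < (1 + T ^ 2) / l := by positivity
  have m1 := arctan_diff_mem (-T + (1 + T ^ 2) / l) (-T - (1 + T ^ 2) / l) (by linarith)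
  have m2 := arctan_diff_mem (T + l) (T - l) (by linarith)
  apply Real.injOn_cos m1 ⟨by linarith [m2.2], by linarith [m2.1]⟩
  rw [Real.cos_pi_sub, cos_arctan_sub, cos_arctan_sub, sq1 T l hl, sq2 T l hl,
    Real.sqrt_mul (by positivity), Real.sqrt_mul (by positivity)]
  have h0 : √((1 + T ^ 2) / l ^ 2) * √((1 + T ^ 2) / l ^ 2) = (1 + T ^ 2) / l ^ 2 :=
    Real.mul_self_sqrt (by positivity)
  have h1 : 0 < √(1 + (T - l) ^ 2) := Real.sqrt_pos.2 (by positivity)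
  have h2 : 0 < √(1 + (T + l) ^ 2) := Real.sqrt_pos.2 (by positivity)
  have e : √((1 + T ^ 2) / l ^ 2) * √(1 + (T - l) ^ 2) *
      (√((1 + T ^ 2) / l ^ 2) * √(1 + (T + l) ^ 2)) =
      (1 + T ^ 2) / l ^ 2 * (√(1 + (T - l) ^ 2) * √(1 + (T + l) ^ 2)) := by
    rw [mul_mul_mul_comm, h0]
  rw [e]
  field_simp
  ring

theorem logs (T l : ℝ) (hl : 0 < l) :
    Real.log ((1 + (-T + (1 + T ^ 2) / l) ^ 2) / (1 + (-T - (1 + T ^ 2) / l) ^ 2)) =
      -Real.log ((1 + (T + l) ^ 2) / (1 + (T - l) ^ 2)) := by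
  rw [sq1 T l hl, sq2 T l hl, ← Real.log_inv]
  congr 1
  have h1 : 0 < 1 + (T - l) ^ 2 := by positivity
  have h2 : 0 < 1 + (T + l) ^ 2 := by positivity
  field_simp

/-- the `u`-derivative of `c δ - (2 + c) T l` -/
noncomputable def HH (c T l u : ℝ) : ℝ :=
  c * l * (1 / (1 + (T + u * l) ^ 2) + 1 / (1 + (T - u * l) ^ 2)) -
    (2 + c) * T * l * ((T + u * l) / (1 + (T + u * l) ^ 2) + (T - u * l) / (1 + (T - u * l) ^ 2))

/-- half of the logarithm -/
noncomputable def LL (T l : ℝ) : ℝ :=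
  1 / 2 * Real.log (1 + (T + l) ^ 2) - 1 / 2 * Real.log (1 + (T - l) ^ 2)

theorem hlog {g : ℝ → ℝ} {g' x : ℝ} (h : HasDerivAt g g' x) :
    HasDerivAt (fun y => 1 / 2 * Real.log (1 + g y ^ 2)) (g x * g' / (1 + g x ^ 2)) x := by
  have p1 : (1 + g x ^ 2) ≠ 0 := by positivity
  have h2 : HasDerivAt (fun y => g y ^ 2) (2 * g x * g') x := by
    simpa using h.fun_pow 2
  refine (((h2.const_add 1).log p1).const_mul (1 / 2)).congr_deriv ?_
  ring

theorem deriv_u (c T l u : ℝ) :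
    HasDerivAt (fun u => c * (Real.arctan (T + u * l) - Real.arctan (T - u * l)) -
      (2 + c) * T * LL T (u * l)) (HH c T l u) u := by
  have h1 : HasDerivAt (fun u : ℝ => T + u * l) l u := by
    simpa using ((hasDerivAt_id u).mul_const l).const_add T
  have h2 : HasDerivAt (fun u : ℝ => T - u * l) (-l) u := by
    simpa using ((hasDerivAt_id u).mul_const l).const_sub T
  refine ((((h1.arctan).sub (h2.arctan)).const_mul c).sub
    (((hlog h1).sub (hlog h2)).const_mul ((2 + c) * T))).congr_deriv ?_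
  unfold HH
  ring

theorem int_u (c T l : ℝ) :
    ∫ u in (0 : ℝ)..1, HH c T l u =
      c * (Real.arctan (T + l) - Real.arctan (T - l)) - (2 + c) * T * LL T l := by
  have hc : Continuous (fun u => HH c T l u) := by
    unfold HH
    fun_prop (disch := intro x; positivity)
  rw [intervalIntegral.integral_eq_sub_of_hasDerivAt (fun u _ => deriv_u c T l u)
    (hc.intervalIntegrable _ _)]
  simp [LL]

/-- the angular derivative of `LL T (u λ)` is `u` times `HH` -/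
theorem deriv_theta (T lam : ℝ → ℝ) (c θ u : ℝ)
    (hT : HasDerivAt T ((1 + T θ ^ 2) * c) θ) (hl : HasDerivAt lam (-2 * T θ * lam θ) θ) :
    HasDerivAt (fun θ => LL (T θ) (u * lam θ)) (u * HH c (T θ) (lam θ) u) θ := by
  have h1 : HasDerivAt (fun θ => T θ + u * lam θ)
      ((1 + T θ ^ 2) * c + u * (-2 * T θ * lam θ)) θ := hT.add (hl.const_mul u)
  have h2 : HasDerivAt (fun θ => T θ - u * lam θ)
      ((1 + T θ ^ 2) * c - u * (-2 * T θ * lam θ)) θ := hT.sub (hl.const_mul u)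
  refine ((hlog h1).sub (hlog h2)).congr_deriv ?_
  unfold HH
  have p1 : (1 + (T θ + u * lam θ) ^ 2) ≠ 0 := by positivity
  have p2 : (1 + (T θ - u * lam θ) ^ 2) ≠ 0 := by positivity
  field_simp
  ring

theorem swap (F : ℝ → ℝ → ℝ) (hF : Continuous (fun x : ℝ × ℝ => F x.1 x.2)) (a b c d : ℝ)
    (hab : a ≤ b) (hcd : c ≤ d) :
    ∫ x in a..b, ∫ y in c..d, F x y = ∫ y in c..d, ∫ x in a..b, F x y := by
  rw [intervalIntegral.integral_of_le hab, intervalIntegral.integral_of_le hcd]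
  simp only [intervalIntegral.integral_of_le hab, intervalIntegral.integral_of_le hcd]
  apply MeasureTheory.integral_integral_swap
  rw [Measure.prod_restrict]
  have h1 : IntegrableOn (fun x : ℝ × ℝ => F x.1 x.2) (Icc a b ×ˢ Icc c d)
      (volume.prod volume) :=
    hF.continuousOn.integrableOn_compact (isCompact_Icc.prod isCompact_Icc)
  exact h1.mono_set (Set.prod_mono Ioc_subset_Icc_self Ioc_subset_Icc_self)

/-- the second part of the integral vanishes -/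
theorem vanish (T lam c : ℝ → ℝ) (hTc : Continuous T) (hlc : Continuous lam) (hcc : Continuous c)
    (hT : ∀ θ, HasDerivAt T ((1 + T θ ^ 2) * c θ) θ)
    (hl : ∀ θ, HasDerivAt lam (-2 * T θ * lam θ) θ)
    (hTp : T (2 * π) = T 0) (hlp : lam (2 * π) = lam 0) :
    ∫ θ in (0 : ℝ)..(2 * π), (c θ * (Real.arctan (T θ + lam θ) - Real.arctan (T θ - lam θ)) -
      (2 + c θ) * T θ * LL (T θ) (lam θ)) = 0 := by
  have h1 : ∀ θ, (c θ * (Real.arctan (T θ + lam θ) - Real.arctan (T θ - lam θ)) -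
      (2 + c θ) * T θ * LL (T θ) (lam θ)) = ∫ u in (0 : ℝ)..1, HH (c θ) (T θ) (lam θ) u :=
    fun θ => (int_u _ _ _).symm
  simp only [h1]
  rw [swap (fun θ u => HH (c θ) (T θ) (lam θ) u) (by
    unfold HH
    fun_prop (disch := intro x; positivity)) 0 (2 * π) 0 1 (by positivity) zero_le_one]
  apply intervalIntegral.integral_zero_ae
  refine Filter.Eventually.of_forall fun u hu => ?_
  rw [uIoc_of_le zero_le_one] at hu
  have h2 : ∫ θ in (0 : ℝ)..(2 * π), u * HH (c θ) (T θ) (lam θ) u = 0 := by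
    rw [intervalIntegral.integral_eq_sub_of_hasDerivAt
      (fun θ _ => deriv_theta T lam (c θ) θ u (hT θ) (hl θ))]
    · rw [hTp, hlp, sub_self]
    · apply Continuous.intervalIntegrable
      unfold HH
      fun_prop (disch := intro x; positivity)
  rw [intervalIntegral.integral_const_mul] at h2
  exact (mul_eq_zero.1 h2).resolve_left hu.1.ne'

/-- the difference of the arctangents in `Psi` -/
theorem psi_eq (P Q R τ : ℝ) (hP : 0 < P) :
    Psi P Q R (τ / P) = 2 * √(R / P) * Real.arctan (τ / P / √(P * R)) -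
      (Real.arctan (Q / P + τ / P ^ 2) - Real.arctan (Q / P - τ / P ^ 2)) -
      Q / P * LL (Q / P) (τ / P ^ 2) := by
  have e1 : (Q + τ / P) / P = Q / P + τ / P ^ 2 := by field_simp
  have e2 : (Q - τ / P) / P = Q / P - τ / P ^ 2 := by field_simp
  have e3 : (P ^ 2 + (Q + τ / P) ^ 2) / (P ^ 2 + (Q - τ / P) ^ 2) =
      (1 + (Q / P + τ / P ^ 2) ^ 2) / (1 + (Q / P - τ / P ^ 2) ^ 2) := by
    rw [← e1, ← e2]
    have h1 : 0 < P ^ 2 + (Q - τ / P) ^ 2 := by positivity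
    have h2 : 0 < 1 + ((Q - τ / P) / P) ^ 2 := by positivity
    rw [div_eq_div_iff h1.ne' h2.ne']
    field_simp
  unfold Psi LL
  rw [e1, e2, e3, Real.log_div (by positivity) (by positivity)]
  ring

theorem psi_f (P Q R τ : ℝ) (hP : 0 < P) (hR : 0 < R) (hτ : 0 < τ) :
    Psi (τ / √(P ^ 2 + Q ^ 2)) (-(τ * Q) / (P * √(P ^ 2 + Q ^ 2)))
      (τ * (P ^ 2 + Q ^ 2) * √(P ^ 2 + Q ^ 2) / (P ^ 3 * R)) (τ / (τ / √(P ^ 2 + Q ^ 2))) *
        (P * R / (P ^ 2 + Q ^ 2)) =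
      2 * √(R / P) * (π / 2 - Real.arctan (τ / P / √(P * R))) -
      (π - (Real.arctan (Q / P + τ / P ^ 2) - Real.arctan (Q / P - τ / P ^ 2))) *
        (P * R / (P ^ 2 + Q ^ 2)) -
      Q / P * LL (Q / P) (τ / P ^ 2) * (P * R / (P ^ 2 + Q ^ 2)) := by
  have hn : 0 < P ^ 2 + Q ^ 2 := by positivity
  obtain ⟨w, hw⟩ : ∃ w, w = √(P ^ 2 + Q ^ 2) := ⟨_, rfl⟩
  have hw0 : 0 < w := by rw [hw]; exact Real.sqrt_pos.2 hn
  have hw2 : w ^ 2 = P ^ 2 + Q ^ 2 := by rw [hw]; exact Real.sq_sqrt hn.le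
  obtain ⟨k, hk⟩ : ∃ k, k = √(P * R) := ⟨_, rfl⟩
  have hk0 : 0 < k := by rw [hk]; exact Real.sqrt_pos.2 (by positivity)
  have hk2 : k ^ 2 = P * R := by rw [hk]; exact Real.sq_sqrt (by positivity)
  have hRP : √(R / P) = k / P := by
    have : R / P = (k / P) ^ 2 := by
      rw [div_pow, hk2]; field_simp
    rw [this, Real.sqrt_sq (by positivity)]
  have hlam : 0 < τ / P ^ 2 := by positivity
  rw [← hw, ← hk, hRP]
  have hPf : 0 < τ / w := by positivity
  rw [psi_eq _ _ _ _ hPf]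
  have e1 : -(τ * Q) / (P * w) / (τ / w) = -(Q / P) := by
    field_simp
  have e2 : τ / (τ / w) ^ 2 = (1 + (Q / P) ^ 2) / (τ / P ^ 2) := by
    have : (1 + (Q / P) ^ 2) = w ^ 2 / P ^ 2 := by rw [hw2]; field_simp
    rw [this]
    field_simp
  have e3 : √(τ * (P ^ 2 + Q ^ 2) * w / (P ^ 3 * R) / (τ / w)) = w ^ 2 / (P * k) := by
    have : τ * (P ^ 2 + Q ^ 2) * w / (P ^ 3 * R) / (τ / w) = (w ^ 2 / (P * k)) ^ 2 := by
      rw [div_pow, mul_pow, hk2, ← hw2]
      field_simp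
    rw [this, Real.sqrt_sq (by positivity)]
  have e4 : √(τ / w * (τ * (P ^ 2 + Q ^ 2) * w / (P ^ 3 * R))) = τ * w / (P * k) := by
    have : τ / w * (τ * (P ^ 2 + Q ^ 2) * w / (P ^ 3 * R)) = (τ * w / (P * k)) ^ 2 := by
      rw [div_pow, mul_pow, mul_pow, hk2, ← hw2]
      field_simp
    rw [this, Real.sqrt_sq (by positivity)]
  have e5 : τ / (τ / w) / (τ * w / (P * k)) = (τ / P / k)⁻¹ := by
    field_simp
  rw [e1, e2, e3, e4, e5, Real.arctan_inv_of_pos (by positivity)]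
  have d1 := delta (Q / P) (τ / P ^ 2) hlam
  have d2 : LL (-(Q / P)) ((1 + (Q / P) ^ 2) / (τ / P ^ 2)) = -LL (Q / P) (τ / P ^ 2) := by
    have := logs (Q / P) (τ / P ^ 2) hlam
    rw [Real.log_div (by positivity) (by positivity),
      Real.log_div (by positivity) (by positivity)] at this
    unfold LL
    linarith
  rw [d1, d2, hw2]
  have hPR : P * R = k ^ 2 := hk2.symm
  rw [hPR]
  field_simp

end Radon

theorem radon : S_radon := by
  intro p q ρ τ hS hτ hp hq hρ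
  have hcp : Continuous p := continuous_iff_continuousAt.2 fun θ => (hS.dp θ).continuousAt
  have hcq : Continuous q := continuous_iff_continuousAt.2 fun θ => (hS.dq θ).continuousAt
  have hcρ := hS.cont
  have hp0 : ∀ θ, p θ ≠ 0 := fun θ => (hS.ppos θ).ne'
  have hρ0 : ∀ θ, ρ θ ≠ 0 := fun θ => (hS.rpos θ).ne'
  have hn0 : ∀ θ, p θ ^ 2 + q θ ^ 2 ≠ 0 := fun θ => by
    have := hS.ppos θ
    positivity
  -- the function `f`
  obtain ⟨f, hf⟩ : ∃ f : ℝ → ℝ, f = fun θ => θ + π / 2 + Real.arctan (q θ / p θ) := ⟨_, rfl⟩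
  have hfv : ∀ θ, f θ = θ + π / 2 + Real.arctan (q θ / p θ) := fun θ => by rw [hf]
  have hT : ∀ θ, HasDerivAt (fun θ => q θ / p θ)
      ((1 + (q θ / p θ) ^ 2) * (p θ * ρ θ / (p θ ^ 2 + q θ ^ 2) - 1)) θ := by
    intro θ
    refine ((hS.dq θ).div (hS.dp θ) (hp0 θ)).congr_deriv ?_
    have := hp0 θ
    have := hn0 θ
    field_simp
    ring
  have hf' : ∀ θ, HasDerivAt f (p θ * ρ θ / (p θ ^ 2 + q θ ^ 2)) θ := by
    intro θ
    rw [hf]
    refine ((((hasDerivAt_id θ).add_const (π / 2))).add (hT θ).arctan).congr_deriv ?_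
    have : 1 + (q θ / p θ) ^ 2 ≠ 0 := by positivity
    field_simp
    ring
  have hl : ∀ θ, HasDerivAt (fun θ => τ / p θ ^ 2) (-2 * (q θ / p θ) * (τ / p θ ^ 2)) θ := by
    intro θ
    refine ((hasDerivAt_const θ τ).div ((hS.dp θ).fun_pow 2) (pow_ne_zero 2 (hp0 θ))).congr_deriv ?_
    have := hp0 θ
    field_simp
    ring
  have hp2 : ∀ θ, p (θ + 2 * π) = p θ := fun θ => by
    rw [show θ + 2 * π = θ + π + π by ring, hS.pp, hS.pp]
  have hq2 : ∀ θ, q (θ + 2 * π) = q θ := fun θ => by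
    rw [show θ + 2 * π = θ + π + π by ring, hS.qp, hS.qp]
  have hρ2 : ∀ θ, ρ (θ + 2 * π) = ρ θ := fun θ => by
    rw [show θ + 2 * π = θ + π + π by ring, hS.rp, hS.rp]
  have hf2 : f (2 * π) = f 0 + 2 * π := by
    rw [hfv, hfv, show (2 * π : ℝ) = 0 + 2 * π by ring, hp2, hq2]
    ring
  obtain ⟨F, hF⟩ : ∃ F : ℝ → ℝ, F = fun θ => Psi (p θ) (q θ) (ρ θ) (τ / p θ) := ⟨_, rfl⟩
  have hcF : Continuous F := by
    have : F = fun θ => 2 * √(ρ θ / p θ) * Real.arctan (τ / p θ / √(p θ * ρ θ)) -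
      (Real.arctan (q θ / p θ + τ / p θ ^ 2) - Real.arctan (q θ / p θ - τ / p θ ^ 2)) -
      q θ / p θ * Radon.LL (q θ / p θ) (τ / p θ ^ 2) := by
      rw [hF]
      funext θ
      exact Radon.psi_eq _ _ _ _ (hS.ppos θ)
    rw [this]
    unfold Radon.LL
    have h1 : ∀ θ, √(p θ * ρ θ) ≠ 0 := fun θ =>
      (Real.sqrt_pos.2 (mul_pos (hS.ppos θ) (hS.rpos θ))).ne'
    have h2 : ∀ θ, p θ ^ 2 ≠ 0 := fun θ => pow_ne_zero 2 (hp0 θ)
    have h3 : ∀ θ, (1 + (q θ / p θ + τ / p θ ^ 2) ^ 2) ≠ 0 := fun θ => by positivity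
    have h4 : ∀ θ, (1 + (q θ / p θ - τ / p θ ^ 2) ^ 2) ≠ 0 := fun θ => by positivity
    fun_prop (disch := assumption)
  have hper : Function.Periodic F (2 * π) := by
    intro θ
    rw [hF]
    simp only [hp2, hq2, hρ2]
  have hcf' : Continuous (fun θ => p θ * ρ θ / (p θ ^ 2 + q θ ^ 2)) := by
    fun_prop (disch := assumption)
  -- the substitution
  have hsub : ∫ θ in (0 : ℝ)..(2 * π), F (f θ) * (p θ * ρ θ / (p θ ^ 2 + q θ ^ 2)) =
      ∫ θ in (0 : ℝ)..(2 * π), F θ := by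
    have h1 := intervalIntegral.integral_comp_mul_deriv (a := 0) (b := 2 * π) (f := f)
      (f' := fun θ => p θ * ρ θ / (p θ ^ 2 + q θ ^ 2)) (g := F) (fun θ _ => hf' θ)
      hcf'.continuousOn hcF
    simp only [Function.comp] at h1
    rw [h1, hf2, hper.intervalIntegral_add_eq (f 0) 0, zero_add]
  have hf'int : ∫ θ in (0 : ℝ)..(2 * π), p θ * ρ θ / (p θ ^ 2 + q θ ^ 2) = 2 * π := by
    rw [intervalIntegral.integral_eq_sub_of_hasDerivAt (fun θ _ => hf' θ)
      (hcf'.intervalIntegrable _ _), hf2]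
    ring
  have hcT : Continuous (fun θ => q θ / p θ) := by fun_prop (disch := assumption)
  have hcl : Continuous (fun θ => τ / p θ ^ 2) := by
    have h2 : ∀ θ, p θ ^ 2 ≠ 0 := fun θ => pow_ne_zero 2 (hp0 θ)
    fun_prop (disch := assumption)
  have hcc : Continuous (fun θ => p θ * ρ θ / (p θ ^ 2 + q θ ^ 2) - 1) := hcf'.sub continuous_const
  have hvan := Radon.vanish (fun θ => q θ / p θ) (fun θ => τ / p θ ^ 2)
    (fun θ => p θ * ρ θ / (p θ ^ 2 + q θ ^ 2) - 1) hcT hcl hcc hT hl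
    (by
      have h1 := hq2 0
      have h2 := hp2 0
      rw [zero_add] at h1 h2
      simp only [h1, h2])
    (by
      have h2 := hp2 0
      rw [zero_add] at h2
      simp only [h2])
  -- the pointwise identity
  have hpt : ∀ θ, F θ + F (f θ) * (p θ * ρ θ / (p θ ^ 2 + q θ ^ 2)) =
      (π * √(ρ θ / p θ) - π * (p θ * ρ θ / (p θ ^ 2 + q θ ^ 2))) +
      ((p θ * ρ θ / (p θ ^ 2 + q θ ^ 2) - 1) *
        (Real.arctan (q θ / p θ + τ / p θ ^ 2) - Real.arctan (q θ / p θ - τ / p θ ^ 2)) -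
      (2 + (p θ * ρ θ / (p θ ^ 2 + q θ ^ 2) - 1)) * (q θ / p θ) *
        Radon.LL (q θ / p θ) (τ / p θ ^ 2)) := by
    intro θ
    have e1 : F (f θ) = Psi (τ / √(p θ ^ 2 + q θ ^ 2)) (-(τ * q θ) / (p θ * √(p θ ^ 2 + q θ ^ 2)))
        (τ * (p θ ^ 2 + q θ ^ 2) * √(p θ ^ 2 + q θ ^ 2) / (p θ ^ 3 * ρ θ))
        (τ / (τ / √(p θ ^ 2 + q θ ^ 2))) := by
      rw [hF]
      simp only [hfv]
      rw [hp θ, hq θ, hρ θ]
    have e2 : F θ = 2 * √(ρ θ / p θ) * Real.arctan (τ / p θ / √(p θ * ρ θ)) -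
        (Real.arctan (q θ / p θ + τ / p θ ^ 2) - Real.arctan (q θ / p θ - τ / p θ ^ 2)) -
        q θ / p θ * Radon.LL (q θ / p θ) (τ / p θ ^ 2) := by
      rw [hF]
      exact Radon.psi_eq _ _ _ _ (hS.ppos θ)
    rw [e1, Radon.psi_f _ _ _ _ (hS.ppos θ) (hS.rpos θ) hτ, e2]
    ring
  have hcFf : Continuous (fun θ => F (f θ) * (p θ * ρ θ / (p θ ^ 2 + q θ ^ 2))) := by
    have hcf : Continuous f := continuous_iff_continuousAt.2 fun θ => (hf' θ).continuousAt
    exact (hcF.comp hcf).mul hcf'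
  have hc1 : Continuous (fun θ => √(ρ θ / p θ)) := by fun_prop (disch := assumption)
  have h2F : ∫ θ in (0 : ℝ)..(2 * π), (F θ + F (f θ) * (p θ * ρ θ / (p θ ^ 2 + q θ ^ 2))) =
      2 * ∫ θ in (0 : ℝ)..(2 * π), F θ := by
    rw [intervalIntegral.integral_add (hcF.intervalIntegrable _ _) (hcFf.intervalIntegrable _ _),
      hsub]
    ring
  have hcont3 : Continuous (fun θ => (p θ * ρ θ / (p θ ^ 2 + q θ ^ 2) - 1) *
        (Real.arctan (q θ / p θ + τ / p θ ^ 2) - Real.arctan (q θ / p θ - τ / p θ ^ 2)) -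
      (2 + (p θ * ρ θ / (p θ ^ 2 + q θ ^ 2) - 1)) * (q θ / p θ) *
        Radon.LL (q θ / p θ) (τ / p θ ^ 2)) := by
    unfold Radon.LL
    have h3 : ∀ θ, (1 + (q θ / p θ + τ / p θ ^ 2) ^ 2) ≠ 0 := fun θ => by positivity
    have h4 : ∀ θ, (1 + (q θ / p θ - τ / p θ ^ 2) ^ 2) ≠ 0 := fun θ => by positivity
    have h2 : ∀ θ, p θ ^ 2 ≠ 0 := fun θ => pow_ne_zero 2 (hp0 θ)
    fun_prop (disch := assumption)
  have hc2 : Continuous (fun θ => π * √(ρ θ / p θ) -
      π * (p θ * ρ θ / (p θ ^ 2 + q θ ^ 2))) :=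
    (hc1.const_mul π).sub (hcf'.const_mul π)
  simp only [hpt] at h2F
  rw [intervalIntegral.integral_add (hc2.intervalIntegrable _ _)
    (hcont3.intervalIntegrable _ _), hvan, add_zero,
    intervalIntegral.integral_sub ((hc1.const_mul π).intervalIntegrable _ _)
      ((hcf'.const_mul π).intervalIntegrable _ _),
    intervalIntegral.integral_const_mul, intervalIntegral.integral_const_mul, hf'int] at h2F
  rw [intervalIntegral.integral_sub (hc1.intervalIntegrable _ _)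
    (continuous_const.intervalIntegrable _ _), intervalIntegral.integral_const]
  rw [hF] at h2F
  simp only [smul_eq_mul]
  linarith

end Pool.Agent.H97.OB
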