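import Pool.Agent.H97.OB.Stubs

/-!
OB6: the planar Blaschke-Santaló inequality in the form used for the outer Bialy-Mironov theorem.
-/

set_option autoImplicit false

open Set MeasureTheory Filter Topology
open scoped Real

namespace Pool.Agent.H97.OB

namespace Santalo

/-- `f ^ 2 cot (x - β)` is continuous at a zero `β` of `f`. -/
theorem cont_at_zero (f : ℝ → ℝ) (β f' : ℝ) (hf : HasDerivAt f f' β) (h0 : f β = 0) :
    ContinuousAt (fun x => f x ^ 2 * (Real.cos (x - β) / Real.sin (x - β))) β := by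
  have h1 : ContinuousAt (fun x => (dslope f β x) ^ 2 * (x - β) * Real.cos (x - β) /
      Real.sinc (x - β)) β := by
    have hd : ContinuousAt (dslope f β) β := continuousAt_dslope_same.2 hf.differentiableAt
    have hs : ContinuousAt (fun x => Real.sinc (x - β)) β :=
      (Real.continuous_sinc.comp (continuous_id.sub continuous_const)).continuousAt
    refine ContinuousAt.div (((hd.pow 2).mul ?_).mul ?_) hs ?_
    · fun_prop
    · fun_prop
    · simp
  refine h1.congr ?_
  filter_upwards with x
  by_cases hx : x = β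
  · subst hx; simp
  · have hx' : x - β ≠ 0 := sub_ne_zero.2 hx
    rw [dslope_of_ne _ hx, slope_def_field, h0, sub_zero, Real.sinc_of_ne_zero hx']
    by_cases hs : Real.sin (x - β) = 0
    · simp [hs]
    · field_simp

/-- Wirtinger's inequality for antiperiodic functions. -/
theorem wirtinger (f f' : ℝ → ℝ) (hf : ∀ x, HasDerivAt f (f' x) x) (hc : Continuous f')
    (ha : ∀ x, f (x + π) = -f x) :
    (∫ x in (0 : ℝ)..π, f x ^ 2) ≤ (∫ x in (0 : ℝ)..π, f' x ^ 2) ∧
    ((∫ x in (0 : ℝ)..π, f' x ^ 2) ≤ (∫ x in (0 : ℝ)..π, f x ^ 2) →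
      ∃ C α : ℝ, ∀ x, f x = C * Real.sin (x - α)) := by
  have hfc : Continuous f := continuous_iff_continuousAt.2 fun x => (hf x).continuousAt
  -- a zero
  obtain ⟨α, hα⟩ : ∃ α, f α = 0 := by
    have h1 : f π = -f 0 := by simpa using ha 0
    have h2 : (0 : ℝ) ∈ uIcc (f 0) (f π) := by
      rw [h1]
      rcases le_total 0 (f 0) with h | h
      · exact mem_uIcc.2 (Or.inr ⟨by linarith, h⟩)
      · exact mem_uIcc.2 (Or.inl ⟨h, by linarith⟩)
    obtain ⟨x, -, hx⟩ := intermediate_value_uIcc (a := (0 : ℝ)) (b := π) hfc.continuousOn h2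
    exact ⟨x, hx⟩
  -- antiperiodicity of the derivative
  have ha' : ∀ x, f' (x + π) = -f' x := by
    intro x
    have h1 : HasDerivAt (fun y => f (y + π)) (f' (x + π)) x := (hf (x + π)).comp_add_const x π
    have h2 : HasDerivAt (fun y => f (y + π)) (-f' x) x := by
      have : (fun y => f (y + π)) = fun y => -f y := funext ha
      rw [this]
      exact (hf x).neg
    exact h1.unique h2
  have hper : Function.Periodic (fun x => f x ^ 2) π := fun x => by simp [ha x]
  have hper' : Function.Periodic (fun x => f' x ^ 2) π := fun x => by simp [ha' x]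
  have e1 : (∫ x in (0 : ℝ)..π, f x ^ 2) = ∫ x in α..(α + π), f x ^ 2 := by
    simpa using hper.intervalIntegral_add_eq 0 α
  have e2 : (∫ x in (0 : ℝ)..π, f' x ^ 2) = ∫ x in α..(α + π), f' x ^ 2 := by
    simpa using hper'.intervalIntegral_add_eq 0 α
  set g : ℝ → ℝ := fun x => f x ^ 2 * (Real.cos (x - α) / Real.sin (x - α)) with hg
  have hsin : ∀ x ∈ Ioo α (α + π), 0 < Real.sin (x - α) := fun x hx =>
    Real.sin_pos_of_pos_of_lt_pi (by linarith [hx.1]) (by linarith [hx.2])
  have hβ : f (α + π) = 0 := by rw [ha, hα, neg_zero]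
  have hgβ : g = fun x => f x ^ 2 * (Real.cos (x - (α + π)) / Real.sin (x - (α + π))) := by
    funext x
    have h1 : Real.cos (x - (α + π)) = -Real.cos (x - α) := by
      rw [← sub_sub, Real.cos_sub_pi]
    have h2 : Real.sin (x - (α + π)) = -Real.sin (x - α) := by
      rw [← sub_sub, Real.sin_sub_pi]
    rw [h1, h2, neg_div_neg_eq]
  have hderiv : ∀ x ∈ Ioo α (α + π), HasDerivAt g (f' x ^ 2 - f x ^ 2 -
      (f' x - f x * (Real.cos (x - α) / Real.sin (x - α))) ^ 2) x := by
    intro x hx
    have hs := hsin x hx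
    have hd1 : HasDerivAt (fun y => Real.cos (y - α)) (-Real.sin (x - α)) x := by
      simpa using (Real.hasDerivAt_cos (x - α)).comp_sub_const x α
    have hd2 : HasDerivAt (fun y => Real.sin (y - α)) (Real.cos (x - α)) x := by
      simpa using (Real.hasDerivAt_sin (x - α)).comp_sub_const x α
    have hd := ((hf x).pow 2).mul (hd1.div hd2 hs.ne')
    refine hd.congr_deriv ?_
    simp only [Pi.pow_apply, Pi.div_apply]
    field_simp
    ring
  have hcont : ContinuousOn g (Icc α (α + π)) := by
    intro x hx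
    rcases eq_or_lt_of_le hx.1 with h | h
    · subst h
      exact (cont_at_zero f α _ (hf α) hα).continuousWithinAt
    · rcases eq_or_lt_of_le hx.2 with h' | h'
      · rw [hgβ, h']
        exact (cont_at_zero f (α + π) _ (hf (α + π)) hβ).continuousWithinAt
      · exact (hderiv x ⟨h, h'⟩).continuousAt.continuousWithinAt
  have hgα : g α = 0 := by simp [hg, hα]
  have hgb : g (α + π) = 0 := by simp [hg, hβ]
  have hpi := Real.pi_pos
  -- the basic inequality with a correction term
  have key : (0 : ℝ) ≤ ∫ x in α..(α + π), (f' x ^ 2 - f x ^ 2 -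
      (f' x * Real.sin (x - α) - f x * Real.cos (x - α)) ^ 2) := by
    have h := intervalIntegral.sub_le_integral_of_hasDeriv_right_of_le (a := α) (b := α + π)
      (by linarith) hcont (fun x hx => (hderiv x hx).hasDerivWithinAt)
      (φ := fun x => f' x ^ 2 - f x ^ 2 -
        (f' x * Real.sin (x - α) - f x * Real.cos (x - α)) ^ 2)
      (by
        apply Continuous.integrableOn_Icc
        fun_prop)
      (by
        intro x hx
        have hs := hsin x hx
        have hs1 : Real.sin (x - α) ≤ 1 := Real.sin_le_one _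
        have : f' x * Real.sin (x - α) - f x * Real.cos (x - α) =
            Real.sin (x - α) * (f' x - f x * (Real.cos (x - α) / Real.sin (x - α))) := by
          field_simp
        rw [this, mul_pow]
        have h3 : Real.sin (x - α) ^ 2 ≤ 1 := by nlinarith
        nlinarith [sq_nonneg (f' x - f x * (Real.cos (x - α) / Real.sin (x - α)))])
    simpa [hgα, hgb] using h
  have i1 : IntervalIntegrable (fun x => f x ^ 2) volume α (α + π) :=
    (by fun_prop : Continuous fun x => f x ^ 2).intervalIntegrable _ _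
  have i2 : IntervalIntegrable (fun x => f' x ^ 2) volume α (α + π) :=
    (by fun_prop : Continuous fun x => f' x ^ 2).intervalIntegrable _ _
  have hc3 : Continuous (fun x => (f' x * Real.sin (x - α) - f x * Real.cos (x - α)) ^ 2) := by
    fun_prop
  have i3 : IntervalIntegrable
      (fun x => (f' x * Real.sin (x - α) - f x * Real.cos (x - α)) ^ 2) volume α (α + π) :=
    hc3.intervalIntegrable _ _
  rw [intervalIntegral.integral_sub (i2.sub i1) i3, intervalIntegral.integral_sub i2 i1] at key
  have hnn : 0 ≤ ∫ x in α..(α + π),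
      (f' x * Real.sin (x - α) - f x * Real.cos (x - α)) ^ 2 :=
    intervalIntegral.integral_nonneg (by linarith) fun x _ => sq_nonneg _
  rw [e1, e2]
  refine ⟨by linarith, fun heq => ?_⟩
  have hz : (∫ x in α..(α + π),
      (f' x * Real.sin (x - α) - f x * Real.cos (x - α)) ^ 2) = 0 := by linarith
  -- the integrand vanishes
  have hzero : ∀ x ∈ Ioo α (α + π),
      f' x * Real.sin (x - α) - f x * Real.cos (x - α) = 0 := by
    intro x hx
    by_contra hne
    have hpos : 0 < ∫ x in α..(α + π),
        (f' x * Real.sin (x - α) - f x * Real.cos (x - α)) ^ 2 := by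
      apply intervalIntegral.integral_pos (by linarith) hc3.continuousOn
        (fun y _ => sq_nonneg _)
      exact ⟨x, ⟨hx.1.le, hx.2.le⟩, by positivity⟩
    linarith
  set C : ℝ := f (α + π / 2) with hC
  have hconst : ∀ x ∈ Ioo α (α + π), f x / Real.sin (x - α) = C := by
    intro x hx
    have hd : ∀ y ∈ Ioo α (α + π), HasDerivAt (fun z => f z / Real.sin (z - α)) 0 y := by
      intro y hy
      have hs := hsin y hy
      have hd2 : HasDerivAt (fun y => Real.sin (y - α)) (Real.cos (y - α)) y := by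
        simpa using (Real.hasDerivAt_sin (y - α)).comp_sub_const y α
      refine ((hf y).div hd2 hs.ne').congr_deriv ?_
      rw [hzero y hy, zero_div]
    have h1 := isOpen_Ioo.is_const_of_deriv_eq_zero (s := Ioo α (α + π))
      (f := fun z => f z / Real.sin (z - α)) isPreconnected_Ioo
      (fun y hy => (hd y hy).differentiableAt.differentiableWithinAt)
      (fun y hy => (hd y hy).deriv) hx
      (show α + π / 2 ∈ Ioo α (α + π) from ⟨by linarith, by linarith⟩)
    simpa using h1
  refine ⟨C, α, ?_⟩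
  have hk : ∀ x ∈ Ico α (α + π), f x = C * Real.sin (x - α) := by
    intro x hx
    rcases eq_or_lt_of_le hx.1 with h | h
    · subst h; simp [hα]
    · have hs := hsin x ⟨h, hx.2⟩
      have := hconst x ⟨h, hx.2⟩
      field_simp at this
      linarith
  intro x
  have hkp : Function.Periodic (fun x => (f x - C * Real.sin (x - α)) ^ 2) π := by
    intro x
    have h1 : Real.sin (x + π - α) = -Real.sin (x - α) := by
      rw [show x + π - α = x - α + π by ring, Real.sin_add_pi]
    simp only [ha x, h1]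
    ring
  obtain ⟨y, hy, hxy⟩ := hkp.exists_mem_Ico Real.pi_pos x α
  have h2 : (f x - C * Real.sin (x - α)) ^ 2 = 0 := by
    have h3 : (f x - C * Real.sin (x - α)) ^ 2 = (f y - C * Real.sin (y - α)) ^ 2 := hxy
    rw [h3, hk y hy, sub_self]
    norm_num
  have h4 := pow_eq_zero_iff (two_ne_zero) |>.1 h2
  linarith

end Santalo

/-- **OB6.** -/
theorem santalo : S_santalo := by
  intro p q ρ h
  have hpi := Real.pi_pos
  have hpc : Continuous p := continuous_iff_continuousAt.2 fun x => (h.dp x).continuousAt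
  have hqc : Continuous q := continuous_iff_continuousAt.2 fun x => (h.dq x).continuousAt
  have hρc : Continuous ρ := h.cont
  have hpne : ∀ θ, p θ ≠ 0 := fun θ => (h.ppos θ).ne'
  have hic : Continuous (fun θ => (p θ ^ 2)⁻¹) :=
    (hpc.pow 2).inv₀ fun θ => pow_ne_zero 2 (hpne θ)
  set T0 : ℝ := ∫ θ in (0 : ℝ)..π, (p θ ^ 2)⁻¹ with hT0
  have hT0pos : 0 < T0 := by
    apply intervalIntegral.intervalIntegral_pos_of_pos (hic.intervalIntegrable _ _) _ hpi
    intro θ
    have := h.ppos θ
    positivity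
  set c : ℝ := π / T0 with hc
  have hcpos : 0 < c := div_pos hpi hT0pos
  have hcT : c * T0 = π := by rw [hc]; field_simp
  set t : ℝ → ℝ := fun θ => c * ∫ x in (0 : ℝ)..θ, (p x ^ 2)⁻¹ with ht
  have htd : ∀ θ, HasDerivAt t (c * (p θ ^ 2)⁻¹) θ := fun θ =>
    (intervalIntegral.integral_hasDerivAt_right (hic.intervalIntegrable _ _)
      (hic.stronglyMeasurableAtFilter _ _) hic.continuousAt).const_mul c
  have hiper : Function.Periodic (fun θ => (p θ ^ 2)⁻¹) π := fun θ => by simp [h.pp θ]
  have htp : ∀ θ, t (θ + π) = t θ + π := by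
    intro θ
    have h1 : (∫ x in (0 : ℝ)..(θ + π), (p x ^ 2)⁻¹) =
        (∫ x in (0 : ℝ)..θ, (p x ^ 2)⁻¹) + ∫ x in θ..(θ + π), (p x ^ 2)⁻¹ :=
      (intervalIntegral.integral_add_adjacent_intervals (hic.intervalIntegrable _ _)
        (hic.intervalIntegrable _ _)).symm
    have h2 : (∫ x in θ..(θ + π), (p x ^ 2)⁻¹) = T0 := by
      rw [hT0]
      simpa using hiper.intervalIntegral_add_eq θ 0
    simp only [ht]
    rw [h1, h2, mul_add, hcT]
  have htc : Continuous t := continuous_iff_continuousAt.2 fun x => (htd x).continuousAt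
  -- the two antiperiodic functions
  set X : ℝ → ℝ := fun θ => p θ * Real.cos (t θ) with hX
  set Y : ℝ → ℝ := fun θ => p θ * Real.sin (t θ) with hY
  set X' : ℝ → ℝ := fun θ => q θ * Real.cos (t θ) - c / p θ * Real.sin (t θ) with hX'
  set Y' : ℝ → ℝ := fun θ => q θ * Real.sin (t θ) + c / p θ * Real.cos (t θ) with hY'
  have hXd : ∀ θ, HasDerivAt X (X' θ) θ := by
    intro θ
    refine ((h.dp θ).mul (htd θ).cos).congr_deriv ?_
    have := hpne θ
    simp only [hX']
    field_simp
    ring
  have hYd : ∀ θ, HasDerivAt Y (Y' θ) θ := by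
    intro θ
    refine ((h.dp θ).mul (htd θ).sin).congr_deriv ?_
    have := hpne θ
    simp only [hY']
    field_simp
  have hcp : Continuous fun θ => c / p θ := continuous_const.div hpc hpne
  have hXc : Continuous X' := by
    simp only [hX']
    exact (hqc.mul (Real.continuous_cos.comp htc)).sub (hcp.mul (Real.continuous_sin.comp htc))
  have hYc : Continuous Y' := by
    simp only [hY']
    exact (hqc.mul (Real.continuous_sin.comp htc)).add (hcp.mul (Real.continuous_cos.comp htc))
  have hXa : ∀ θ, X (θ + π) = -X θ := by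
    intro θ
    simp only [hX, htp, h.pp, Real.cos_add_pi]
    ring
  have hYa : ∀ θ, Y (θ + π) = -Y θ := by
    intro θ
    simp only [hY, htp, h.pp, Real.sin_add_pi]
    ring
  obtain ⟨wX, wX'⟩ := Santalo.wirtinger X X' hXd hXc hXa
  obtain ⟨wY, wY'⟩ := Santalo.wirtinger Y Y' hYd hYc hYa
  have hXcont : Continuous X := continuous_iff_continuousAt.2 fun x => (hXd x).continuousAt
  have hYcont : Continuous Y := continuous_iff_continuousAt.2 fun x => (hYd x).continuousAt
  have cX2 : Continuous fun θ => X θ ^ 2 := hXcont.pow 2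
  have cY2 : Continuous fun θ => Y θ ^ 2 := hYcont.pow 2
  have cX2' : Continuous fun θ => X' θ ^ 2 := hXc.pow 2
  have cY2' : Continuous fun θ => Y' θ ^ 2 := hYc.pow 2
  have cq2 : Continuous fun θ => q θ ^ 2 := hqc.pow 2
  have s1 : (∫ θ in (0 : ℝ)..π, X θ ^ 2) + (∫ θ in (0 : ℝ)..π, Y θ ^ 2) =
      ∫ θ in (0 : ℝ)..π, p θ ^ 2 := by
    rw [← intervalIntegral.integral_add (cX2.intervalIntegrable _ _)
      (cY2.intervalIntegrable _ _)]
    apply intervalIntegral.integral_congr
    intro θ _
    simp only [hX, hY]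
    have := Real.sin_sq_add_cos_sq (t θ)
    linear_combination p θ ^ 2 * this
  have s2 : (∫ θ in (0 : ℝ)..π, X' θ ^ 2) + (∫ θ in (0 : ℝ)..π, Y' θ ^ 2) =
      (∫ θ in (0 : ℝ)..π, q θ ^ 2) + c * π := by
    have : c * π = ∫ θ in (0 : ℝ)..π, c ^ 2 * (p θ ^ 2)⁻¹ := by
      rw [intervalIntegral.integral_const_mul, ← hT0, sq, mul_assoc, hcT]
    rw [this, ← intervalIntegral.integral_add (cX2'.intervalIntegrable _ _)
      (cY2'.intervalIntegrable _ _), ← intervalIntegral.integral_add
      (cq2.intervalIntegrable _ _) ((hic.const_mul _).intervalIntegrable _ _)]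
    apply intervalIntegral.integral_congr
    intro θ _
    simp only [hX', hY']
    have h1 := Real.sin_sq_add_cos_sq (t θ)
    have := hpne θ
    have h2 : c ^ 2 * (p θ ^ 2)⁻¹ = (c / p θ) ^ 2 := by field_simp
    rw [h2]
    linear_combination (q θ ^ 2 + (c / p θ) ^ 2) * h1
  have s3 : (∫ θ in (0 : ℝ)..π, p θ * ρ θ) =
      (∫ θ in (0 : ℝ)..π, p θ ^ 2) - ∫ θ in (0 : ℝ)..π, q θ ^ 2 := by
    have h1 : (∫ θ in (0 : ℝ)..π, (q θ * q θ + p θ * (ρ θ - p θ))) =
        p π * q π - p 0 * q 0 := by
      apply intervalIntegral.integral_eq_sub_of_hasDerivAt (f := fun θ => p θ * q θ)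
      · intro θ _
        exact (h.dp θ).mul (h.dq θ)
      · apply Continuous.intervalIntegrable
        fun_prop
    have h2 : p π * q π - p 0 * q 0 = 0 := by
      have := h.pp 0
      have h3 := h.qp 0
      rw [zero_add] at this h3
      rw [this, h3]
      ring
    rw [h2] at h1
    have h3 : (∫ θ in (0 : ℝ)..π, (q θ * q θ + p θ * (ρ θ - p θ))) =
        ∫ θ in (0 : ℝ)..π, (p θ * ρ θ - (p θ ^ 2 - q θ ^ 2)) := by
      apply intervalIntegral.integral_congr
      intro θ _
      ring
    rw [h3, intervalIntegral.integral_sub (by apply Continuous.intervalIntegrable; fun_prop)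
      (by apply Continuous.intervalIntegrable; fun_prop),
      intervalIntegral.integral_sub (by apply Continuous.intervalIntegrable; fun_prop)
      (by apply Continuous.intervalIntegrable; fun_prop)] at h1
    linarith
  have hk : (∫ θ in (0 : ℝ)..π, p θ * ρ θ) ≤ c * π := by linarith
  -- Cauchy-Schwarz
  have hsc : Continuous fun θ => √(ρ θ / p θ) := (hρc.div hpc hpne).sqrt
  have hcs : (∫ θ in (0 : ℝ)..π, √(ρ θ / p θ)) ≤
      ((∫ θ in (0 : ℝ)..π, p θ * ρ θ) / c + π) / 2 := by
    have h1 : ((∫ θ in (0 : ℝ)..π, p θ * ρ θ) / c + π) / 2 =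
        ∫ θ in (0 : ℝ)..π, ((p θ * ρ θ) / c + c * (p θ ^ 2)⁻¹) / 2 := by
      rw [intervalIntegral.integral_div, intervalIntegral.integral_add,
        intervalIntegral.integral_div, intervalIntegral.integral_const_mul, ← hT0, hcT]
      · apply Continuous.intervalIntegrable
        fun_prop
      · exact (hic.const_mul _).intervalIntegrable _ _
    rw [h1]
    apply intervalIntegral.integral_mono_on hpi.le (hsc.intervalIntegrable _ _)
    · apply Continuous.intervalIntegrable
      exact (((hpc.mul hρc).div_const c).add (hic.const_mul c)).div_const 2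
    · intro θ _
      have hp := h.ppos θ
      have hr := h.rpos θ
      have e : ρ θ / p θ = ((p θ * ρ θ) / c) * (c * (p θ ^ 2)⁻¹) := by
        field_simp
      rw [e]
      set a := (p θ * ρ θ) / c with ha
      set b := c * (p θ ^ 2)⁻¹ with hb
      have ha0 : 0 ≤ a := by positivity
      have hb0 : 0 ≤ b := by positivity
      rw [Real.sqrt_le_left (by positivity)]
      nlinarith [sq_nonneg (a - b)]
  have hper : Function.Periodic (fun θ => √(ρ θ / p θ)) π := fun θ => by
    simp only [h.pp θ, h.rp θ]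
  have h2pi : (∫ θ in (0 : ℝ)..(2 * π), √(ρ θ / p θ)) =
      2 * ∫ θ in (0 : ℝ)..π, √(ρ θ / p θ) := by
    have h1 : (∫ θ in (0 : ℝ)..(2 * π), √(ρ θ / p θ)) =
        (∫ θ in (0 : ℝ)..π, √(ρ θ / p θ)) + ∫ θ in π..(2 * π), √(ρ θ / p θ) :=
      (intervalIntegral.integral_add_adjacent_intervals (hsc.intervalIntegrable _ _)
        (hsc.intervalIntegrable _ _)).symm
    have h2 : (∫ θ in π..(2 * π), √(ρ θ / p θ)) = ∫ θ in (0 : ℝ)..π, √(ρ θ / p θ) := by
      have := hper.intervalIntegral_add_eq π 0
      rw [zero_add, ← two_mul] at this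
      exact this
    rw [h1, h2]
    ring
  have hcpi : c * π / c = π := by field_simp
  have hkc : (∫ θ in (0 : ℝ)..π, p θ * ρ θ) / c ≤ π := by
    rw [div_le_iff₀ hcpos]
    linarith
  refine ⟨by rw [h2pi]; linarith, fun heq => ?_⟩
  rw [h2pi] at heq
  have h3 : π ≤ (∫ θ in (0 : ℝ)..π, p θ * ρ θ) / c := by linarith
  rw [le_div_iff₀ hcpos] at h3
  obtain ⟨C1, α1, hC1⟩ := wX' (by linarith)
  obtain ⟨C2, α2, hC2⟩ := wY' (by linarith)
  refine ⟨C1 ^ 2 * Real.sin α1 ^ 2 + C2 ^ 2 * Real.sin α2 ^ 2,
    -2 * (C1 ^ 2 * Real.sin α1 * Real.cos α1 + C2 ^ 2 * Real.sin α2 * Real.cos α2),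
    C1 ^ 2 * Real.cos α1 ^ 2 + C2 ^ 2 * Real.cos α2 ^ 2, fun θ => ?_⟩
  have h4 := hC1 θ
  have h5 := hC2 θ
  rw [Real.sin_sub] at h4 h5
  have h6 : p θ ^ 2 = X θ ^ 2 + Y θ ^ 2 := by
    simp only [hX, hY]
    have := Real.sin_sq_add_cos_sq (t θ)
    linear_combination -p θ ^ 2 * this
  rw [h6, h4, h5]
  ring

end Pool.Agent.H97.OB
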