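import Pool.Agent.H97.OB.Rel
import Pool.Agent.H97.OB.Mono
import Pool.Agent.H97.OB.Santalo
import Pool.Agent.H97.OB.Radon

/-!
# The outer Bialy-Mironov theorem
-/

set_option autoImplicit false

open Set Filter Topology Complex MeasureTheory
open scoped ContDiff Real

namespace Pool.Agent.H97.OB

variable {γ : ℝ → ℂ} {ρ : ℝ → ℝ} {Y : ℂ → ℝ}

/-- a continuous function at bounded distance from the identity is onto -/
lemma surj_of_bdd {g : ℝ → ℝ} (hg : Continuous g) (M : ℝ) (hb : ∀ x, |g x - x| ≤ M) :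
    Function.Surjective g := by
  apply hg.surjective
  · refine tendsto_atTop.2 fun b => ?_
    filter_upwards [eventually_ge_atTop (b + M)] with x hx
    have := (abs_le.1 (hb x)).1
    linarith
  · refine tendsto_atBot.2 fun b => ?_
    filter_upwards [eventually_le_atBot (b - M)] with x hx
    have := (abs_le.1 (hb x)).2
    linarith

namespace Sit

lemma cont_sp (h : Sit γ ρ Y) : Continuous (sp γ) :=
  continuous_iff_continuousAt.2 fun θ => (h.supp.dp θ).continuousAt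

lemma cont_sq (h : Sit γ ρ Y) : Continuous (sq γ) :=
  continuous_iff_continuousAt.2 fun θ => (h.supp.dq θ).continuousAt

/-- polar angles are onto -/
lemma angle_surj (h : Sit γ ρ Y) {s : ℝ → ℝ} (hs : Continuous s) (φ : ℝ) :
    ∃ θ, θ + Real.arctan ((sq γ θ + s θ) / sp γ θ) = φ := by
  have hp := h.cont_sp
  have hq := h.cont_sq
  refine surj_of_bdd (g := fun θ => θ + Real.arctan ((sq γ θ + s θ) / sp γ θ)) ?_ (π / 2) ?_ φ
  · refine continuous_id.add (Real.continuous_arctan.comp (Continuous.div (by fun_prop) hp ?_))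
    intro θ; exact (h.supp.ppos θ).ne'
  · intro θ
    rw [add_sub_cancel_left, abs_le]
    exact ⟨(Real.neg_pi_div_two_lt_arctan _).le, (Real.arctan_lt_pi_div_two _).le⟩

/-- all the points of a leaf -/
lemma leaf_iff (h : Sit γ ρ Y) {c : ℝ} (h0 : 0 < c) (h1 : c ≤ 1) (z : ℂ) :
    Y z = c ↔ ∃ θ, z = P γ θ (S γ Y c θ) := by
  constructor
  · intro hz
    have hz0 : z ≠ 0 := by
      rintro rfl
      have := h.inside_zero
      linarith
    have hn : 0 < ‖z‖ := norm_pos_iff.2 hz0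
    have hzp : z = ‖z‖ * exp (arg z * I) := (norm_mul_exp_arg_mul_I z).symm
    have hr1 : ‖z‖ = Rad Y c (arg z) := h.Rad_unique h0 h1 hn (by rw [← hzp]; exact hz)
    obtain ⟨θ, hθ⟩ := h.angle_surj (h.S_cont h0 h1) (arg z)
    refine ⟨θ, ?_⟩
    rw [h.P_rad h0 h1 (h.S_spec h0 h1 θ).2, hθ, ← hr1]
    exact hzp
  · rintro ⟨θ, rfl⟩
    exact (h.S_spec h0 h1 θ).2

/-- The quadratic form. -/
noncomputable def Nq (A B C : ℝ) (z : ℂ) : ℝ :=
  C / (A * C - B ^ 2 / 4) * z.re ^ 2 + 2 * (-B / (2 * (A * C - B ^ 2 / 4))) * z.re * z.im +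
    A / (A * C - B ^ 2 / 4) * z.im ^ 2

section ell

variable (h : Sit γ ρ Y) {A B C : ℝ} (hp2 : ∀ θ, sp γ θ ^ 2 =
  A * Real.cos θ ^ 2 + B * (Real.cos θ * Real.sin θ) + C * Real.sin θ ^ 2)
include h hp2

lemma disc_pos : 0 < A ∧ 0 < C ∧ 0 < A * C - B ^ 2 / 4 := by
  have hA : 0 < A := by
    have := hp2 0
    simp at this
    rw [← this]
    have := h.supp.ppos 0
    positivity
  have hC : 0 < C := by
    have := hp2 (π / 2)
    simp at this
    rw [← this]
    have := h.supp.ppos (π / 2)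
    positivity
  refine ⟨hA, hC, ?_⟩
  set v : ℂ := ⟨B / 2, -A⟩ with hv
  have hv0 : v ≠ 0 := by
    intro h0
    have := congrArg Complex.im h0
    simp [hv] at this
    exact hA.ne' this
  have hn : 0 < ‖v‖ := norm_pos_iff.2 hv0
  have e1 : ‖v‖ * Real.cos (arg v) = B / 2 := by
    rw [Complex.norm_mul_cos_arg]
  have e2 : ‖v‖ * Real.sin (arg v) = -A := by
    rw [Complex.norm_mul_sin_arg]
  have h2 := hp2 (arg v)
  have h3 : ‖v‖ ^ 2 * sp γ (arg v) ^ 2 = A * (A * C - B ^ 2 / 4) := by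
    rw [h2]
    have : ‖v‖ ^ 2 * (A * Real.cos (arg v) ^ 2 + B * (Real.cos (arg v) * Real.sin (arg v)) +
        C * Real.sin (arg v) ^ 2) = A * (‖v‖ * Real.cos (arg v)) ^ 2 +
        B * ((‖v‖ * Real.cos (arg v)) * (‖v‖ * Real.sin (arg v))) +
        C * (‖v‖ * Real.sin (arg v)) ^ 2 := by ring
    rw [this, e1, e2]; ring
  have h4 : 0 < ‖v‖ ^ 2 * sp γ (arg v) ^ 2 := by
    have := h.supp.ppos (arg v)
    positivity
  rw [h3] at h4
  exact (pos_iff_pos_of_mul_pos h4).1 hA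

lemma pq_eq (θ : ℝ) : sp γ θ * sq γ θ = (C - A) * (Real.cos θ * Real.sin θ) +
    B / 2 * (Real.cos θ ^ 2 - Real.sin θ ^ 2) := by
  have d1 : HasDerivAt (fun θ => sp γ θ ^ 2) (2 * sp γ θ * sq γ θ) θ := by
    exact ((h.supp.dp θ).pow 2).congr_deriv (by simp)
  have hc := Real.hasDerivAt_cos θ
  have hs := Real.hasDerivAt_sin θ
  have d2 : HasDerivAt (fun θ => A * Real.cos θ ^ 2 + B * (Real.cos θ * Real.sin θ) +
      C * Real.sin θ ^ 2) (A * (2 * Real.cos θ * (-Real.sin θ)) +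
      B * (-Real.sin θ * Real.sin θ + Real.cos θ * Real.cos θ) +
      C * (2 * Real.sin θ * Real.cos θ)) θ := by
    exact ((((hc.pow 2).const_mul A).add ((hc.mul hs).const_mul B)).add
      ((hs.pow 2).const_mul C)).congr_deriv (by simp)
  have e : (fun θ => sp γ θ ^ 2) = fun θ => A * Real.cos θ ^ 2 +
      B * (Real.cos θ * Real.sin θ) + C * Real.sin θ ^ 2 := funext hp2
  rw [e] at d1
  have := d1.unique d2
  linarith

/-- the value of the quadratic form in tangent coordinates -/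
lemma Nq_P (θ s : ℝ) : Nq A B C (P γ θ s) = 1 + s ^ 2 * sp γ θ ^ 2 / (A * C - B ^ 2 / 4) := by
  obtain ⟨hA, hC, hD⟩ := h.disc_pos hp2
  have hp := h.supp.ppos θ
  have hpq := h.pq_eq hp2 θ
  have hpp := hp2 θ
  have hre : (P γ θ s).re = sp γ θ * Real.cos θ - (sq γ θ + s) * Real.sin θ := by
    rw [P_eq_pt, pt, exp_mul_I, ← ofReal_cos, ← ofReal_sin]
    simp only [mul_re, add_re, add_im, ofReal_re, ofReal_im, I_re, I_im, mul_im]
    ring
  have him : (P γ θ s).im = sp γ θ * Real.sin θ + (sq γ θ + s) * Real.cos θ := by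
    rw [P_eq_pt, pt, exp_mul_I, ← ofReal_cos, ← ofReal_sin]
    simp only [mul_re, add_re, add_im, ofReal_re, ofReal_im, I_re, I_im, mul_im]
    ring
  have hcs := Real.sin_sq_add_cos_sq θ
  have hx : sp γ θ * (sp γ θ * Real.cos θ - sq γ θ * Real.sin θ) =
      A * Real.cos θ + B / 2 * Real.sin θ := by
    have e1 : sp γ θ * (sp γ θ * Real.cos θ - sq γ θ * Real.sin θ) =
      sp γ θ ^ 2 * Real.cos θ - (sp γ θ * sq γ θ) * Real.sin θ := by ring
    rw [e1, hpp, hpq]
    linear_combination (A * Real.cos θ + B / 2 * Real.sin θ) * hcs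
  have hy : sp γ θ * (sp γ θ * Real.sin θ + sq γ θ * Real.cos θ) =
      B / 2 * Real.cos θ + C * Real.sin θ := by
    have e1 : sp γ θ * (sp γ θ * Real.sin θ + sq γ θ * Real.cos θ) =
      sp γ θ ^ 2 * Real.sin θ + (sp γ θ * sq γ θ) * Real.cos θ := by ring
    rw [e1, hpp, hpq]
    linear_combination (B / 2 * Real.cos θ + C * Real.sin θ) * hcs
  have hX : (P γ θ s).re = (A * Real.cos θ + B / 2 * Real.sin θ) / sp γ θ - s * Real.sin θ := by
    rw [hre, ← hx]; field_simp; ring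
  have hY : (P γ θ s).im = (B / 2 * Real.cos θ + C * Real.sin θ) / sp γ θ + s * Real.cos θ := by
    rw [him, ← hy]; field_simp; ring
  unfold Nq
  rw [hX, hY]
  have hD' := hD.ne'
  have hp' := hp.ne'
  set co := Real.cos θ
  set si := Real.sin θ
  set D := A * C - B ^ 2 / 4 with hDdef
  have hquad : (C * (A * co + B / 2 * si) ^ 2 - B * (A * co + B / 2 * si) * (B / 2 * co + C * si) +
      A * (B / 2 * co + C * si) ^ 2) = D * sp γ θ ^ 2 := by
    rw [hpp, hDdef]; ring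
  have hcross : (2 * C * (A * co + B / 2 * si) * (-si) -
      B * ((A * co + B / 2 * si) * co + (B / 2 * co + C * si) * (-si)) +
      2 * A * (B / 2 * co + C * si) * co) = 0 := by ring
  have hlast : (C * si ^ 2 + B * (si * co) + A * co ^ 2) = sp γ θ ^ 2 := by
    rw [hpp]; ring
  have key : C / D * ((A * co + B / 2 * si) / sp γ θ - s * si) ^ 2 +
      2 * (-B / (2 * D)) * ((A * co + B / 2 * si) / sp γ θ - s * si) *
        ((B / 2 * co + C * si) / sp γ θ + s * co) +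
      A / D * ((B / 2 * co + C * si) / sp γ θ + s * co) ^ 2 =
      (1 / D) * ((C * (A * co + B / 2 * si) ^ 2 -
        B * (A * co + B / 2 * si) * (B / 2 * co + C * si) +
        A * (B / 2 * co + C * si) ^ 2) / sp γ θ ^ 2 +
        s / sp γ θ * (2 * C * (A * co + B / 2 * si) * (-si) -
      B * ((A * co + B / 2 * si) * co + (B / 2 * co + C * si) * (-si)) +
      2 * A * (B / 2 * co + C * si) * co) +
        s ^ 2 * (C * si ^ 2 + B * (si * co) + A * co ^ 2)) := by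
    field_simp
    ring
  rw [key, hquad, hcross, hlast]
  field_simp
  ring

/-- the conics of the pencil in tangent coordinates -/
lemma conic_iff {τ : ℝ} (hτ : 0 ≤ τ) (z : ℂ) :
    Nq A B C z = 1 + τ ^ 2 / (A * C - B ^ 2 / 4) ↔ ∃ θ, z = P γ θ (τ / sp γ θ) := by
  obtain ⟨hA, hC, hD⟩ := h.disc_pos hp2
  have hval : ∀ θ, Nq A B C (P γ θ (τ / sp γ θ)) = 1 + τ ^ 2 / (A * C - B ^ 2 / 4) := by
    intro θ
    rw [h.Nq_P hp2]
    have hp := (h.supp.ppos θ).ne'
    congr 2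
    field_simp
  constructor
  · intro hz
    have hl : 0 < 1 + τ ^ 2 / (A * C - B ^ 2 / 4) := by positivity
    have hz0 : z ≠ 0 := by
      rintro rfl
      unfold Nq at hz
      simp at hz
      linarith
    have hn : 0 < ‖z‖ := norm_pos_iff.2 hz0
    have hzp : z = ‖z‖ * exp (arg z * I) := (norm_mul_exp_arg_mul_I z).symm
    have hcs : Continuous fun θ => τ / sp γ θ :=
      continuous_const.div h.cont_sp fun θ => (h.supp.ppos θ).ne'
    obtain ⟨θ, hθ⟩ := h.angle_surj hcs (arg z)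
    refine ⟨θ, ?_⟩
    have hP := h.P_polar θ (τ / sp γ θ)
    rw [hθ] at hP
    set R := sp γ θ * √(1 + ((sq γ θ + τ / sp γ θ) / sp γ θ) ^ 2) with hR
    have hRpos : 0 < R := mul_pos (h.supp.ppos θ) (Real.sqrt_pos.2 (by positivity))
    have hscale : ∀ r : ℝ, Nq A B C (r * exp (arg z * I)) = r ^ 2 * Nq A B C (exp (arg z * I)) := by
      intro r
      unfold Nq
      simp only [mul_re, mul_im, ofReal_re, ofReal_im]
      ring
    have e1 := hval θ
    rw [hP, hscale] at e1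
    rw [hzp, hscale] at hz
    have hN : Nq A B C (exp (arg z * I)) ≠ 0 := by
      intro h0
      rw [h0, mul_zero] at hz
      linarith
    have h5 : ‖z‖ ^ 2 = R ^ 2 := mul_right_cancel₀ hN (hz.trans e1.symm)
    have h6 : ‖z‖ = R := (pow_left_inj₀ hn.le hRpos.le two_ne_zero).1 h5
    rw [hP, ← h6]
    exact hzp
  · rintro ⟨θ, rfl⟩
    exact hval θ

end ell

end Sit

/-- **Outer Bialy-Mironov theorem.** -/
theorem outer_bialy_mironov (hγ : IsOval γ ρ) (hs : ∀ θ, γ (θ + π) = -γ θ)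
    (hY : IsCollar γ Y) (hr : ∀ θ, SigmaReflection γ Y θ) (h4 : OuterLeafFourPeriodic γ Y) :
    ∃ a b d : ℝ, 0 < a ∧ b ^ 2 < a * d ∧
      (∀ z : ℂ, z ∈ range γ ↔ a * z.re ^ 2 + 2 * b * z.re * z.im + d * z.im ^ 2 = 1) ∧
      ∀ c, 0 ≤ c → c ≤ 1 → ∃ l : ℝ, 1 ≤ l ∧
        ∀ z : ℂ, Y z = c ↔ a * z.re ^ 2 + 2 * b * z.re * z.im + d * z.im ^ 2 = l := by
  have h : Sit γ ρ Y := ⟨hγ, hs, hY, second⟩
  obtain ⟨hineq, heq⟩ := h.main_ineq hr hopf mono
  obtain ⟨τ, hτ, hS, e1, e2, e3⟩ := h.radon_data hr h4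
  have hrad := radon (sp γ) (sq γ) ρ τ h.supp hτ e1 e2 e3
  have hint : (∫ θ in (0 : ℝ)..(2 * π), Psi (sp γ θ) (sq γ θ) (ρ θ) (S γ Y 1 θ)) =
      ∫ θ in (0 : ℝ)..(2 * π), Psi (sp γ θ) (sq γ θ) (ρ θ) (τ / sp γ θ) := by
    simp only [hS]
  have hsq : Continuous fun θ => √(ρ θ / sp γ θ) :=
    Real.continuous_sqrt.comp (h.oval.cont.div h.cont_sp fun θ => (h.supp.ppos θ).ne')
  have hsub : (∫ θ in (0 : ℝ)..(2 * π), (√(ρ θ / sp γ θ) - 1)) =
      (∫ θ in (0 : ℝ)..(2 * π), √(ρ θ / sp γ θ)) - 2 * π := by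
    rw [intervalIntegral.integral_sub (hsq.intervalIntegrable _ _)
      (continuous_const.intervalIntegrable _ _)]
    simp
  obtain ⟨hle, hell⟩ := santalo (sp γ) (sq γ) ρ h.supp
  rw [hint, hrad, hsub] at hineq heq
  have hπ := Real.pi_pos
  have hge : 2 * π ≤ ∫ θ in (0 : ℝ)..(2 * π), √(ρ θ / sp γ θ) := by
    by_contra hcon
    push Not at hcon
    nlinarith
  have hb := heq (by nlinarith)
  obtain ⟨A, B, C, hp2⟩ := hell hge
  obtain ⟨hA, hC, hD⟩ := h.disc_pos hp2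
  -- the leaves
  have hleaf : ∀ c, 0 < c → c ≤ 1 → ∃ t : ℝ, 0 ≤ t ∧ ∀ θ, S γ Y c θ = t / sp γ θ := by
    intro c h0 h1
    rcases eq_or_lt_of_le h1 with hc1 | hc1
    · rw [hc1]; exact ⟨τ, hτ.le, hS⟩
    · have hd : ∀ θ, HasDerivAt (fun θ => sp γ θ * S γ Y c θ) 0 θ := by
        intro θ
        have e := h.S_deriv_right h0 h1 θ
        refine ((h.supp.dp θ).mul e).congr_deriv ?_
        change sq γ θ * S γ Y c θ + sp γ θ * Sit.Su γ ρ Y c θ = 0
        have := hb c ⟨h0, hc1⟩ θ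
        linarith
      have hconst : ∀ x y, sp γ x * S γ Y c x = sp γ y * S γ Y c y := by
        intro x y
        exact is_const_of_deriv_eq_zero (f := fun θ => sp γ θ * S γ Y c θ)
          (fun θ => (hd θ).differentiableAt) (fun θ => (hd θ).deriv) x y
      refine ⟨sp γ 0 * S γ Y c 0, (mul_pos (h.supp.ppos 0) (h.S_spec h0 h1 0).1).le,
        fun θ => ?_⟩
      rw [eq_div_iff (h.supp.ppos θ).ne', mul_comm]
      exact hconst θ 0
  refine ⟨C / (A * C - B ^ 2 / 4), -B / (2 * (A * C - B ^ 2 / 4)), A / (A * C - B ^ 2 / 4),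
    by positivity, ?_, ?_, ?_⟩
  · rw [div_pow, div_mul_div_comm, div_lt_div_iff₀ (by positivity) (by positivity)]
    have h5 : 0 < (A * C - B ^ 2 / 4) ^ 3 := by positivity
    nlinarith
  · intro z
    have h5 := h.conic_iff hp2 le_rfl z
    unfold Sit.Nq at h5
    simp only [zero_div, ne_eq, OfNat.ofNat_ne_zero, not_false_eq_true, zero_pow, add_zero,
      P_zero] at h5
    rw [h5]
    constructor
    · rintro ⟨θ, rfl⟩; exact ⟨θ, rfl⟩
    · rintro ⟨θ, rfl⟩; exact ⟨θ, rfl⟩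
  · intro c h0 h1
    rcases eq_or_lt_of_le h0 with hc0 | hc0
    · refine ⟨1, le_rfl, fun z => ?_⟩
      rw [← hc0, h.collar.leaf_zero]
      have h5 := h.conic_iff hp2 le_rfl z
      unfold Sit.Nq at h5
      simp only [zero_div, ne_eq, OfNat.ofNat_ne_zero, not_false_eq_true, zero_pow, add_zero,
        P_zero] at h5
      rw [h5]
      constructor
      · rintro ⟨θ, rfl⟩; exact ⟨θ, rfl⟩
      · rintro ⟨θ, rfl⟩; exact ⟨θ, rfl⟩
    · obtain ⟨t, ht, hSt⟩ := hleaf c hc0 h1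
      refine ⟨1 + t ^ 2 / (A * C - B ^ 2 / 4), by
        have : 0 ≤ t ^ 2 / (A * C - B ^ 2 / 4) := by positivity
        linarith, fun z => ?_⟩
      rw [h.leaf_iff hc0 h1]
      have h5 := h.conic_iff hp2 ht z
      unfold Sit.Nq at h5
      rw [h5]
      simp only [hSt]

end Pool.Agent.H97.OB
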