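import Pool.Agent.H97.OB.Polar

/-!
# The integral inequality up to the outer leaf and its equality case
-/

set_option autoImplicit false

open Set Filter Topology Complex MeasureTheory
open scoped ContDiff Real

namespace Pool.Agent.H97.OB

variable {γ : ℝ → ℂ} {ρ : ℝ → ℝ} {Y : ℂ → ℝ}

namespace Sit

lemma tang_periodic (θ : ℝ) : tang (θ + 2 * π) = tang θ := by
  unfold tang; rw [exp_periodic']

lemma S_periodic (h : Sit γ ρ Y) (c θ : ℝ) : S γ Y c (θ + 2 * π) = S γ Y c θ := by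
  unfold S P
  simp only [tang_periodic, h.oval.per]

lemma slice_continuous {f : ℝ × ℝ → ℝ} (hf : ContinuousOn f (Ioc 0 1 ×ˢ univ)) {c : ℝ}
    (h0 : 0 < c) (h1 : c ≤ 1) : Continuous fun θ => f (c, θ) := by
  rw [← continuousOn_univ]
  refine hf.comp (by fun_prop) ?_
  intro θ _
  exact ⟨⟨h0, h1⟩, mem_univ _⟩

lemma S_cont (h : Sit γ ρ Y) {c : ℝ} (h0 : 0 < c) (h1 : c ≤ 1) :
    Continuous (S γ Y c) := slice_continuous h.S_continuousOn h0 h1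

lemma Sv_cont (h : Sit γ ρ Y) {c : ℝ} (h0 : 0 < c) (h1 : c ≤ 1) :
    Continuous (Sv γ Y c) := slice_continuous h.Sc_continuousOn h0 h1

lemma Su_cont (h : Sit γ ρ Y) {c : ℝ} (h0 : 0 < c) (h1 : c ≤ 1) :
    Continuous (Su γ ρ Y c) := by
  have hS := h.S_cont h0 h1
  have hf : Continuous fun θ => fderiv ℝ Y (Z γ Y c θ) := by
    rw [← continuousOn_univ]
    exact h.fderiv_Z_continuousOn.comp (f := fun θ : ℝ => ((c, θ) : ℝ × ℝ)) (by fun_prop)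
      fun θ _ => ⟨⟨h0, h1⟩, mem_univ _⟩
  have hρ := h.oval.cont
  have ht := tang_continuous
  unfold Su
  refine Continuous.neg (Continuous.div ?_ ?_ ?_)
  · exact hf.clm_apply (by fun_prop)
  · exact hf.clm_apply ht
  · intro θ; exact (h.beta_pos h0 h1 θ).ne'

lemma Sv_pos (h : Sit γ ρ Y) {c : ℝ} (h0 : 0 < c) (h1 : c ≤ 1) (θ : ℝ) : 0 < Sv γ Y c θ :=
  one_div_pos.2 (h.beta_pos h0 h1 θ)

lemma abs_b_lt (h : Sit γ ρ Y) (hr : ∀ θ, SigmaReflection γ Y θ) {c : ℝ} (h0 : 0 < c)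
    (h1 : c ≤ 1) (θ : ℝ) : |sp γ θ * Su γ ρ Y c θ + sq γ θ * S γ Y c θ| <
      sp γ θ * ρ θ + S γ Y c θ ^ 2 := by
  obtain ⟨-, -, e1, e2⟩ := h.ab_pos hr h0 h1 θ
  rw [abs_lt]
  constructor <;> linarith

lemma NN_nonneg {p r s b : ℝ} (hp : 0 < p) (hr : 0 < r) (hs : 0 < s)
    (hb : |b| < p * r + s ^ 2) : 0 ≤ NN p r s b ∧ (NN p r s b = 0 → b = 0) := by
  have h1 : 0 < p * r + s ^ 2 := by positivity
  have h2 : 0 < (p * r + s ^ 2) ^ 2 - b ^ 2 := by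
    have : b ^ 2 < (p * r + s ^ 2) ^ 2 := sq_lt_sq' (by linarith [(abs_lt.1 hb).1]) (abs_lt.1 hb).2
    linarith
  unfold NN
  refine ⟨by positivity, fun h => ?_⟩
  rcases div_eq_zero_iff.1 h with h3 | h3
  · have h4 : b ^ 2 = 0 := (mul_eq_zero.1 h3).resolve_left (by positivity)
    exact pow_eq_zero_iff (two_ne_zero) |>.1 h4
  · exact absurd h3 (by positivity)

/-- The integrated identity on the leaf `c`. -/
lemma hopf_leaf (h : Sit γ ρ Y) (hr : ∀ θ, SigmaReflection γ Y θ) (hH : S_hopf) {c : ℝ}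
    (h0 : 0 < c) (h1 : c < 1) :
    ∫ θ in (0 : ℝ)..(2 * π), QQ (sp γ θ) (sq γ θ) (ρ θ) (S γ Y c θ) *
        (S γ Y c θ * Sv γ Y c θ) =
      ∫ θ in (0 : ℝ)..(2 * π), NN (sp γ θ) (ρ θ) (S γ Y c θ)
        (sp γ θ * Su γ ρ Y c θ + sq γ θ * S γ Y c θ) * (S γ Y c θ * Sv γ Y c θ) := by
  refine hH (sp γ) (sq γ) ρ (S γ Y c) (Su γ ρ Y c) (Sv γ Y c) (gg Y c) h.supp
    (h.Su_cont h0 h1.le) (h.Sv_cont h0 h1.le) (h.gg_continuous h0 h1.le)
    (fun θ => h.S_deriv_right h0 h1.le θ) (fun θ => (h.S_spec h0 h1.le θ).1)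
    (fun θ => h.S_periodic c θ) (fun θ => gg_periodic c θ)
    (fun θ => h.abs_b_lt hr h0 h1.le θ) ?_ ?_
  · intro θ
    have hYZ := h.Y_Z h0 h1.le θ
    have e1 := h.gg_at h0 h1.le (θ := θ) (s := S γ Y c θ) hYZ
    rw [e1]
    obtain ⟨k1, -, k3, -⟩ := h.ab_pos hr h0 h1.le θ
    obtain ⟨f1, f2⟩ := fderiv_frame γ Y θ (S γ Y c θ)
    have r1 := h.radial_pos (z := Z γ Y c θ) (by rw [hYZ]; exact h0) (by rw [hYZ]; exact h1.le)
    have hb := h.beta_pos h0 h1.le θ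
    have hs := (h.S_spec h0 h1.le θ).1
    have u1 := Su_eq γ ρ Y c θ
    have hv : Sv γ Y c θ = 1 / fderiv ℝ Y (Z γ Y c θ) (tang θ) := rfl
    change fderiv ℝ Y (Z γ Y c θ) (Z γ Y c θ) = sp γ θ * fderiv ℝ Y (Z γ Y c θ) (exp (θ * I)) +
      (sq γ θ + S γ Y c θ) * fderiv ℝ Y (Z γ Y c θ) (tang θ) at f1
    change fderiv ℝ Y (Z γ Y c θ) (I * Z γ Y c θ) = sp γ θ * fderiv ℝ Y (Z γ Y c θ) (tang θ) -
      (sq γ θ + S γ Y c θ) * fderiv ℝ Y (Z γ Y c θ) (exp (θ * I)) at f2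
    change _ = -(fderiv ℝ Y (Z γ Y c θ) (I * Z γ Y c θ)) /
      (fderiv ℝ Y (Z γ Y c θ) (Z γ Y c θ)) ^ 2 * _
    have hn : 0 < sp γ θ ^ 2 + (sq γ θ + S γ Y c θ) ^ 2 := by
      have := h.supp.ppos θ
      positivity
    have hnum : -(sp γ θ * S γ Y c θ) + (sq γ θ + S γ Y c θ) * (ρ θ + Su γ ρ Y c θ) =
        -(S γ Y c θ * fderiv ℝ Y (Z γ Y c θ) (I * Z γ Y c θ)) /
          fderiv ℝ Y (Z γ Y c θ) (tang θ) := by
      rw [f2, u1]
      have := hb.ne'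
      field_simp
      ring
    rw [k1, hnum, hv]
    have a1 := hb.ne'
    have a2 := r1.ne'
    have a3 := hs.ne'
    have a4 := hn.ne'
    field_simp
  · intro θ
    have hYZ := h.Y_neg hr h0 h1.le θ
    have e1 := h.gg_at h0 h1.le (θ := θ) (s := -S γ Y c θ) hYZ
    have e0 : sq γ θ - S γ Y c θ = sq γ θ + -S γ Y c θ := by ring
    rw [e0, e1]
    obtain ⟨-, k1, -, k3⟩ := h.ab_pos hr h0 h1.le θ
    obtain ⟨f1, f2⟩ := fderiv_frame γ Y θ (-S γ Y c θ)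
    have r1 := h.radial_pos (z := P γ θ (-S γ Y c θ)) (by rw [hYZ]; exact h0)
      (by rw [hYZ]; exact h1.le)
    have hb := h.beta_neg hr h0 h1.le θ
    have hs := (h.S_spec h0 h1.le θ).1
    have u1 := h.Su_eq' hr h0 h1.le θ
    have hv := h.Sv_eq' hr h0 h1.le h1 θ
    have hn : 0 < sp γ θ ^ 2 + (sq γ θ + -S γ Y c θ) ^ 2 := by
      have := h.supp.ppos θ
      positivity
    have hnum : sp γ θ * S γ Y c θ + (sq γ θ + -S γ Y c θ) * (ρ θ - Su γ ρ Y c θ) =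
        S γ Y c θ * fderiv ℝ Y (P γ θ (-S γ Y c θ)) (I * P γ θ (-S γ Y c θ)) /
          fderiv ℝ Y (P γ θ (-S γ Y c θ)) (tang θ) := by
      rw [f2, u1]
      have := hb.ne
      field_simp
      ring
    rw [k1, hnum, hv]
    have a1 := hb.ne
    have a2 := r1.ne'
    have a3 := hs.ne'
    have a4 := hn.ne'
    field_simp

/-- The inequality on the outer leaf, and its equality case. -/
theorem main_ineq (h : Sit γ ρ Y) (hr : ∀ θ, SigmaReflection γ Y θ) (hH : S_hopf)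
    (hM : S_mono) :
    0 ≤ (∫ θ in (0 : ℝ)..(2 * π), Psi (sp γ θ) (sq γ θ) (ρ θ) (S γ Y 1 θ)) ∧
    ((∫ θ in (0 : ℝ)..(2 * π), Psi (sp γ θ) (sq γ θ) (ρ θ) (S γ Y 1 θ)) ≤ 0 →
      ∀ c ∈ Ioo (0 : ℝ) 1, ∀ θ,
        sp γ θ * Su γ ρ Y c θ + sq γ θ * S γ Y c θ = 0) := by
  have hnn : ∀ c ∈ Ioo (0 : ℝ) 1, ∀ θ, 0 ≤ NN (sp γ θ) (ρ θ) (S γ Y c θ)
        (sp γ θ * Su γ ρ Y c θ + sq γ θ * S γ Y c θ) * (S γ Y c θ * Sv γ Y c θ) := by
    intro c hc θ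
    have hs := (h.S_spec hc.1 hc.2.le θ).1
    exact mul_nonneg (NN_nonneg (h.supp.ppos θ) (h.oval.pos θ) hs
      (h.abs_b_lt hr hc.1 hc.2.le θ)).1 (mul_nonneg hs.le (h.Sv_pos hc.1 hc.2.le θ).le)
  have key := hM (sp γ) (sq γ) ρ (sg γ Y) (Sv γ Y) h.supp h.sg_continuousOn
    (h.Sc_continuousOn.mono (prod_mono Ioo_subset_Ioc_self Subset.rfl))
    (fun c hc θ => by
      have h2 := h.S_deriv_left hc.1 hc.2 θ
      refine h2.congr_of_eventuallyEq ?_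
      filter_upwards [lt_mem_nhds hc.1] with t ht
      exact sg_pos' ht θ)
    (fun θ => by unfold sg; simp)
    (fun c hc θ => by rw [sg_pos' hc.1]; exact (h.S_spec hc.1 hc.2 θ).1)
    (fun c hc => by
      have e : (fun θ => QQ (sp γ θ) (sq γ θ) (ρ θ) (sg γ Y c θ) * (sg γ Y c θ * Sv γ Y c θ)) =
          fun θ => QQ (sp γ θ) (sq γ θ) (ρ θ) (S γ Y c θ) * (S γ Y c θ * Sv γ Y c θ) := by
        funext θ; rw [sg_pos' hc.1]
      rw [e, h.hopf_leaf hr hH hc.1 hc.2]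
      exact intervalIntegral.integral_nonneg (by positivity) fun θ _ => hnn c hc θ)
  have e1 : ∀ θ, sg γ Y 1 θ = S γ Y 1 θ := fun θ => sg_pos' one_pos θ
  simp only [e1] at key
  refine ⟨key.1, fun hle c hc θ₀ => ?_⟩
  have h2 := key.2 hle c hc
  have e : (fun θ => QQ (sp γ θ) (sq γ θ) (ρ θ) (sg γ Y c θ) * (sg γ Y c θ * Sv γ Y c θ)) =
      fun θ => QQ (sp γ θ) (sq γ θ) (ρ θ) (S γ Y c θ) * (S γ Y c θ * Sv γ Y c θ) := by
    funext θ; rw [sg_pos' hc.1]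
  rw [e, h.hopf_leaf hr hH hc.1 hc.2] at h2
  -- continuity of the integrand
  have cp : Continuous (sp γ) := continuous_iff_continuousAt.2 fun θ => (h.supp.dp θ).continuousAt
  have cq : Continuous (sq γ) := continuous_iff_continuousAt.2 fun θ => (h.supp.dq θ).continuousAt
  have cS := h.S_cont hc.1 hc.2.le
  have cu := h.Su_cont hc.1 hc.2.le
  have cv := h.Sv_cont hc.1 hc.2.le
  have cρ := h.oval.cont
  have hF : Continuous fun θ => NN (sp γ θ) (ρ θ) (S γ Y c θ)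
        (sp γ θ * Su γ ρ Y c θ + sq γ θ * S γ Y c θ) * (S γ Y c θ * Sv γ Y c θ) := by
    unfold NN
    refine Continuous.mul (Continuous.div (by fun_prop) (by fun_prop) ?_) (by fun_prop)
    intro θ
    have hs := (h.S_spec hc.1 hc.2.le θ).1
    have hp := h.supp.ppos θ
    have hρ := h.oval.pos θ
    have hb := h.abs_b_lt hr hc.1 hc.2.le θ
    have h3 : 0 < (sp γ θ * ρ θ + S γ Y c θ ^ 2) ^ 2 -
        (sp γ θ * Su γ ρ Y c θ + sq γ θ * S γ Y c θ) ^ 2 := by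
      have : (sp γ θ * Su γ ρ Y c θ + sq γ θ * S γ Y c θ) ^ 2 <
          (sp γ θ * ρ θ + S γ Y c θ ^ 2) ^ 2 :=
        sq_lt_sq' (by linarith [(abs_lt.1 hb).1]) (abs_lt.1 hb).2
      linarith
    positivity
  -- a point of `[0, 2π)` congruent to `θ₀`: use periodicity of the set of zeros
  have hper : Function.Periodic (fun θ => NN (sp γ θ) (ρ θ) (S γ Y c θ)
        (sp γ θ * Su γ ρ Y c θ + sq γ θ * S γ Y c θ) * (S γ Y c θ * Sv γ Y c θ)) (2 * π) := by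
    intro θ
    have h2π : θ + 2 * π = θ + π + π := by ring
    have ep : sp γ (θ + 2 * π) = sp γ θ := by rw [h2π, h.supp.pp, h.supp.pp]
    have eq' : sq γ (θ + 2 * π) = sq γ θ := by rw [h2π, h.supp.qp, h.supp.qp]
    have er : ρ (θ + 2 * π) = ρ θ := by rw [h2π, h.supp.rp, h.supp.rp]
    have es := h.S_periodic c θ
    have eZ : Z γ Y c (θ + 2 * π) = Z γ Y c θ := by
      unfold Z P; rw [es, tang_periodic, h.oval.per]
    have ev : Sv γ Y c (θ + 2 * π) = Sv γ Y c θ := by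
      unfold Sv; rw [eZ, tang_periodic]
    have eu : Su γ ρ Y c (θ + 2 * π) = Su γ ρ Y c θ := by
      unfold Su; rw [eZ, tang_periodic, er, es, exp_periodic']
    simp only [ep, eq', er, es, ev, eu]
  have hzero : ∀ θ, NN (sp γ θ) (ρ θ) (S γ Y c θ)
        (sp γ θ * Su γ ρ Y c θ + sq γ θ * S γ Y c θ) * (S γ Y c θ * Sv γ Y c θ) = 0 := by
    intro θ
    by_contra hne
    have hpos : 0 < NN (sp γ θ) (ρ θ) (S γ Y c θ)
        (sp γ θ * Su γ ρ Y c θ + sq γ θ * S γ Y c θ) * (S γ Y c θ * Sv γ Y c θ) :=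
      lt_of_le_of_ne (hnn c hc θ) (Ne.symm hne)
    have h5 := hper.intervalIntegral_add_eq (θ - π) 0
    rw [zero_add, h2] at h5
    have h6 := intervalIntegral.integral_pos (a := θ - π) (b := θ - π + 2 * π)
      (by linarith [Real.pi_pos]) hF.continuousOn (fun x _ => hnn c hc x)
      ⟨θ, ⟨by linarith [Real.pi_pos], by linarith [Real.pi_pos]⟩, hpos⟩
    rw [h5] at h6
    exact lt_irrefl _ h6
  have h7 := hzero θ₀
  have hs := (h.S_spec hc.1 hc.2.le θ₀).1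
  have hv := h.Sv_pos hc.1 hc.2.le θ₀
  have h8 := (mul_eq_zero.1 h7).resolve_right (by positivity)
  exact (NN_nonneg (h.supp.ppos θ₀) (h.oval.pos θ₀) hs (h.abs_b_lt hr hc.1 hc.2.le θ₀)).2 h8

end Sit

end Pool.Agent.H97.OB
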