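import Pool.Agent.H97.OB.Stubs

set_option autoImplicit false

open Set Filter Topology
open scoped Real

namespace Pool.Agent.H97.OB

/-- Equality of two points in tangent coordinates, as two real equations. -/
theorem pt_eq_iff (p q : ℝ → ℝ) (θ s φ t : ℝ) :
    pt p q θ s = pt p q φ t ↔
      (p θ * Real.cos (φ - θ) + (q θ + s) * Real.sin (φ - θ) = p φ ∧
        -(p θ * Real.sin (φ - θ)) + (q θ + s) * Real.cos (φ - θ) = q φ + t) := by
  unfold pt
  have h1 : Complex.exp (θ * Complex.I) =
      Complex.exp ((θ - φ : ℝ) * Complex.I) * Complex.exp (φ * Complex.I) := by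
    rw [← Complex.exp_add]
    congr 1
    push_cast
    ring
  have h2 : Complex.exp (φ * Complex.I) ≠ 0 := Complex.exp_ne_zero _
  rw [h1, ← mul_assoc, mul_left_inj' h2, Complex.exp_mul_I, Complex.ext_iff]
  have hc : Real.cos (θ - φ) = Real.cos (φ - θ) := by
    rw [← Real.cos_neg, neg_sub]
  have hs : Real.sin (θ - φ) = -Real.sin (φ - θ) := by
    rw [← Real.sin_neg, neg_sub]
  have hcc : Complex.cos ((θ - φ : ℝ) : ℂ) = ((Real.cos (φ - θ) : ℝ) : ℂ) := by
    rw [← Complex.ofReal_cos, hc]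
  have hss : Complex.sin ((θ - φ : ℝ) : ℂ) = ((-Real.sin (φ - θ) : ℝ) : ℂ) := by
    rw [← Complex.ofReal_sin, hs]
  rw [hcc, hss]
  simp only [Complex.mul_re, Complex.add_re, Complex.ofReal_re, Complex.I_re, Complex.I_im,
    Complex.ofReal_im, Complex.add_im, Complex.mul_im]
  constructor
  · rintro ⟨ha, hb⟩
    constructor <;> linarith
  · rintro ⟨ha, hb⟩
    constructor <;> linarith

section

variable {p q ρ : ℝ → ℝ}

/-- `w_s(φ) = w_0(φ) + s sin (φ - θ)`. -/
noncomputable def ww (p q : ℝ → ℝ) (θ s φ : ℝ) : ℝ :=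
  p θ * Real.cos (φ - θ) + (q θ + s) * Real.sin (φ - θ) - p φ

noncomputable def vv (p q : ℝ → ℝ) (θ s φ : ℝ) : ℝ :=
  -(p θ * Real.sin (φ - θ)) + (q θ + s) * Real.cos (φ - θ) - q φ

theorem hasDerivAt_ww (h : Supp p q ρ) (θ s φ : ℝ) :
    HasDerivAt (ww p q θ s) (vv p q θ s φ) φ := by
  have hid : HasDerivAt (fun x : ℝ => x - θ) 1 φ := (hasDerivAt_id φ).sub_const θ
  have hc := hid.cos.const_mul (p θ)
  have hs := hid.sin.const_mul (q θ + s)
  have := (hc.add hs).sub (h.dp φ)
  refine this.congr_deriv ?_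
  simp only [vv]
  ring

theorem hasDerivAt_vv (h : Supp p q ρ) (θ s φ : ℝ) :
    HasDerivAt (vv p q θ s) (-(ww p q θ s φ) - ρ φ) φ := by
  have hid : HasDerivAt (fun x : ℝ => x - θ) 1 φ := (hasDerivAt_id φ).sub_const θ
  have hs := (hid.sin.const_mul (p θ)).neg
  have hc := hid.cos.const_mul (q θ + s)
  have := (hs.add hc).sub (h.dq φ)
  refine this.congr_deriv ?_
  simp only [ww]
  ring

theorem uu_neg (h : Supp p q ρ) (θ s φ : ℝ) (h1 : θ < φ) (h2 : φ < θ + π) :
    vv p q θ s φ * Real.sin (φ - θ) - ww p q θ s φ * Real.cos (φ - θ) < 0 := by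
  have hd : ∀ x, HasDerivAt
      (fun x => vv p q θ s x * Real.sin (x - θ) - ww p q θ s x * Real.cos (x - θ))
      (-(ρ x * Real.sin (x - θ))) x := by
    intro x
    have hid : HasDerivAt (fun x : ℝ => x - θ) 1 x := (hasDerivAt_id x).sub_const θ
    have := ((hasDerivAt_vv h θ s x).mul hid.sin).sub ((hasDerivAt_ww h θ s x).mul hid.cos)
    refine this.congr_deriv ?_
    ring
  have hanti : StrictAntiOn
      (fun x => vv p q θ s x * Real.sin (x - θ) - ww p q θ s x * Real.cos (x - θ))
      (Icc θ (θ + π)) := by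
    refine strictAntiOn_of_deriv_neg (convex_Icc _ _)
      (fun x _ => (hd x).continuousAt.continuousWithinAt) ?_
    intro x hx
    rw [interior_Icc] at hx
    rw [(hd x).deriv]
    have : 0 < Real.sin (x - θ) := Real.sin_pos_of_pos_of_lt_pi (by linarith [hx.1]) (by linarith [hx.2])
    have := mul_pos (h.rpos x) this
    linarith
  have := hanti (left_mem_Icc.2 (by linarith [Real.pi_pos])) ⟨h1.le, h2.le⟩ h1
  simpa [ww] using this

theorem ratio_strictAnti (h : Supp p q ρ) (θ s : ℝ) :
    StrictAntiOn (fun x => ww p q θ s x / Real.sin (x - θ)) (Ioo θ (θ + π)) := by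
  have hsin : ∀ x ∈ Ioo θ (θ + π), 0 < Real.sin (x - θ) := fun x hx =>
    Real.sin_pos_of_pos_of_lt_pi (by linarith [hx.1]) (by linarith [hx.2])
  have hd : ∀ x ∈ Ioo θ (θ + π), HasDerivAt (fun x => ww p q θ s x / Real.sin (x - θ))
      ((vv p q θ s x * Real.sin (x - θ) - ww p q θ s x * Real.cos (x - θ)) /
        Real.sin (x - θ) ^ 2) x := by
    intro x hx
    have hid : HasDerivAt (fun x : ℝ => x - θ) 1 x := (hasDerivAt_id x).sub_const θ
    have := (hasDerivAt_ww h θ s x).div hid.sin (hsin x hx).ne'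
    refine this.congr_deriv ?_
    ring
  refine strictAntiOn_of_deriv_neg (convex_Ioo _ _)
      (fun x hx => (hd x hx).continuousAt.continuousWithinAt) ?_
  intro x hx
  rw [interior_Ioo] at hx
  rw [(hd x hx).deriv]
  exact div_neg_of_neg_of_pos (uu_neg h θ s x hx.1 hx.2) (pow_pos (hsin x hx) 2)

theorem ww_zero_iff (θ s φ t : ℝ) (he : pt p q θ s = pt p q φ t) :
    ww p q θ s φ = 0 ∧ t = vv p q θ s φ := by
  rw [pt_eq_iff] at he
  unfold ww vv
  constructor <;> linarith [he.1, he.2]

theorem ww_split (θ s s' φ : ℝ) :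
    ww p q θ s' φ = ww p q θ s φ + (s' - s) * Real.sin (φ - θ) := by
  unfold ww
  ring

theorem ww_zero_neg (h : Supp p q ρ) (θ φ : ℝ) (h1 : |φ - θ| < π) (h2 : φ ≠ θ) :
    ww p q θ 0 φ < 0 := by
  have hd : ∀ x, HasDerivAt (fun x => p x * Real.cos (φ - x) + q x * Real.sin (φ - x))
      (ρ x * Real.sin (φ - x)) x := by
    intro x
    have hid : HasDerivAt (fun x : ℝ => φ - x) (-1) x := (hasDerivAt_id x).const_sub φ
    have := ((h.dp x).mul hid.cos).add ((h.dq x).mul hid.sin)
    refine this.congr_deriv ?_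
    ring
  rw [abs_lt] at h1
  rcases lt_or_gt_of_ne h2 with hlt | hgt
  · have hm : StrictAntiOn (fun x => p x * Real.cos (φ - x) + q x * Real.sin (φ - x))
        (Icc φ θ) := by
      refine strictAntiOn_of_deriv_neg (convex_Icc _ _)
        (fun x _ => (hd x).continuousAt.continuousWithinAt) ?_
      intro x hx
      rw [interior_Icc] at hx
      rw [(hd x).deriv]
      have : Real.sin (φ - x) < 0 := Real.sin_neg_of_neg_of_neg_pi_lt (by linarith [hx.1])
        (by linarith [hx.2])
      exact mul_neg_of_pos_of_neg (h.rpos x) this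
    have := hm (left_mem_Icc.2 hlt.le) (right_mem_Icc.2 hlt.le) hlt
    simp only [sub_self, Real.cos_zero, Real.sin_zero] at this
    unfold ww
    linarith
  · have hm : StrictMonoOn (fun x => p x * Real.cos (φ - x) + q x * Real.sin (φ - x))
        (Icc θ φ) := by
      refine strictMonoOn_of_deriv_pos (convex_Icc _ _)
        (fun x _ => (hd x).continuousAt.continuousWithinAt) ?_
      intro x hx
      rw [interior_Icc] at hx
      rw [(hd x).deriv]
      have : 0 < Real.sin (φ - x) := Real.sin_pos_of_pos_of_lt_pi (by linarith [hx.2])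
        (by linarith [hx.1])
      exact mul_pos (h.rpos x) this
    have := hm (left_mem_Icc.2 hgt.le) (right_mem_Icc.2 hgt.le) hgt
    simp only [sub_self, Real.cos_zero, Real.sin_zero] at this
    unfold ww
    linarith

end

theorem second : S_second := by
  intro p q ρ h
  refine ⟨?_, ?_, ?_, ?_⟩
  · intro θ s hs
    -- a point near `θ` where `ww` is positive
    have hd := hasDerivAt_ww h θ s θ
    have h0 : ww p q θ s θ = 0 := by simp [ww]
    have hv : vv p q θ s θ = s := by simp [vv]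
    rw [hv] at hd
    have hsl := hasDerivAt_iff_tendsto_slope.1 hd
    have hev : ∀ᶠ x in 𝓝[>] θ, 0 < slope (ww p q θ s) θ x :=
      (hsl.mono_left (nhdsWithin_mono _ fun x hx => (ne_of_gt hx))).eventually (lt_mem_nhds hs)
    have hev2 : ∀ᶠ x in 𝓝[>] θ, x ∈ Ioo θ (θ + π) :=
      Ioo_mem_nhdsGT (by linarith [Real.pi_pos])
    obtain ⟨x, hx1, hx2⟩ := (hev.and hev2).exists
    have hxpos : 0 < ww p q θ s x := by
      rw [slope_def_field, h0, sub_zero] at hx1
      have := mul_pos hx1 (sub_pos.2 hx2.1)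
      rwa [div_mul_cancel₀ _ (sub_pos.2 hx2.1).ne'] at this
    have hneg : ww p q θ s (θ + π) < 0 := by
      have : ww p q θ s (θ + π) = -2 * p θ := by
        unfold ww
        rw [h.pp, show θ + π - θ = π by ring, Real.cos_pi, Real.sin_pi]
        ring
      rw [this]
      linarith [h.ppos θ]
    have hcont : ContinuousOn (ww p q θ s) (Icc x (θ + π)) := fun y _ =>
      (hasDerivAt_ww h θ s y).continuousAt.continuousWithinAt
    obtain ⟨φ, hφ, hφ0⟩ := intermediate_value_Icc' hx2.2.le hcont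
      (show (0 : ℝ) ∈ Icc _ _ from ⟨hneg.le, hxpos.le⟩)
    have hφ1 : θ < φ := lt_of_lt_of_le hx2.1 hφ.1
    have hφ2 : φ < θ + π := by
      rcases lt_or_eq_of_le hφ.2 with hh | hh
      · exact hh
      · rw [hh] at hφ0
        linarith
    have hu := uu_neg h θ s φ hφ1 hφ2
    rw [hφ0] at hu
    have hsin : 0 < Real.sin (φ - θ) :=
      Real.sin_pos_of_pos_of_lt_pi (by linarith) (by linarith)
    have hvneg : vv p q θ s φ < 0 := by
      by_contra hcon
      push Not at hcon
      have := mul_nonneg hcon hsin.le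
      linarith
    refine ⟨φ, -(vv p q θ s φ), hφ1, hφ2, by linarith, ?_⟩
    rw [pt_eq_iff]
    unfold ww at hφ0
    unfold vv
    constructor <;> linarith
  · intro θ s φ t φ' t' hs h1 h2 h3 h4 he he'
    obtain ⟨ha, hb⟩ := ww_zero_iff θ s φ t he
    obtain ⟨ha', hb'⟩ := ww_zero_iff θ s φ' t' he'
    have hφ : φ = φ' := by
      apply (ratio_strictAnti h θ s).injOn ⟨h1, h2⟩ ⟨h3, h4⟩
      simp [ha, ha']
    refine ⟨hφ, ?_⟩
    rw [hb, hb', hφ]
  · intro θ s s' φ t φ' t' hs hss h1 h2 h3 h4 he he'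
    obtain ⟨ha, _⟩ := ww_zero_iff θ s φ t he
    obtain ⟨ha', _⟩ := ww_zero_iff θ s' φ' t' he'
    have hsin : 0 < Real.sin (φ' - θ) :=
      Real.sin_pos_of_pos_of_lt_pi (by linarith) (by linarith)
    rw [ww_split θ s s' φ'] at ha'
    by_contra hcon
    push Not at hcon
    have hle := (ratio_strictAnti h θ s).antitoneOn ⟨h3, h4⟩ ⟨h1, h2⟩ hcon
    simp only [ha, zero_div] at hle
    have hpos : 0 ≤ ww p q θ s φ' := by
      have := mul_nonneg hle hsin.le
      rwa [div_mul_cancel₀ _ hsin.ne'] at this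
    have := mul_pos (sub_pos.2 hss) hsin
    linarith
  · intro θ s φ t he h1 h2 hs0
    subst hs0
    obtain ⟨ha, _⟩ := ww_zero_iff θ 0 φ t he
    rcases lt_trichotomy φ (θ + π) with hlt | heq | hgt
    · have := ww_zero_neg h θ φ (by rw [abs_lt]; constructor <;> linarith [Real.pi_pos]) h1.ne'
      linarith
    · subst heq
      have : ww p q θ 0 (θ + π) = -2 * p θ := by
        unfold ww
        rw [h.pp, show θ + π - θ = π by ring, Real.cos_pi, Real.sin_pi]
        ring
      linarith [h.ppos θ]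
    · have hper : ww p q θ 0 (φ - 2 * π) = ww p q θ 0 φ := by
        unfold ww
        have hp2 : p (φ - 2 * π) = p φ := by
          have e1 := h.pp (φ - 2 * π)
          have e2 := h.pp (φ - 2 * π + π)
          rw [show φ - 2 * π + π + π = φ by ring] at e2
          rw [← e1, ← e2]
        rw [hp2, show φ - 2 * π - θ = (φ - θ) - 2 * π by ring, Real.cos_sub_two_pi,
          Real.sin_sub_two_pi]
      have := ww_zero_neg h θ (φ - 2 * π) (by rw [abs_lt]; constructor <;> linarith [Real.pi_pos])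
        (by linarith)
      linarith

end Pool.Agent.H97.OB
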