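import Pool.Agent.H97.OB.Flow
import Pool.Agent.H97.OB.Hopf
import Pool.Agent.H97.OB.Second

/-!
# The next tangent line; the 4-periodic outer leaf
-/

set_option autoImplicit false

open Set Filter Topology Complex MeasureTheory
open scoped ContDiff Real

namespace Pool.Agent.H97.OB

variable {γ : ℝ → ℂ} {ρ : ℝ → ℝ} {Y : ℂ → ℝ}

/-- polar angle of the forward point -/
noncomputable def a2 (γ : ℝ → ℂ) (Y : ℂ → ℝ) (c θ : ℝ) : ℝ :=
  θ + Real.arctan ((sq γ θ + S γ Y c θ) / sp γ θ)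

/-- polar angle of the backward point -/
noncomputable def a1 (γ : ℝ → ℂ) (Y : ℂ → ℝ) (c θ : ℝ) : ℝ :=
  θ + Real.arctan ((sq γ θ + -S γ Y c θ) / sp γ θ)

/-- the next tangent line -/
noncomputable def F (γ : ℝ → ℂ) (Y : ℂ → ℝ) (c θ : ℝ) : ℝ :=
  Classical.epsilon (fun φ => θ < φ ∧ φ < θ + π ∧ P γ θ (S γ Y c θ) = P γ φ (-S γ Y c φ))

namespace Sit

lemma shift_int {g : ℝ → ℝ} (hg : ∀ x, g (x + 2 * π) = g x + 2 * π) (x : ℝ) (k : ℤ) :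
    g (x + k * (2 * π)) = g x + k * (2 * π) := by
  have hper : Function.Periodic (fun x => g x - x) (2 * π) := by
    intro x; simp only [hg]; ring
  have := hper.int_mul k x
  linarith

lemma sp_per (h : Sit γ ρ Y) (θ : ℝ) : sp γ (θ + 2 * π) = sp γ θ := by
  rw [show θ + 2 * π = θ + π + π by ring, h.supp.pp, h.supp.pp]

lemma sq_per (h : Sit γ ρ Y) (θ : ℝ) : sq γ (θ + 2 * π) = sq γ θ := by
  rw [show θ + 2 * π = θ + π + π by ring, h.supp.qp, h.supp.qp]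

lemma P_per (h : Sit γ ρ Y) (θ s : ℝ) : P γ (θ + 2 * π) s = P γ θ s := by
  unfold P; rw [tang_periodic, h.oval.per]

lemma P_pi (h : Sit γ ρ Y) (θ s : ℝ) : P γ (θ + π) s = -P γ θ s := by
  have h5 : tang (θ + π) = -tang θ := by
    unfold tang
    have : (((θ + π : ℝ) : ℂ) * I) = θ * I + π * I := by push_cast; ring
    rw [this, exp_add, exp_pi_mul_I]; ring
  unfold P; rw [h.sym, h5]; ring

section refl

variable (h : Sit γ ρ Y) (hr : ∀ θ, SigmaReflection γ Y θ)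
include h hr

/-- on the backward ray: uniqueness -/
lemma S_unique_neg {c : ℝ} (h0 : 0 < c) (h1 : c ≤ 1) {θ t : ℝ} (ht : 0 < t)
    (hc : Y (P γ θ (-t)) = c) : t = S γ Y c θ := by
  apply h.S_unique h0 h1 ht
  have h4 := hr θ (-t) (by unfold P at hc; rw [hc]; exact h1)
  unfold P at hc ⊢
  rw [hc] at h4
  rw [← h4]
  congr 1
  push_cast; ring

lemma F_spec {c : ℝ} (h0 : 0 < c) (h1 : c ≤ 1) (θ : ℝ) :
    θ < F γ Y c θ ∧ F γ Y c θ < θ + π ∧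
      P γ θ (S γ Y c θ) = P γ (F γ Y c θ) (-S γ Y c (F γ Y c θ)) := by
  have hs := h.S_spec h0 h1 θ
  obtain ⟨φ, t, e1, e2, ht, he⟩ := (h.second _ _ _ h.supp).1 θ (S γ Y c θ) hs.1
  rw [← P_eq_pt, ← P_eq_pt] at he
  have hY : Y (P γ φ (-t)) = c := by rw [← he]; exact hs.2
  have ht' := h.S_unique_neg hr h0 h1 ht hY
  have : ∃ φ, θ < φ ∧ φ < θ + π ∧ P γ θ (S γ Y c θ) = P γ φ (-S γ Y c φ) :=
    ⟨φ, e1, e2, by rw [he, ht']⟩
  exact Classical.epsilon_spec this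

lemma F_unique {c : ℝ} (h0 : 0 < c) (h1 : c ≤ 1) {θ φ t : ℝ} (e1 : θ < φ) (e2 : φ < θ + π)
    (he : P γ θ (S γ Y c θ) = P γ φ t) : φ = F γ Y c θ := by
  obtain ⟨f1, f2, f3⟩ := h.F_spec hr h0 h1 θ
  have hs := h.S_spec h0 h1 θ
  rw [P_eq_pt, P_eq_pt] at he f3
  exact ((h.second _ _ _ h.supp).2.1 θ (S γ Y c θ) φ t (F γ Y c θ) _ hs.1 e1 e2 f1 f2 he f3).1

lemma F_per {c : ℝ} (h0 : 0 < c) (h1 : c ≤ 1) (θ : ℝ) :
    F γ Y c (θ + 2 * π) = F γ Y c θ + 2 * π := by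
  obtain ⟨f1, f2, f3⟩ := h.F_spec hr h0 h1 θ
  symm
  refine h.F_unique hr h0 h1 (t := -S γ Y c (F γ Y c θ)) (by linarith) (by linarith) ?_
  rw [h.S_periodic, h.P_per, h.P_per]
  exact f3

lemma a2_strictMono {c : ℝ} (h0 : 0 < c) (h1 : c ≤ 1) : StrictMono (a2 γ Y c) := by
  apply strictMono_of_deriv_pos
  intro θ
  have hd := hopf_arctan (r := fun θ => sq γ θ + S γ Y c θ)
    (u := fun θ => ρ θ - sp γ θ + Su γ ρ Y c θ) h.supp.ppos h.supp.dp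
    (fun θ => (h.supp.dq θ).add (h.S_deriv_right h0 h1 θ)) θ
  have hd' : deriv (a2 γ Y c) θ = _ := hd.deriv
  rw [hd']
  obtain ⟨-, -, k3, -⟩ := h.ab_pos hr h0 h1 θ
  have hp := h.supp.ppos θ
  have hn : 0 < sp γ θ ^ 2 + (sq γ θ + S γ Y c θ) ^ 2 := by positivity
  have e : 1 + ((ρ θ - sp γ θ + Su γ ρ Y c θ) * sp γ θ - (sq γ θ + S γ Y c θ) * sq γ θ) /
      (sp γ θ ^ 2 + (sq γ θ + S γ Y c θ) ^ 2) =
      (sp γ θ * ρ θ + S γ Y c θ ^ 2 + (sp γ θ * Su γ ρ Y c θ + sq γ θ * S γ Y c θ)) /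
      (sp γ θ ^ 2 + (sq γ θ + S γ Y c θ) ^ 2) := by
    field_simp
    ring
  rw [e]
  positivity

lemma a1_strictMono {c : ℝ} (h0 : 0 < c) (h1 : c ≤ 1) : StrictMono (a1 γ Y c) := by
  apply strictMono_of_deriv_pos
  intro θ
  have hd := hopf_arctan (r := fun θ => sq γ θ + -S γ Y c θ)
    (u := fun θ => ρ θ - sp γ θ + -Su γ ρ Y c θ) h.supp.ppos h.supp.dp
    (fun θ => (h.supp.dq θ).add (h.S_deriv_right h0 h1 θ).neg) θ
  have hd' : deriv (a1 γ Y c) θ = _ := hd.deriv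
  rw [hd']
  obtain ⟨-, -, -, k3⟩ := h.ab_pos hr h0 h1 θ
  have hp := h.supp.ppos θ
  have hn : 0 < sp γ θ ^ 2 + (sq γ θ + -S γ Y c θ) ^ 2 := by positivity
  have e : 1 + ((ρ θ - sp γ θ + -Su γ ρ Y c θ) * sp γ θ - (sq γ θ + -S γ Y c θ) * sq γ θ) /
      (sp γ θ ^ 2 + (sq γ θ + -S γ Y c θ) ^ 2) =
      (sp γ θ * ρ θ + S γ Y c θ ^ 2 - (sp γ θ * Su γ ρ Y c θ + sq γ θ * S γ Y c θ)) /
      (sp γ θ ^ 2 + (sq γ θ + -S γ Y c θ) ^ 2) := by
    field_simp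
    ring
  rw [e]
  positivity

lemma a1_per (c θ : ℝ) : a1 γ Y c (θ + 2 * π) = a1 γ Y c θ + 2 * π := by
  unfold a1; rw [h.sp_per, h.sq_per, h.S_periodic]; ring

/-- equal points of a leaf have polar angles equal mod `2π` -/
lemma polar_inj {c : ℝ} (h0 : 0 < c) (h1 : c ≤ 1) {x y : ℝ}
    (he : (Rad Y c x * exp (x * I) : ℂ) = Rad Y c y * exp (y * I)) :
    ∃ k : ℤ, y = x + k * (2 * π) := by
  have r1 := (h.Rad_spec h0 h1 x).1
  have r2 := (h.Rad_spec h0 h1 y).1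
  have hn := congrArg norm he
  rw [norm_mul, norm_mul, norm_exp_ofReal_mul_I, norm_exp_ofReal_mul_I, norm_real, norm_real,
    Real.norm_eq_abs, Real.norm_eq_abs, abs_of_pos r1, abs_of_pos r2, mul_one, mul_one] at hn
  rw [hn] at he
  have h3 : (Rad Y c y : ℂ) ≠ 0 := by exact_mod_cast r2.ne'
  have h4 := (mul_right_inj' h3).1 he
  obtain ⟨n, hn⟩ := exp_eq_exp_iff_exists_int.1 h4.symm
  refine ⟨n, ?_⟩
  have h5 : ((y : ℝ) : ℂ) * I = ((x + n * (2 * π) : ℝ) : ℂ) * I := by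
    rw [hn]; push_cast; ring
  have h6 := mul_right_cancel₀ I_ne_zero h5
  exact_mod_cast h6

lemma back_inj {c : ℝ} (h0 : 0 < c) (h1 : c ≤ 1) {θ φ : ℝ}
    (he : P γ θ (-S γ Y c θ) = P γ φ (-S γ Y c φ)) : ∃ k : ℤ, φ = θ + k * (2 * π) := by
  rw [h.P_rad h0 h1 (h.Y_neg hr h0 h1 θ), h.P_rad h0 h1 (h.Y_neg hr h0 h1 φ)] at he
  obtain ⟨k, hk⟩ := h.polar_inj hr h0 h1 he
  refine ⟨k, (h.a1_strictMono hr h0 h1).injective ?_⟩
  rw [shift_int (fun x => h.a1_per hr c x)]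
  exact hk

lemma F_angle {c : ℝ} (h0 : 0 < c) (h1 : c ≤ 1) (θ : ℝ) :
    a2 γ Y c θ = a1 γ Y c (F γ Y c θ) := by
  obtain ⟨f1, f2, f3⟩ := h.F_spec hr h0 h1 θ
  rw [h.P_rad h0 h1 (h.S_spec h0 h1 θ).2, h.P_rad h0 h1 (h.Y_neg hr h0 h1 _)] at f3
  obtain ⟨k, hk⟩ := h.polar_inj hr h0 h1 f3
  change a1 γ Y c (F γ Y c θ) = a2 γ Y c θ + k * (2 * π) at hk
  have b1 := Real.arctan_lt_pi_div_two ((sq γ θ + S γ Y c θ) / sp γ θ)
  have b2 := Real.neg_pi_div_two_lt_arctan ((sq γ θ + S γ Y c θ) / sp γ θ)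
  have b3 := Real.arctan_lt_pi_div_two ((sq γ (F γ Y c θ) + -S γ Y c (F γ Y c θ)) /
    sp γ (F γ Y c θ))
  have b4 := Real.neg_pi_div_two_lt_arctan ((sq γ (F γ Y c θ) + -S γ Y c (F γ Y c θ)) /
    sp γ (F γ Y c θ))
  have hπ := Real.pi_pos
  have e1 : a1 γ Y c (F γ Y c θ) - a2 γ Y c θ < 2 * π := by unfold a1 a2; linarith
  have e2 : -(2 * π) < a1 γ Y c (F γ Y c θ) - a2 γ Y c θ := by unfold a1 a2; linarith
  rw [hk] at e1 e2
  have k1 : (k : ℝ) < 1 := by nlinarith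
  have k2 : (-1 : ℝ) < k := by nlinarith
  have k3 : k = 0 := by
    have : k < 1 := by exact_mod_cast k1
    have : -1 < k := by exact_mod_cast k2
    omega
  rw [k3] at hk
  simp at hk
  exact hk.symm

lemma F_strictMono {c : ℝ} (h0 : 0 < c) (h1 : c ≤ 1) : StrictMono (F γ Y c) := by
  intro x y hxy
  have h2 := h.a2_strictMono hr h0 h1 hxy
  rw [h.F_angle hr h0 h1, h.F_angle hr h0 h1] at h2
  exact (h.a1_strictMono hr h0 h1).lt_iff_lt.1 h2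

lemma S_lt {c : ℝ} (h0 : 0 < c) (h1 : c < 1) (θ : ℝ) : S γ Y c θ < S γ Y 1 θ := by
  by_contra hcon
  push Not at hcon
  have h2 := h.S_spec one_pos le_rfl θ
  have h3 := h.Y_seg h0 h1.le θ h2.1.le hcon
  rw [h2.2] at h3
  linarith

lemma F_lt {c : ℝ} (h0 : 0 < c) (h1 : c < 1) (θ : ℝ) : F γ Y c θ < F γ Y 1 θ := by
  obtain ⟨f1, f2, f3⟩ := h.F_spec hr h0 h1.le θ
  obtain ⟨g1, g2, g3⟩ := h.F_spec hr one_pos le_rfl θ
  rw [P_eq_pt, P_eq_pt] at f3 g3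
  exact (h.second _ _ _ h.supp).2.2.1 θ _ _ _ _ _ _ (h.S_spec h0 h1.le θ).1
    (h.S_lt hr h0 h1 θ) f1 f2 g1 g2 f3 g3

/-- consecutive points of the outer leaf -/
lemma next_data {z w : ℂ} (hz : Y z = 1) (hw : Y w = 1) (hn : Next γ z w) :
    ∃ θ, z = P γ θ (-S γ Y 1 θ) ∧ w = P γ θ (S γ Y 1 θ) := by
  obtain ⟨θ, s, t, hs, ht, e1, e2⟩ := hn
  have e1' : z = P γ θ (-(-s)) := by rw [e1, P, neg_neg]
  have e2' : w = P γ θ t := e2
  have k1 : -s = S γ Y 1 θ := h.S_unique_neg hr one_pos le_rfl (by linarith)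
    (by rw [← e1']; exact hz)
  have k2 : t = S γ Y 1 θ := h.S_unique one_pos le_rfl ht (by rw [← e2']; exact hw)
  refine ⟨θ, ?_, ?_⟩
  · rw [e1', k1]
  · rw [e2', k2]

lemma F_four (h4 : OuterLeafFourPeriodic γ Y) (θ : ℝ) :
    F γ Y 1 (F γ Y 1 (F γ Y 1 (F γ Y 1 θ))) = θ + 2 * π := by
  have h01 : (0 : ℝ) < 1 := one_pos
  have hper := fun x => h.F_per hr h01 le_rfl x
  obtain ⟨z₂, z₃, z₄, y2, y3, y4, n1, n2, n3, n4⟩ := h4 _ (h.Y_neg hr h01 le_rfl θ)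
  have y1 := h.Y_neg hr h01 le_rfl θ
  obtain ⟨θ1, c1, d1⟩ := h.next_data hr y1 y2 n1
  obtain ⟨θ2, c2, d2⟩ := h.next_data hr y2 y3 n2
  obtain ⟨θ3, c3, d3⟩ := h.next_data hr y3 y4 n3
  obtain ⟨θ4, c4, d4⟩ := h.next_data hr y4 y1 n4
  have F1 := (h.F_spec hr h01 le_rfl θ1).2.2
  have F2 := (h.F_spec hr h01 le_rfl θ2).2.2
  have F3 := (h.F_spec hr h01 le_rfl θ3).2.2
  have F4 := (h.F_spec hr h01 le_rfl θ4).2.2
  obtain ⟨k1, hk1⟩ := h.back_inj hr h01 le_rfl c1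
  obtain ⟨k2, hk2⟩ := h.back_inj hr h01 le_rfl ((F1.symm.trans d1.symm).trans c2)
  obtain ⟨k3, hk3⟩ := h.back_inj hr h01 le_rfl ((F2.symm.trans d2.symm).trans c3)
  obtain ⟨k4, hk4⟩ := h.back_inj hr h01 le_rfl ((F3.symm.trans d3.symm).trans c4)
  obtain ⟨k5, hk5⟩ := h.back_inj hr h01 le_rfl ((F4.symm.trans d4.symm))
  -- hk1 : θ1 = θ + k1 2π, hk2 : θ2 = F θ1 + .., hk5 : θ = F θ4 + ..
  have sh := fun x k => shift_int hper x k
  have e1 : F γ Y 1 θ1 = F γ Y 1 θ + k1 * (2 * π) := by rw [hk1, sh]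
  have e2 : F γ Y 1 θ2 = F γ Y 1 (F γ Y 1 θ) + ((k1 + k2 : ℤ) : ℝ) * (2 * π) := by
    rw [hk2, e1, show F γ Y 1 θ + k1 * (2 * π) + k2 * (2 * π) =
      F γ Y 1 θ + ((k1 + k2 : ℤ) : ℝ) * (2 * π) by push_cast; ring, sh]
  have e3 : F γ Y 1 θ3 = F γ Y 1 (F γ Y 1 (F γ Y 1 θ)) +
      ((k1 + k2 + k3 : ℤ) : ℝ) * (2 * π) := by
    rw [hk3, e2, show F γ Y 1 (F γ Y 1 θ) + ((k1 + k2 : ℤ) : ℝ) * (2 * π) + k3 * (2 * π) =
      F γ Y 1 (F γ Y 1 θ) + ((k1 + k2 + k3 : ℤ) : ℝ) * (2 * π) by push_cast; ring, sh]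
  have e4 : F γ Y 1 θ4 = F γ Y 1 (F γ Y 1 (F γ Y 1 (F γ Y 1 θ))) +
      ((k1 + k2 + k3 + k4 : ℤ) : ℝ) * (2 * π) := by
    rw [hk4, e3, show F γ Y 1 (F γ Y 1 (F γ Y 1 θ)) + ((k1 + k2 + k3 : ℤ) : ℝ) * (2 * π) +
      k4 * (2 * π) = F γ Y 1 (F γ Y 1 (F γ Y 1 θ)) +
      ((k1 + k2 + k3 + k4 : ℤ) : ℝ) * (2 * π) by push_cast; ring, sh]
  have e5 : F γ Y 1 (F γ Y 1 (F γ Y 1 (F γ Y 1 θ))) =
      θ + ((-(k1 + k2 + k3 + k4 + k5) : ℤ) : ℝ) * (2 * π) := by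
    push_cast
    push_cast at e4
    linarith
  have b1 := h.F_spec hr h01 le_rfl θ
  have b2 := h.F_spec hr h01 le_rfl (F γ Y 1 θ)
  have b3 := h.F_spec hr h01 le_rfl (F γ Y 1 (F γ Y 1 θ))
  have b4 := h.F_spec hr h01 le_rfl (F γ Y 1 (F γ Y 1 (F γ Y 1 θ)))
  have lo : θ < F γ Y 1 (F γ Y 1 (F γ Y 1 (F γ Y 1 θ))) := by linarith [b1.1, b2.1, b3.1, b4.1]
  have hi : F γ Y 1 (F γ Y 1 (F γ Y 1 (F γ Y 1 θ))) < θ + 4 * π := by
    linarith [b1.2.1, b2.2.1, b3.2.1, b4.2.1]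
  set K : ℤ := -(k1 + k2 + k3 + k4 + k5) with hK
  rw [e5] at lo hi
  have hπ := Real.pi_pos
  have k1' : (0 : ℝ) < K := by
    by_contra hcon
    push Not at hcon
    nlinarith
  have k2' : (K : ℝ) < 2 := by
    by_contra hcon
    push Not at hcon
    nlinarith
  have k3' : K = 1 := by
    have : 0 < K := by exact_mod_cast k1'
    have : K < 2 := by exact_mod_cast k2'
    omega
  rw [e5, k3']
  push_cast; ring

/-- The outer leaf is symmetric. -/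
lemma outer_symm (h4 : OuterLeafFourPeriodic γ Y) (z : ℂ) (hz : Y z = 1) : Y (-z) = 1 := by
  have h01 : (0 : ℝ) < 1 := one_pos
  -- no point of the reflected leaf is inside
  have key : ∀ z : ℂ, Y z = 1 → ¬ Y (-z) < 1 := by
    intro z hz hlt
    obtain ⟨z₂, z₃, z₄, y2, y3, y4, n1, n2, n3, n4⟩ := h4 z hz
    obtain ⟨θ, c1, d1⟩ := h.next_data hr hz y2 n1
    have hneg : -z = P γ (θ + π) (-S γ Y 1 θ) := by rw [h.P_pi, ← c1]
    have hspos := (h.S_spec h01 le_rfl θ).1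
    have hpos : 0 < Y (-z) := by
      rw [hneg]; exact h.pos_P _ (by linarith [hspos] |> ne_of_lt)
    set c := Y (-z) with hc
    -- induction along the orbit
    have step : ∀ x : ℝ, S γ Y c (x + π) = S γ Y 1 x →
        F γ Y c (x + π) = F γ Y 1 x + π ∧ S γ Y c (F γ Y 1 x + π) = S γ Y 1 (F γ Y 1 x) := by
      intro x hx
      obtain ⟨f1, f2, f3⟩ := h.F_spec hr h01 le_rfl x
      have e : P γ (x + π) (S γ Y c (x + π)) = P γ (F γ Y 1 x + π) (-S γ Y 1 (F γ Y 1 x)) := by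
        rw [hx, h.P_pi, h.P_pi, f3]
      have e1 := h.F_unique hr hpos hlt.le (θ := x + π) (φ := F γ Y 1 x + π) (by linarith)
        (by linarith) e
      have hY : Y (P γ (F γ Y 1 x + π) (-S γ Y 1 (F γ Y 1 x))) = c := by
        rw [← e]; exact (h.S_spec hpos hlt.le _).2
      exact ⟨e1.symm, (h.S_unique_neg hr hpos hlt.le (h.S_spec h01 le_rfl _).1 hY).symm⟩
    have s0 : S γ Y c (θ + π) = S γ Y 1 θ := by
      symm
      apply h.S_unique_neg hr hpos hlt.le hspos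
      rw [← hneg]
    obtain ⟨g1, s1⟩ := step θ s0
    obtain ⟨g2, s2⟩ := step _ s1
    obtain ⟨g3, s3⟩ := step _ s2
    obtain ⟨g4, s4⟩ := step _ s3
    have hF4 := h.F_four hr h4 θ
    have hF4' := h.F_four hr h4 (θ + π)
    rw [hF4] at g4
    -- compare
    have mono := h.F_strictMono hr h01 le_rfl
    have l1 := h.F_lt hr hpos hlt (θ + π)
    have l2 : F γ Y c (F γ Y c (θ + π)) < F γ Y 1 (F γ Y 1 (θ + π)) :=
      (h.F_lt hr hpos hlt _).trans (mono l1)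
    have l3 : F γ Y c (F γ Y c (F γ Y c (θ + π))) < F γ Y 1 (F γ Y 1 (F γ Y 1 (θ + π))) :=
      (h.F_lt hr hpos hlt _).trans (mono l2)
    have l4 : F γ Y c (F γ Y c (F γ Y c (F γ Y c (θ + π)))) <
        F γ Y 1 (F γ Y 1 (F γ Y 1 (F γ Y 1 (θ + π)))) :=
      (h.F_lt hr hpos hlt _).trans (mono l3)
    rw [g1, g2, g3, g4, hF4'] at l4
    linarith
  -- radial comparison
  have rad : ∀ φ, Rad Y 1 (φ + π) ≤ Rad Y 1 φ := by
    intro φ
    by_contra hcon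
    push Not at hcon
    obtain ⟨r1, y1⟩ := h.Rad_spec h01 le_rfl φ
    obtain ⟨r2, y2⟩ := h.Rad_spec h01 le_rfl (φ + π)
    have e : -(Rad Y 1 φ * exp (φ * I) : ℂ) = Rad Y 1 φ * exp (((φ + π : ℝ) : ℂ) * I) := by
      have : (((φ + π : ℝ) : ℂ) * I) = φ * I + π * I := by push_cast; ring
      rw [this, exp_add, exp_pi_mul_I]; ring
    apply key _ y1
    rw [e]
    apply h.lt_of_mem_interior h01 le_rfl
    have h2 := (h.collar.convex 1 zero_le_one le_rfl).combo_interior_self_mem_interior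
      (h.zero_mem_interior h01 le_rfl)
      (show (Rad Y 1 (φ + π) * exp (((φ + π : ℝ) : ℂ) * I) : ℂ) ∈ {z | Y z ≤ 1} from y2.le)
      (show (0 : ℝ) < 1 - Rad Y 1 φ / Rad Y 1 (φ + π) by
        rw [sub_pos, div_lt_one r2]; exact hcon)
      (show (0 : ℝ) ≤ Rad Y 1 φ / Rad Y 1 (φ + π) by positivity) (by ring)
    have h3 : (1 - Rad Y 1 φ / Rad Y 1 (φ + π)) • (0 : ℂ) +
        (Rad Y 1 φ / Rad Y 1 (φ + π)) •
          (Rad Y 1 (φ + π) * exp (((φ + π : ℝ) : ℂ) * I) : ℂ) =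
        Rad Y 1 φ * exp (((φ + π : ℝ) : ℂ) * I) := by
      rw [smul_zero, zero_add, real_smul, ← mul_assoc, ← ofReal_mul, div_mul_cancel₀ _ r2.ne']
    rw [h3] at h2
    exact h2
  have radeq : ∀ φ, Rad Y 1 (φ + π) = Rad Y 1 φ := by
    intro φ
    apply le_antisymm (rad φ)
    have h2 := rad (φ + π)
    rw [show φ + π + π = φ + 2 * π by ring, Rad_periodic] at h2
    exact h2
  -- conclusion
  have hz0 : z ≠ 0 := by
    rintro rfl
    have := h.inside_zero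
    linarith
  have hn : 0 < ‖z‖ := norm_pos_iff.2 hz0
  have hzp : z = ‖z‖ * exp (arg z * I) := (norm_mul_exp_arg_mul_I z).symm
  have hr1 : ‖z‖ = Rad Y 1 (arg z) := h.Rad_unique h01 le_rfl hn (by rw [← hzp]; exact hz)
  have e : -z = Rad Y 1 (arg z + π) * exp (((arg z + π : ℝ) : ℂ) * I) := by
    have : (((arg z + π : ℝ) : ℂ) * I) = arg z * I + π * I := by push_cast; ring
    rw [radeq, ← hr1, this, exp_add, exp_pi_mul_I]
    nth_rewrite 1 [hzp]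
    ring
  rw [e]
  exact (h.Rad_spec h01 le_rfl _).2

lemma S_pi (h4 : OuterLeafFourPeriodic γ Y) (θ : ℝ) : S γ Y 1 (θ + π) = S γ Y 1 θ := by
  symm
  apply h.S_unique one_pos le_rfl (h.S_spec one_pos le_rfl θ).1
  rw [h.P_pi]
  exact h.outer_symm hr h4 _ (h.S_spec one_pos le_rfl θ).2

lemma F_pi (h4 : OuterLeafFourPeriodic γ Y) (θ : ℝ) : F γ Y 1 (θ + π) = F γ Y 1 θ + π := by
  obtain ⟨f1, f2, f3⟩ := h.F_spec hr one_pos le_rfl θ
  symm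
  refine h.F_unique hr one_pos le_rfl (t := -S γ Y 1 (F γ Y 1 θ)) (by linarith)
    (by linarith) ?_
  rw [h.S_pi hr h4, h.P_pi, h.P_pi, f3]

lemma F_two (h4 : OuterLeafFourPeriodic γ Y) (θ : ℝ) : F γ Y 1 (F γ Y 1 θ) = θ + π := by
  have mono := h.F_strictMono hr one_pos le_rfl
  have hsub : ∀ x, F γ Y 1 (x - π) = F γ Y 1 x - π := by
    intro x
    have := h.F_pi hr h4 (x - π)
    rw [sub_add_cancel] at this
    linarith
  have inv : ∀ x, F γ Y 1 (F γ Y 1 (F γ Y 1 (F γ Y 1 x) - π)) - π = x := by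
    intro x
    rw [hsub, hsub, h.F_four hr h4]; ring
  rcases lt_trichotomy (F γ Y 1 (F γ Y 1 θ) - π) θ with h2 | h2 | h2
  · have h3 := mono (mono h2)
    have h5 := inv θ
    linarith
  · linarith
  · have h3 := mono (mono h2)
    have h5 := inv θ
    linarith

/-- The two Radon relations. -/
lemma radon_rel (h4 : OuterLeafFourPeriodic γ Y) (θ : ℝ) :
    γ (F γ Y 1 θ) = S γ Y 1 θ * tang θ ∧
    S γ Y 1 (F γ Y 1 θ) * tang (F γ Y 1 θ) = -γ θ := by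
  have f3 := (h.F_spec hr one_pos le_rfl θ).2.2
  have g3 := (h.F_spec hr one_pos le_rfl (F γ Y 1 θ)).2.2
  rw [h.F_two hr h4, h.P_pi, h.S_pi hr h4] at g3
  unfold P at f3 g3
  push_cast at f3 g3
  constructor
  · linear_combination (-1 / 2 : ℂ) * f3 + (1 / 2 : ℂ) * g3
  · linear_combination (1 / 2 : ℂ) * f3 + (1 / 2 : ℂ) * g3

end refl

end Sit

end Pool.Agent.H97.OB
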