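import Pool.Agent.H97.OB.Stubs

/-!
# Geometry of the collar: intersections of the leaves with the tangent lines of the oval

(adapted from the case of the unit circle, `H719R2.PIB.Geom`)
-/

set_option autoImplicit false

open Set Filter Topology Complex
open scoped ContDiff Real

namespace Pool.Agent.H97.OB

/-- The point with parameter `s` on the tangent line at `γ θ`. -/
noncomputable def P (γ : ℝ → ℂ) (θ s : ℝ) : ℂ := γ θ + s * tang θ

/-- Support function. -/
noncomputable def sp (γ : ℝ → ℂ) (θ : ℝ) : ℝ := (γ θ * exp (-(θ * I))).re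

/-- Its derivative. -/
noncomputable def sq (γ : ℝ → ℂ) (θ : ℝ) : ℝ := (γ θ * exp (-(θ * I))).im

lemma exp_mul_neg (θ : ℝ) : exp (θ * I) * exp (-(θ * I)) = 1 := by
  rw [← exp_add]; simp

lemma gam_eq (γ : ℝ → ℂ) (θ : ℝ) : γ θ = ((sp γ θ : ℂ) + (sq γ θ : ℂ) * I) * exp (θ * I) := by
  have h : ((sp γ θ : ℂ) + (sq γ θ : ℂ) * I) = γ θ * exp (-(θ * I)) := re_add_im _
  rw [h, mul_assoc, mul_comm (exp _) (exp _), exp_mul_neg, mul_one]

lemma P_eq_pt (γ : ℝ → ℂ) (θ s : ℝ) : P γ θ s = pt (sp γ) (sq γ) θ s := by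
  unfold P pt tang
  conv_lhs => rw [gam_eq γ θ]
  push_cast; ring

lemma tang_norm (θ : ℝ) : ‖tang θ‖ = 1 := by
  rw [tang, norm_mul, norm_I, one_mul, norm_exp_ofReal_mul_I]

lemma tang_hasDerivAt (θ : ℝ) : HasDerivAt tang (-exp (θ * I)) θ := by
  have h1 : HasDerivAt (fun θ : ℝ => (θ : ℂ) * I) I θ := by
    simpa using (ofRealCLM.hasDerivAt (x := θ)).mul_const I
  have h2 := h1.cexp.const_mul I
  refine h2.congr_deriv ?_
  linear_combination exp (θ * I) * I_sq

lemma sp_hasDerivAt {γ : ℝ → ℂ} {ρ : ℝ → ℝ} (h : IsOval γ ρ) (θ : ℝ) :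
    HasDerivAt (sp γ) (sq γ θ) θ ∧ HasDerivAt (sq γ) (ρ θ - sp γ θ) θ := by
  have h1 : HasDerivAt (fun θ : ℝ => -((θ : ℂ) * I)) (-I) θ :=
    ((ofRealCLM.hasDerivAt (x := θ)).mul_const I).neg.congr_deriv (by simp)
  have h2 : HasDerivAt (fun θ : ℝ => γ θ * exp (-(θ * I)))
      (((sq γ θ : ℝ) : ℂ) + ((ρ θ - sp γ θ : ℝ) : ℂ) * I) θ := by
    refine ((h.deriv θ).mul h1.cexp).congr_deriv ?_
    conv_lhs => rw [gam_eq γ θ]
    unfold tang
    push_cast
    linear_combination (ρ θ * I - ((sp γ θ : ℂ) + (sq γ θ : ℂ) * I) * I) * exp_mul_neg θ -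
      (sq γ θ : ℂ) * I_sq
  constructor
  · have h3 : HasDerivAt (fun θ : ℝ => reCLM (γ θ * exp (-(θ * I)))) _ θ :=
      HasFDerivAt.comp_hasDerivAt (f := fun θ : ℝ => γ θ * exp (-(θ * I))) θ
        reCLM.hasFDerivAt h2
    exact h3.congr_deriv (by simp)
  · have h3 : HasDerivAt (fun θ : ℝ => imCLM (γ θ * exp (-(θ * I)))) _ θ :=
      HasFDerivAt.comp_hasDerivAt (f := fun θ : ℝ => γ θ * exp (-(θ * I))) θ
        imCLM.hasFDerivAt h2
    exact h3.congr_deriv (by simp)

lemma exp_pi_shift (θ : ℝ) : exp (-(((θ + π : ℝ) : ℂ) * I)) = -exp (-(θ * I)) := by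
  have : -(((θ + π : ℝ) : ℂ) * I) = -(θ * I) - π * I := by push_cast; ring
  rw [this, exp_sub, exp_pi_mul_I, div_neg, div_one]

/-- `0 < p`. -/
lemma sp_pos {γ : ℝ → ℂ} {ρ : ℝ → ℝ} (h : IsOval γ ρ) (hs : ∀ θ, γ (θ + π) = -γ θ) (θ : ℝ) :
    0 < sp γ θ := by
  set u : ℝ → ℝ := fun φ => sq γ φ * Real.sin (φ - θ) - sp γ φ * Real.cos (φ - θ) with hu
  have hd : ∀ φ, HasDerivAt u (ρ φ * Real.sin (φ - θ)) φ := by
    intro φ
    obtain ⟨h1, h2⟩ := sp_hasDerivAt h φ
    have h3 : HasDerivAt (fun φ => φ - θ) 1 φ := (hasDerivAt_id φ).sub_const θ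
    refine ((h2.mul h3.sin).sub (h1.mul h3.cos)).congr_deriv ?_
    ring
  have hmono : StrictMonoOn u (Icc θ (θ + π)) := by
    apply strictMonoOn_of_deriv_pos (convex_Icc _ _)
    · exact (continuous_iff_continuousAt.2 fun φ => (hd φ).continuousAt).continuousOn
    · intro φ hφ
      rw [interior_Icc] at hφ
      rw [(hd φ).deriv]
      exact mul_pos (h.pos φ) (Real.sin_pos_of_pos_of_lt_pi (by linarith [hφ.1])
        (by linarith [hφ.2]))
  have hπ := Real.pi_pos
  have h1 := hmono (left_mem_Icc.2 (by linarith)) (right_mem_Icc.2 (by linarith))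
    (show θ < θ + π by linarith)
  have h2 : sp γ (θ + π) = sp γ θ := by
    unfold sp
    rw [hs, exp_pi_shift]
    congr 1; ring
  simp only [hu, sub_self, Real.sin_zero, Real.cos_zero, add_sub_cancel_left, Real.sin_pi,
    Real.cos_pi, h2] at h1
  linarith

/-- The analytic data of a centrally symmetric oval. -/
lemma supp_of_oval {γ : ℝ → ℂ} {ρ : ℝ → ℝ} (h : IsOval γ ρ) (hs : ∀ θ, γ (θ + π) = -γ θ) :
    Supp (sp γ) (sq γ) ρ where
  cont := h.cont
  rpos := h.pos
  ppos := sp_pos h hs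
  dp θ := (sp_hasDerivAt h θ).1
  dq θ := (sp_hasDerivAt h θ).2
  pp θ := by
    unfold sp
    rw [hs, exp_pi_shift]
    congr 1; ring
  qp θ := by
    unfold sq
    rw [hs, exp_pi_shift]
    congr 1; ring
  rp θ := by
    have h1 : HasDerivAt (fun θ => γ (θ + π)) (ρ (θ + π) * tang (θ + π)) θ :=
      (h.deriv (θ + π)).comp_add_const θ π
    have h2 : HasDerivAt (fun θ => -γ θ) (-(ρ θ * tang θ)) θ := (h.deriv θ).neg
    have h3 : (fun θ => γ (θ + π)) = fun θ => -γ θ := funext hs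
    rw [h3] at h1
    have h4 := h1.unique h2
    have h5 : tang (θ + π) = -tang θ := by
      unfold tang
      have : (((θ + π : ℝ) : ℂ) * I) = θ * I + π * I := by push_cast; ring
      rw [this, exp_add, exp_pi_mul_I]; ring
    rw [h5] at h4
    have h6 : ((ρ (θ + π) : ℂ) - ρ θ) * tang θ = 0 := by linear_combination -h4
    have h7 : tang θ ≠ 0 := by
      intro h; have := tang_norm θ; rw [h] at this; simp at this
    have h8 := (mul_eq_zero.1 h6).resolve_right h7
    exact_mod_cast sub_eq_zero.1 h8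

lemma P_zero (γ : ℝ → ℂ) (θ : ℝ) : P γ θ 0 = γ θ := by simp [P]

lemma P_eq (γ : ℝ → ℂ) (θ s : ℝ) : P γ θ s = γ θ + s • tang θ := by rw [P, real_smul]

lemma P_hasDerivAt (γ : ℝ → ℂ) (θ s : ℝ) : HasDerivAt (fun s : ℝ => P γ θ s) (tang θ) s := by
  have h : (fun s : ℝ => P γ θ s) = fun s : ℝ => γ θ + s • tang θ := by
    ext s; exact P_eq γ θ s
  rw [h]
  simpa using ((hasDerivAt_id s).smul_const (tang θ)).const_add (γ θ)

lemma gam_continuous {γ : ℝ → ℂ} {ρ : ℝ → ℝ} (h : IsOval γ ρ) : Continuous γ :=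
  continuous_iff_continuousAt.2 fun θ => (h.deriv θ).continuousAt

lemma tang_continuous : Continuous tang :=
  continuous_iff_continuousAt.2 fun θ => (tang_hasDerivAt θ).continuousAt

lemma P_continuous {γ : ℝ → ℂ} {ρ : ℝ → ℝ} (h : IsOval γ ρ) :
    Continuous (fun q : ℝ × ℝ => P γ q.1 q.2) := by
  unfold P
  have h1 := gam_continuous h
  have h2 := tang_continuous
  fun_prop

lemma norm_P_sq (γ : ℝ → ℂ) (θ s : ℝ) : ‖P γ θ s‖ ^ 2 = sp γ θ ^ 2 + (sq γ θ + s) ^ 2 := by
  rw [P_eq_pt, pt, norm_mul, norm_exp_ofReal_mul_I, mul_one, ← normSq_eq_norm_sq, normSq_apply]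
  simp only [add_re, ofReal_re, mul_re, I_re, mul_zero, ofReal_im, I_im, mul_one, sub_self,
    add_zero, add_im, mul_im, zero_add]
  ring

/-- Data of the situation. -/
structure Sit (γ : ℝ → ℂ) (ρ : ℝ → ℝ) (Y : ℂ → ℝ) : Prop where
  oval : IsOval γ ρ
  sym : ∀ θ, γ (θ + π) = -γ θ
  collar : IsCollar γ Y
  second : S_second

variable {γ : ℝ → ℂ} {ρ : ℝ → ℝ} {Y : ℂ → ℝ}

namespace Sit

lemma supp (h : Sit γ ρ Y) : Supp (sp γ) (sq γ) ρ := supp_of_oval h.oval h.sym

lemma contDiffAt (h : Sit γ ρ Y) {z : ℂ} (h0 : 0 ≤ Y z) (h1 : Y z ≤ 1) : ContDiffAt ℝ 1 Y z := by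
  obtain ⟨U, hU, hsub, hd⟩ := h.collar.smooth
  exact hd.contDiffAt (hU.mem_nhds (hsub ⟨h0, h1⟩))

lemma continuousAt (h : Sit γ ρ Y) {z : ℂ} (h0 : 0 ≤ Y z) (h1 : Y z ≤ 1) : ContinuousAt Y z :=
  (h.contDiffAt h0 h1).continuousAt

lemma differentiableAt (h : Sit γ ρ Y) {z : ℂ} (h0 : 0 ≤ Y z) (h1 : Y z ≤ 1) :
    DifferentiableAt ℝ Y z :=
  (h.contDiffAt h0 h1).differentiableAt (by norm_num)

/-- Points of the interior of a sublevel set have smaller leaf index. -/
lemma lt_of_mem_interior (h : Sit γ ρ Y) {c : ℝ} (h0 : 0 < c) (h1 : c ≤ 1) {z : ℂ}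
    (hz : z ∈ interior {z | Y z ≤ c}) : Y z < c := by
  have hle : Y z ≤ c := (interior_subset hz : z ∈ {z | Y z ≤ c})
  refine lt_of_le_of_ne hle ?_
  intro heq
  have hmax : IsLocalMax Y z := by
    have : {z | Y z ≤ c} ∈ 𝓝 z := mem_interior_iff_mem_nhds.1 hz
    filter_upwards [this] with w hw
    have hw' : Y w ≤ c := hw
    rw [heq]; exact hw'
  exact h.collar.regular z (by rw [heq]; exact h0.le) (by rw [heq]; exact h1) hmax.fderiv_eq_zero

/-- The open region bounded by `γ` is open. -/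
lemma inside_zero (h : Sit γ ρ Y) : Y 0 < 0 := by
  rw [h.collar.inner]
  intro θ
  have := h.supp.ppos θ
  have e : (0 - γ θ) * exp (-(θ * I)) = -(γ θ * exp (-(θ * I))) := by ring
  rw [e, neg_re]
  exact neg_neg_of_pos this

lemma Y_gam (h : Sit γ ρ Y) (θ : ℝ) : Y (γ θ) = 0 := (h.collar.leaf_zero _).2 ⟨θ, rfl⟩

/-- points of `γ` are interior points of larger sublevel sets -/
lemma gam_mem_interior (h : Sit γ ρ Y) {c : ℝ} (h0 : 0 < c) (θ : ℝ) :
    γ θ ∈ interior {z | Y z ≤ c} := by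
  rw [mem_interior_iff_mem_nhds]
  have hY := h.Y_gam θ
  have hc : ContinuousAt Y (γ θ) := h.continuousAt hY.ge (by rw [hY]; norm_num)
  have : ∀ᶠ w in 𝓝 (γ θ), Y w < c := hc.eventually (gt_mem_nhds (by rw [hY]; exact h0))
  filter_upwards [this] with w hw
  exact le_of_lt hw

/-- `0` is an interior point of the sublevel sets. -/
lemma zero_mem_interior (h : Sit γ ρ Y) {c : ℝ} (h0 : 0 < c) (h1 : c ≤ 1) :
    (0 : ℂ) ∈ interior {z | Y z ≤ c} := by
  have h2 := h.gam_mem_interior h0 0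
  have h3 : -γ 0 ∈ {z | Y z ≤ c} := by
    rw [← h.sym]
    show Y _ ≤ c
    rw [h.Y_gam]; exact h0.le
  have := (h.collar.convex c h0.le h1).combo_interior_self_mem_interior h2 h3
    (show (0 : ℝ) < 1 / 2 by norm_num) (show (0 : ℝ) ≤ 1 / 2 by norm_num) (by norm_num)
  simpa using this

lemma fderiv_nonpos (h : Sit γ ρ Y) {z w : ℂ} (h0 : 0 < Y z) (h1 : Y z ≤ 1)
    (hw : Y w ≤ Y z) : fderiv ℝ Y z (w - z) ≤ 0 := by
  have hd := h.differentiableAt h0.le h1
  have h2 : HasDerivAt (fun τ : ℝ => z + τ • (w - z)) (w - z) 0 := by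
    simpa using ((hasDerivAt_id (0 : ℝ)).smul_const (w - z)).const_add z
  have h3 : HasFDerivAt Y (fderiv ℝ Y z) ((fun τ : ℝ => z + τ • (w - z)) 0) := by
    simpa using hd.hasFDerivAt
  have h4 : HasDerivAt (fun τ : ℝ => Y (z + τ • (w - z))) (fderiv ℝ Y z (w - z)) 0 :=
    HasFDerivAt.comp_hasDerivAt (f := fun τ : ℝ => z + τ • (w - z)) (0 : ℝ) h3 h2
  rw [hasDerivAt_iff_tendsto_slope] at h4
  have h5 : Tendsto (slope (fun τ : ℝ => Y (z + τ • (w - z))) 0) (𝓝[>] 0)
      (𝓝 (fderiv ℝ Y z (w - z))) :=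
    h4.mono_left (nhdsWithin_mono _ (fun x hx => ne_of_gt hx))
  refine le_of_tendsto h5 ?_
  have h6 : ∀ᶠ τ in 𝓝[>] (0 : ℝ), τ < 1 :=
    (tendsto_id.mono_left nhdsWithin_le_nhds).eventually (gt_mem_nhds one_pos)
  filter_upwards [h6, self_mem_nhdsWithin] with τ hτ hτ0
  rw [mem_Ioi] at hτ0
  rw [slope_def_field, sub_zero, zero_smul, add_zero]
  have hconv := h.collar.convex (Y z) h0.le h1
  have h7 : (1 - τ) • z + τ • w ∈ {w | Y w ≤ Y z} :=
    hconv (show z ∈ {w | Y w ≤ Y z} from le_refl (Y z)) hw (by linarith) hτ0.le (by ring)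
  have h8 : z + τ • (w - z) = (1 - τ) • z + τ • w := by
    rw [smul_sub, sub_smul, one_smul]; ring
  rw [h8]
  exact div_nonpos_of_nonpos_of_nonneg (sub_nonpos.2 h7) hτ0.le

lemma fderiv_neg (h : Sit γ ρ Y) {z w : ℂ} (h0 : 0 < Y z) (h1 : Y z ≤ 1)
    (hw : w ∈ interior {w | Y w ≤ Y z}) : fderiv ℝ Y z (w - z) < 0 := by
  refine lt_of_le_of_ne (h.fderiv_nonpos h0 h1
    (interior_subset hw : w ∈ {w | Y w ≤ Y z})) ?_
  intro heq
  apply h.collar.regular z h0.le h1
  rw [mem_interior_iff_mem_nhds, Metric.mem_nhds_iff] at hw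
  obtain ⟨ε, hε, hball⟩ := hw
  have key : ∀ u : ℂ, ‖u‖ < ε → fderiv ℝ Y z u ≤ 0 := by
    intro u hu
    have h2 : w + u ∈ {w | Y w ≤ Y z} := hball (by simpa [Metric.mem_ball, dist_eq_norm] using hu)
    have h3 := h.fderiv_nonpos h0 h1 h2
    have h4 : w + u - z = (w - z) + u := by ring
    rw [h4, map_add, heq, zero_add] at h3
    exact h3
  ext u
  by_cases hu : u = 0
  · rw [hu]; simp
  have hun : 0 < ‖u‖ := norm_pos_iff.2 hu
  set r := ε / (2 * ‖u‖) with hr
  have hrpos : 0 < r := by positivity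
  have hru : ‖r • u‖ < ε := by
    rw [norm_smul, Real.norm_eq_abs, abs_of_pos hrpos, hr]
    field_simp
    linarith
  have k1 := key (r • u) hru
  have k2 := key (-(r • u)) (by rwa [norm_neg])
  rw [map_neg] at k2
  have k3 : fderiv ℝ Y z (r • u) = 0 := by linarith
  rw [map_smul, smul_eq_mul] at k3
  rcases mul_eq_zero.1 k3 with h5 | h5
  · exact absurd h5 hrpos.ne'
  · simpa using h5

/-- The radial derivative is positive. -/
lemma radial_pos (h : Sit γ ρ Y) {z : ℂ} (h0 : 0 < Y z) (h1 : Y z ≤ 1) :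
    0 < fderiv ℝ Y z z := by
  have := h.fderiv_neg h0 h1 (h.zero_mem_interior h0 h1)
  rw [zero_sub, map_neg] at this
  linarith

lemma nonneg_P (h : Sit γ ρ Y) (θ s : ℝ) : 0 ≤ Y (P γ θ s) := by
  by_contra hcon
  push Not at hcon
  rw [h.collar.inner] at hcon
  have h1 := hcon θ
  have h2 : (P γ θ s - γ θ) * exp (-(θ * I)) = s * I := by
    unfold P tang
    linear_combination (s * I : ℂ) * exp_mul_neg θ
  rw [h2] at h1
  simp at h1

lemma pos_P (h : Sit γ ρ Y) (θ : ℝ) {s : ℝ} (hs : s ≠ 0) : 0 < Y (P γ θ s) := by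
  refine lt_of_le_of_ne (h.nonneg_P θ s) ?_
  intro hcon
  obtain ⟨φ, hφ⟩ := (h.collar.leaf_zero _).1 hcon.symm
  -- move `φ` to `(θ - 2π, θ]`
  have hper : Function.Periodic γ (2 * π) := h.oval.per
  obtain ⟨φ', hφ', he⟩ := hper.exists_mem_Ioc (by positivity) φ (θ - 2 * π)
  rw [hφ] at he
  rw [sub_add_cancel] at hφ'
  rcases eq_or_lt_of_le hφ'.2 with h1 | h1
  · rw [h1] at he
    apply hs
    have h3 : (s : ℂ) * tang θ = 0 := by
      unfold P at he
      linear_combination he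
    have h7 : tang θ ≠ 0 := by
      intro h; have := tang_norm θ; rw [h] at this; simp at this
    exact_mod_cast (mul_eq_zero.1 h3).resolve_right h7
  · have := (h.second _ _ _ h.supp).2.2.2 φ' 0 θ s (by
      rw [← P_eq_pt, ← P_eq_pt, P_zero, ← he]) h1 (by linarith [hφ'.1])
    exact this rfl

/-- Transversality of the leaves and the tangent lines of the oval. -/
lemma transversal (h : Sit γ ρ Y) {θ s : ℝ} (hs : s ≠ 0) (h1 : Y (P γ θ s) ≤ 1) :
    0 < s * fderiv ℝ Y (P γ θ s) (tang θ) := by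
  have h0 := h.pos_P θ hs
  have h3 := h.fderiv_neg h0 h1 (h.gam_mem_interior h0 θ)
  have h4 : γ θ - P γ θ s = -(s • tang θ) := by rw [P_eq]; ring
  rw [h4, map_neg, map_smul, smul_eq_mul] at h3
  linarith

/-- Uniqueness of the intersection point. -/
lemma unique_P (h : Sit γ ρ Y) {θ s t : ℝ} (hs : 0 < s * t) (h1 : Y (P γ θ s) ≤ 1)
    (heq : Y (P γ θ s) = Y (P γ θ t)) : s = t := by
  -- reduce to |s| < |t|
  have key : ∀ s t : ℝ, 0 < s * t → Y (P γ θ s) ≤ 1 → Y (P γ θ s) = Y (P γ θ t) →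
      ¬ |s| < |t| := by
    intro s t hst h1 heq hlt
    have ht : t ≠ 0 := by rintro rfl; simp at hst
    have hs : s ≠ 0 := by rintro rfl; simp at hst
    have h0 := h.pos_P θ hs
    have hq : 0 < s / t := by
      rw [div_eq_mul_inv]
      have : s * t⁻¹ = (s * t) * (t⁻¹) ^ 2 := by field_simp
      rw [this]; positivity
    have hq1 : s / t < 1 := by
      have h2 : |s / t| < 1 := by
        rw [abs_div, div_lt_one (abs_pos.2 ht)]; exact hlt
      exact lt_of_le_of_lt (le_abs_self _) h2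
    have h2 : P γ θ s = (1 - s / t) • γ θ + (s / t) • P γ θ t := by
      rw [P_eq, P_eq, smul_add, sub_smul, one_smul, smul_smul, div_mul_cancel₀ _ ht]
      ring
    have h3 : P γ θ s ∈ interior {w | Y w ≤ Y (P γ θ s)} := by
      have hint : γ θ ∈ interior {w | Y w ≤ Y (P γ θ s)} := h.gam_mem_interior h0 θ
      have hmem : P γ θ t ∈ {w | Y w ≤ Y (P γ θ s)} := by
        show Y (P γ θ t) ≤ Y (P γ θ s)
        rw [heq]
      have hconv := h.collar.convex (Y (P γ θ s)) h0.le h1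
      have := hconv.combo_interior_self_mem_interior hint hmem (sub_pos.2 hq1) hq.le (by ring)
      rw [h2] at this ⊢
      exact this
    exact lt_irrefl _ (h.lt_of_mem_interior h0 h1 h3)
  have h2 := key s t hs h1 heq
  have h3 := key t s (by rwa [mul_comm]) (by rwa [← heq]) heq.symm
  have h4 : |s| = |t| := le_antisymm (not_lt.1 h3) (not_lt.1 h2)
  rcases abs_eq_abs.1 h4 with h5 | h5
  · exact h5
  · exfalso
    rw [h5] at hs
    nlinarith [sq_nonneg t]

/-- Every ray of a family `τ ↦ A τ` in the plane starting inside meets the leaves. -/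
lemma exists_on_path (h : Sit γ ρ Y) {A : ℝ → ℂ} {c₀ : ℝ} (hA : Continuous A)
    (hA0 : Y (A 0) ≤ c₀) {c : ℝ} (hc0 : 0 ≤ c₀) (h0 : c₀ < c) (h1 : c ≤ 1)
    (hinf : ∀ M : ℝ, ∃ τ₀ : ℝ, ∀ τ, τ₀ ≤ τ → M < ‖A τ‖) :
    ∃ τ, 0 < τ ∧ Y (A τ) = c := by
  set S : Set ℝ := {τ | 0 ≤ τ ∧ Y (A τ) ≤ c} with hS
  have hK := h.collar.compact c (hc0.trans h0.le) h1
  have hclosed : IsClosed S := by
    have : S = Ici 0 ∩ A ⁻¹' {z | Y z ≤ c} := by ext τ; simp [hS]
    rw [this]
    exact isClosed_Ici.inter (hK.isClosed.preimage hA)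
  obtain ⟨M, hM⟩ := hK.isBounded.exists_norm_le
  obtain ⟨τ₀, hτ₀⟩ := hinf M
  have hbdd : ∀ τ ∈ S, τ ≤ τ₀ := by
    intro τ hτ
    by_contra hcon
    push Not at hcon
    have h2 := hM _ hτ.2
    have h3 := hτ₀ τ hcon.le
    linarith
  have hcomp : IsCompact S := by
    refine Metric.isCompact_of_isClosed_isBounded hclosed ?_
    refine (Metric.isBounded_Icc 0 τ₀).subset (fun τ hτ => ⟨hτ.1, hbdd τ hτ⟩)
  have hne : S.Nonempty := ⟨0, le_rfl, hA0.trans h0.le⟩
  obtain ⟨m, hmS, hmax⟩ := hcomp.exists_isGreatest hne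
  have hm1 : Y (A m) = c := by
    refine le_antisymm hmS.2 (not_lt.1 ?_)
    intro hlt
    have hev : ∀ᶠ τ in 𝓝 m, Y (A τ) ≤ c := by
      rcases lt_or_ge (Y (A m)) 0 with hneg | hpos
      · -- interior points
        have h2 : A m ∈ interior {z | Y z ≤ c} := by
          have hc' : 0 < c := lt_of_le_of_lt hc0 h0
          -- `A m` is inside, a convex combination of `0` and a farther point
          have h3 := h.zero_mem_interior hc' h1
          by_cases hz : A m = 0
          · rw [hz]; exact h3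
          have h4 : A m ∈ {z | Y z ≤ c} := hmS.2
          -- use that `inside` is open under small dilations
          have hin : ∀ θ, ((A m - γ θ) * exp (-(θ * I))).re < 0 := (h.collar.inner _).1 hneg
          -- a compactness argument: the dilated point is still inside
          have hcontf : Continuous fun θ : ℝ => ((A m - γ θ) * exp (-(θ * I))).re := by
            have := gam_continuous h.oval
            fun_prop
          obtain ⟨θ₀, -, hθ₀⟩ := (isCompact_Icc (a := (0 : ℝ)) (b := 2 * π)).exists_isMaxOn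
            ⟨0, by constructor <;> positivity⟩ hcontf.continuousOn
          have hall : ∀ θ, ((A m - γ θ) * exp (-(θ * I))).re ≤
              ((A m - γ θ₀) * exp (-(θ₀ * I))).re := by
            intro θ
            have hper : Function.Periodic (fun θ : ℝ => ((A m - γ θ) * exp (-(θ * I))).re)
                (2 * π) := by
              intro θ
              simp only [h.oval.per]
              congr 2
              have : -(((θ + 2 * π : ℝ) : ℂ) * I) = -(θ * I) - 2 * π * I := by push_cast; ring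
              rw [this, exp_sub, exp_two_pi_mul_I, div_one]
            obtain ⟨θ', hθ', he⟩ := hper.exists_mem_Ico₀ (by positivity) θ
            rw [he]
            exact hθ₀ ⟨hθ'.1, hθ'.2.le⟩
          set d := -((A m - γ θ₀) * exp (-(θ₀ * I))).re with hd
          have hdpos : 0 < d := by rw [hd]; linarith [hin θ₀]
          set lam := d / (2 * ‖A m‖) with hlam
          have hnA : 0 < ‖A m‖ := norm_pos_iff.2 hz
          have hlpos : 0 < lam := by positivity
          have hfar : (1 + lam) • A m ∈ {z | Y z ≤ c} := by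
            have : Y ((1 + lam) • A m) < 0 := by
              rw [h.collar.inner]
              intro θ
              have e1 : ((1 + lam) • A m - γ θ) * exp (-(θ * I)) =
                  (A m - γ θ) * exp (-(θ * I)) + lam * (A m * exp (-(θ * I))) := by
                rw [real_smul]; push_cast; ring
              rw [e1, add_re, re_ofReal_mul]
              have h5 : (A m * exp (-(θ * I))).re ≤ ‖A m‖ := by
                refine (re_le_norm _).trans ?_
                rw [norm_mul]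
                have : ‖exp (-((θ : ℂ) * I))‖ = 1 := by
                  have := norm_exp_ofReal_mul_I (-θ)
                  simpa using this
                rw [this, mul_one]
              have h6 : lam * (A m * exp (-(θ * I))).re ≤ d / 2 := by
                calc lam * (A m * exp (-(θ * I))).re ≤ lam * ‖A m‖ :=
                      mul_le_mul_of_nonneg_left h5 hlpos.le
                  _ = d / 2 := by rw [hlam]; field_simp
              have h7 := hall θ
              linarith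
            exact (this.trans hc').le
          have h8 := (h.collar.convex c hc'.le h1).combo_interior_self_mem_interior h3 hfar
            (show (0 : ℝ) < lam / (1 + lam) by positivity)
            (show (0 : ℝ) ≤ 1 / (1 + lam) by positivity) (by field_simp; ring)
          have e2 : (lam / (1 + lam)) • (0 : ℂ) + (1 / (1 + lam)) • (1 + lam) • A m = A m := by
            rw [smul_zero, zero_add, smul_smul]
            have : 1 / (1 + lam) * (1 + lam) = 1 := by field_simp
            rw [this, one_smul]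
          rw [e2] at h8
          exact h8
        have h3 : {z | Y z ≤ c} ∈ 𝓝 (A m) := mem_interior_iff_mem_nhds.1 h2
        exact hA.continuousAt.eventually h3
      · have h2 := h.continuousAt hpos (hlt.le.trans h1)
        have h3 : ContinuousAt (fun τ : ℝ => Y (A τ)) m :=
          ContinuousAt.comp (f := A) h2 hA.continuousAt
        filter_upwards [h3.eventually (gt_mem_nhds hlt)] with τ hτ
        exact hτ.le
    have h5 : ∀ᶠ τ in 𝓝[>] m, Y (A τ) ≤ c := hev.filter_mono nhdsWithin_le_nhds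
    obtain ⟨τ, hτ, hτm⟩ := (h5.and eventually_mem_nhdsWithin).exists
    rw [mem_Ioi] at hτm
    have h6 : τ ≤ m := hmax ⟨hmS.1.trans hτm.le, hτ⟩
    linarith
  refine ⟨m, lt_of_le_of_ne hmS.1 ?_, hm1⟩
  rintro rfl
  rw [hm1] at hA0
  linarith

/-- Existence of the intersection point on the forward tangent ray. -/
lemma exists_P (h : Sit γ ρ Y) (θ : ℝ) {c : ℝ} (h0 : 0 < c) (h1 : c ≤ 1) :
    ∃ s, 0 < s ∧ Y (P γ θ s) = c := by
  refine h.exists_on_path (A := fun s => P γ θ s) (c₀ := 0) ?_ ?_ le_rfl h0 h1 ?_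
  · exact (P_continuous h.oval).comp (Continuous.prodMk_right θ)
  · simp only [P_zero]; exact (h.Y_gam θ).le
  · intro M
    refine ⟨|sq γ θ| + |M| + 1, fun τ hτ => ?_⟩
    have h2 := norm_P_sq γ θ τ
    have h3 : |M| < sq γ θ + τ := by
      have := neg_abs_le (sq γ θ)
      linarith
    have h4 : |M| ^ 2 < ‖P γ θ τ‖ ^ 2 := by
      rw [h2]
      have := h.supp.ppos θ
      nlinarith [abs_nonneg M]
    have h5 := lt_of_pow_lt_pow_left₀ 2 (norm_nonneg _) h4
    exact lt_of_le_of_lt (le_abs_self M) h5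

end Sit

end Pool.Agent.H97.OB
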