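import Pool.Agent.H97.OB.Stubs

set_option autoImplicit false

namespace Pool.Agent.H97.OB

theorem ident : S_ident := by
  intro p q r s u hp hr hs hb
  have hb1 := (abs_lt.1 hb).1
  have hb2 := (abs_lt.1 hb).2
  set b := p * u + q * s with hbdef
  have h1 : 0 < p * r + s ^ 2 + b := by linarith
  have h2 : 0 < p * r + s ^ 2 - b := by linarith
  have h3 : 0 < p ^ 2 + (q + s) ^ 2 := by positivity
  have h4 : 0 < p ^ 2 + (q - s) ^ 2 := by positivity
  have h5 : 0 < s ^ 2 + p * r := by positivity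
  have h6 : (s ^ 2 + p ^ 2 - q ^ 2) ^ 2 + 4 * p ^ 2 * q ^ 2 =
    (p ^ 2 + (q + s) ^ 2) * (p ^ 2 + (q - s) ^ 2) := by ring
  have hu : u = (b - q * s) / p := by rw [hbdef]; field_simp; ring
  unfold QQ NN
  rw [h6]
  have h7 : (p * r + s ^ 2) ^ 2 - b ^ 2 = (p * r + s ^ 2 + b) * (p * r + s ^ 2 - b) := by ring
  rw [h7, hu]
  have e1 : p * r + s ^ 2 ≠ 0 := by positivity
  clear_value b
  field_simp
  ring

end Pool.Agent.H97.OB
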