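import Pool.Agent.H97.OB.Geom

/-!
# The tangent length as a differentiable function of the leaf and the tangent line
-/

set_option autoImplicit false

open Set Filter Topology Complex
open scoped ContDiff Real

namespace Pool.Agent.H97.OB

/-- implicit function with uniqueness -/
theorem implicit_gen {Y : ℂ → ℝ} {A : ℝ × ℝ → ℂ} {S : ℝ → ℝ → ℝ} {c₀ x₀ s₀ : ℝ}
    {DY : ℂ →L[ℝ] ℝ} {LA : ℝ × ℝ →L[ℝ] ℂ}
    (hY : HasStrictFDerivAt Y DY (A (x₀, s₀))) (hA : HasStrictFDerivAt A LA (x₀, s₀))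
    (hne : DY (LA (0, 1)) ≠ 0) (hval : Y (A (x₀, s₀)) = c₀) (hs0 : 0 < s₀)
    (huniq : ∀ c x s : ℝ, 0 < c → c ≤ 1 → 0 < s → Y (A (x, s)) = c → s = S c x) :
    ∃ (ψ : ℝ × ℝ → ℝ) (L : ℝ × ℝ →L[ℝ] ℝ), HasStrictFDerivAt ψ L (c₀, x₀) ∧
      (∀ a b : ℝ, L (a, b) = (a - b * DY (LA (1, 0))) / DY (LA (0, 1))) ∧
      (∀ᶠ q in 𝓝 (c₀, x₀), 0 < q.1 → q.1 ≤ 1 → ψ q = S q.1 q.2) := by
  -- the defining function
  set pr : (ℝ × ℝ) × ℝ →L[ℝ] ℝ × ℝ :=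
    ((ContinuousLinearMap.snd ℝ ℝ ℝ).comp (ContinuousLinearMap.fst ℝ (ℝ × ℝ) ℝ)).prod
      (ContinuousLinearMap.snd ℝ (ℝ × ℝ) ℝ) with hpr
  have hAs : HasStrictFDerivAt (fun u : (ℝ × ℝ) × ℝ => A (u.1.2, u.2)) (LA.comp pr)
      ((c₀, x₀), s₀) := by
    have h1 : HasStrictFDerivAt (fun u : (ℝ × ℝ) × ℝ => pr u) pr ((c₀, x₀), s₀) :=
      pr.hasStrictFDerivAt
    exact HasStrictFDerivAt.comp (f := fun u : (ℝ × ℝ) × ℝ => pr u) ((c₀, x₀), s₀) hA h1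
  have hf : HasStrictFDerivAt (fun u : (ℝ × ℝ) × ℝ => Y (A (u.1.2, u.2)) - u.1.1)
      (DY.comp (LA.comp pr) - (ContinuousLinearMap.fst ℝ ℝ ℝ).comp
        (ContinuousLinearMap.fst ℝ (ℝ × ℝ) ℝ)) ((c₀, x₀), s₀) := by
    refine HasStrictFDerivAt.sub ?_ ?_
    · exact HasStrictFDerivAt.comp (f := fun u : (ℝ × ℝ) × ℝ => A (u.1.2, u.2))
        ((c₀, x₀), s₀) hY hAs
    · exact ((ContinuousLinearMap.fst ℝ ℝ ℝ).comp
        (ContinuousLinearMap.fst ℝ (ℝ × ℝ) ℝ)).hasStrictFDerivAt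
  set f' := DY.comp (LA.comp pr) - (ContinuousLinearMap.fst ℝ ℝ ℝ).comp
        (ContinuousLinearMap.fst ℝ (ℝ × ℝ) ℝ) with hf'
  have hLA : ∀ b c : ℝ, LA (b, c) = b • LA (1, 0) + c • LA (0, 1) := by
    intro b c
    have : ((b, c) : ℝ × ℝ) = b • ((1 : ℝ), (0 : ℝ)) + c • ((0 : ℝ), (1 : ℝ)) := by simp
    rw [this, map_add, map_smul, map_smul]
  have hf'val : ∀ a b c : ℝ, f' ((a, b), c) = b * DY (LA (1, 0)) + c * DY (LA (0, 1)) - a := by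
    intro a b c
    have h1 : pr ((a, b), c) = (b, c) := rfl
    simp only [hf', _root_.sub_apply, ContinuousLinearMap.comp_apply, h1, hLA b c,
      map_add, map_smul, smul_eq_mul, ContinuousLinearMap.coe_fst']
  have hinv : (f' ∘L .inr ℝ (ℝ × ℝ) ℝ).IsInvertible := by
    refine ⟨ContinuousLinearEquiv.unitsEquivAut ℝ (Units.mk0 _ hne), ?_⟩
    ext
    have := hf'val 0 0 1
    simp only [ContinuousLinearEquiv.coe_coe, ContinuousLinearEquiv.unitsEquivAut_apply,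
      Units.val_mk0, one_mul, ContinuousLinearMap.comp_apply, ContinuousLinearMap.inr_apply]
    have h6 : ((0 : ℝ × ℝ), (1 : ℝ)) = (((0 : ℝ), (0 : ℝ)), (1 : ℝ)) := rfl
    rw [h6, this]; ring
  have hinvval : ∀ x : ℝ, (f' ∘L .inr ℝ (ℝ × ℝ) ℝ).inverse x = x / DY (LA (0, 1)) := by
    intro x
    have h6 : (f' ∘L .inr ℝ (ℝ × ℝ) ℝ) (x / DY (LA (0, 1))) = x := by
      have := hf'val 0 0 (x / DY (LA (0, 1)))
      simp only [ContinuousLinearMap.comp_apply, ContinuousLinearMap.inr_apply]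
      have h7 : ((0 : ℝ × ℝ), (x / DY (LA (0, 1)))) =
        (((0 : ℝ), (0 : ℝ)), (x / DY (LA (0, 1)))) := rfl
      rw [h7, this]; field_simp; ring
    conv_lhs => rw [← h6]
    exact hinv.inverse_apply_eq.2 rfl
  refine ⟨hf.implicitFunctionOfProdDomain hinv, _,
    hf.hasStrictFDerivAt_implicitFunctionOfProdDomain hinv, ?_, ?_⟩
  · intro a b
    simp only [_root_.neg_apply, ContinuousLinearMap.comp_apply, ContinuousLinearMap.inl_apply]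
    rw [hf'val, hinvval]
    ring
  · have e1 := hf.eventually_apply_implicitFunctionOfProdDomain hinv
    have e2 := hf.tendsto_implicitFunctionOfProdDomain hinv
    have e3 : ∀ᶠ q in 𝓝 (c₀, x₀), 0 < hf.implicitFunctionOfProdDomain hinv q :=
      e2.eventually (lt_mem_nhds hs0)
    filter_upwards [e1, e3] with q hq1 hq2 hq3 hq4
    apply huniq _ _ _ hq3 hq4 hq2
    rw [hval] at hq1
    linarith

variable {γ : ℝ → ℂ} {ρ : ℝ → ℝ} {Y : ℂ → ℝ}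

/-- The tangent length: the distance of the leaf `c` from `γ θ` on the forward tangent ray. -/
noncomputable def S (γ : ℝ → ℂ) (Y : ℂ → ℝ) (c θ : ℝ) : ℝ :=
  Classical.epsilon (fun s => 0 < s ∧ Y (P γ θ s) = c)

/-- The polar radius of the leaf `c`. -/
noncomputable def Rad (Y : ℂ → ℝ) (c φ : ℝ) : ℝ :=
  Classical.epsilon (fun s => 0 < s ∧ Y (s * exp (φ * I)) = c)

lemma gam_contDiff (h : IsOval γ ρ) : ContDiff ℝ 1 γ := by
  rw [contDiff_one_iff_deriv]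
  refine ⟨fun θ => (h.deriv θ).differentiableAt, ?_⟩
  have : deriv γ = fun θ => ρ θ * tang θ := funext fun θ => (h.deriv θ).deriv
  rw [this]
  have h1 := h.cont
  have h2 := tang_continuous
  fun_prop

lemma tang_contDiff : ContDiff ℝ ∞ tang := by
  unfold tang
  exact contDiff_const.mul ((ofRealCLM.contDiff.mul contDiff_const).cexp)

lemma P_contDiff (h : IsOval γ ρ) : ContDiff ℝ 1 (fun u : ℝ × ℝ => P γ u.1 u.2) := by
  unfold P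
  exact ((gam_contDiff h).comp contDiff_fst).add
    ((ofRealCLM.contDiff.comp contDiff_snd).mul ((tang_contDiff.of_le (by norm_num)).comp
      contDiff_fst))

lemma P_hasDerivAt_left (h : IsOval γ ρ) (θ s : ℝ) :
    HasDerivAt (fun θ : ℝ => P γ θ s) (ρ θ * tang θ - s * exp (θ * I)) θ := by
  unfold P
  exact ((h.deriv θ).add ((tang_hasDerivAt θ).const_mul (s : ℂ))).congr_deriv (by ring)

lemma P_fderiv (h : IsOval γ ρ) (θ s : ℝ) :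
    (fderiv ℝ (fun u : ℝ × ℝ => P γ u.1 u.2) (θ, s) (1, 0) = ρ θ * tang θ - s * exp (θ * I)) ∧
    (fderiv ℝ (fun u : ℝ × ℝ => P γ u.1 u.2) (θ, s) (0, 1) = tang θ) := by
  have hd : HasFDerivAt (fun u : ℝ × ℝ => P γ u.1 u.2)
      (fderiv ℝ (fun u : ℝ × ℝ => P γ u.1 u.2) (θ, s)) (θ, s) :=
    ((P_contDiff h).differentiable (by norm_num) (θ, s)).hasFDerivAt
  constructor
  · have h1 : HasDerivAt (fun θ : ℝ => ((θ, s) : ℝ × ℝ)) (1, 0) θ :=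
      (hasDerivAt_id θ).prodMk (hasDerivAt_const θ s)
    exact (HasFDerivAt.comp_hasDerivAt (f := fun θ : ℝ => ((θ, s) : ℝ × ℝ)) θ hd h1).unique
      (P_hasDerivAt_left h θ s)
  · have h1 : HasDerivAt (fun s : ℝ => ((θ, s) : ℝ × ℝ)) (0, 1) s :=
      (hasDerivAt_const s θ).prodMk (hasDerivAt_id s)
    exact (HasFDerivAt.comp_hasDerivAt (f := fun s : ℝ => ((θ, s) : ℝ × ℝ)) s hd h1).unique
      (P_hasDerivAt γ θ s)

namespace Sit

lemma S_spec (h : Sit γ ρ Y) {c : ℝ} (h0 : 0 < c) (h1 : c ≤ 1) (θ : ℝ) :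
    0 < S γ Y c θ ∧ Y (P γ θ (S γ Y c θ)) = c :=
  Classical.epsilon_spec (h.exists_P θ h0 h1)

lemma S_unique (h : Sit γ ρ Y) {c : ℝ} (h0 : 0 < c) (h1 : c ≤ 1) {θ s : ℝ}
    (hs : 0 < s) (hc : Y (P γ θ s) = c) : s = S γ Y c θ := by
  obtain ⟨h2, h3⟩ := h.S_spec h0 h1 θ
  exact h.unique_P (θ := θ) (mul_pos hs h2) (by rw [hc]; exact h1) (by rw [hc, h3])

/-- the point of the leaf on the forward tangent ray -/
noncomputable def Z (γ : ℝ → ℂ) (Y : ℂ → ℝ) (c θ : ℝ) : ℂ := P γ θ (S γ Y c θ)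

lemma Y_Z (h : Sit γ ρ Y) {c : ℝ} (h0 : 0 < c) (h1 : c ≤ 1) (θ : ℝ) : Y (Z γ Y c θ) = c :=
  (h.S_spec h0 h1 θ).2

lemma beta_pos (h : Sit γ ρ Y) {c : ℝ} (h0 : 0 < c) (h1 : c ≤ 1) (θ : ℝ) :
    0 < fderiv ℝ Y (Z γ Y c θ) (tang θ) := by
  have h2 := h.S_spec h0 h1 θ
  have h3 := h.transversal h2.1.ne' (by rw [h2.2]; exact h1)
  exact (pos_iff_pos_of_mul_pos h3).1 h2.1

theorem exists_implicit (h : Sit γ ρ Y) {c₀ : ℝ} (h0 : 0 < c₀) (h1 : c₀ ≤ 1) (θ₀ : ℝ) :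
    ∃ (ψ : ℝ × ℝ → ℝ) (L : ℝ × ℝ →L[ℝ] ℝ), HasStrictFDerivAt ψ L (c₀, θ₀) ∧
      (∀ a b : ℝ, L (a, b) = (a - b * fderiv ℝ Y (Z γ Y c₀ θ₀)
        (ρ θ₀ * tang θ₀ - S γ Y c₀ θ₀ * exp (θ₀ * I))) / fderiv ℝ Y (Z γ Y c₀ θ₀) (tang θ₀)) ∧
      (∀ᶠ q in 𝓝 (c₀, θ₀), 0 < q.1 → q.1 ≤ 1 → ψ q = S γ Y q.1 q.2) := by
  obtain ⟨hs0, hsc⟩ := h.S_spec h0 h1 θ₀
  have hY : HasStrictFDerivAt Y (fderiv ℝ Y (Z γ Y c₀ θ₀)) (Z γ Y c₀ θ₀) :=
    (h.contDiffAt (h.nonneg_P _ _) (by rw [hsc]; exact h1)).hasStrictFDerivAt (by norm_num)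
  have hP : HasStrictFDerivAt (fun u : ℝ × ℝ => P γ u.1 u.2)
      (fderiv ℝ (fun u : ℝ × ℝ => P γ u.1 u.2) (θ₀, S γ Y c₀ θ₀)) (θ₀, S γ Y c₀ θ₀) :=
    (P_contDiff h.oval).contDiffAt.hasStrictFDerivAt (by norm_num)
  obtain ⟨e1, e2⟩ := P_fderiv h.oval θ₀ (S γ Y c₀ θ₀)
  have hb := h.beta_pos h0 h1 θ₀
  have := implicit_gen (Y := Y) (A := fun u : ℝ × ℝ => P γ u.1 u.2) (S := S γ Y) (c₀ := c₀)
    (x₀ := θ₀) (s₀ := S γ Y c₀ θ₀) hY hP (by rw [e2]; exact hb.ne') hsc hs0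
    (fun c x s hc0 hc1 hs hc => h.S_unique hc0 hc1 hs hc)
  rw [e1, e2] at this
  exact this

/-- derivative in `θ` -/
lemma S_deriv_right (h : Sit γ ρ Y) {c : ℝ} (h0 : 0 < c) (h1 : c ≤ 1) (θ : ℝ) :
    HasDerivAt (fun θ => S γ Y c θ)
      (-(fderiv ℝ Y (Z γ Y c θ) (ρ θ * tang θ - S γ Y c θ * exp (θ * I)) /
        fderiv ℝ Y (Z γ Y c θ) (tang θ))) θ := by
  obtain ⟨ψ, L, hψ, hL, hev⟩ := h.exists_implicit h0 h1 θ
  have e1 : HasDerivAt (fun θ : ℝ => ((c, θ) : ℝ × ℝ)) (0, 1) θ :=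
    (hasDerivAt_const θ c).prodMk (hasDerivAt_id θ)
  have e2 : HasDerivAt (fun θ : ℝ => ψ (c, θ)) (L (0, 1)) θ :=
    HasFDerivAt.comp_hasDerivAt (f := fun θ : ℝ => ((c, θ) : ℝ × ℝ)) θ hψ.hasFDerivAt e1
  have e3 : (fun θ => S γ Y c θ) =ᶠ[𝓝 θ] fun θ => ψ (c, θ) := by
    have : Tendsto (fun θ : ℝ => ((c, θ) : ℝ × ℝ)) (𝓝 θ) (𝓝 (c, θ)) := e1.continuousAt
    filter_upwards [this.eventually hev] with t ht
    exact (ht h0 h1).symm
  refine (e2.congr_of_eventuallyEq e3).congr_deriv ?_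
  rw [hL]; ring

/-- derivative in `c` -/
lemma S_deriv_left (h : Sit γ ρ Y) {c : ℝ} (h0 : 0 < c) (h1 : c < 1) (θ : ℝ) :
    HasDerivAt (fun c => S γ Y c θ) (1 / fderiv ℝ Y (Z γ Y c θ) (tang θ)) c := by
  obtain ⟨ψ, L, hψ, hL, hev⟩ := h.exists_implicit h0 h1.le θ
  have e1 : HasDerivAt (fun c : ℝ => ((c, θ) : ℝ × ℝ)) (1, 0) c :=
    (hasDerivAt_id c).prodMk (hasDerivAt_const c θ)
  have e2 : HasDerivAt (fun c : ℝ => ψ (c, θ)) (L (1, 0)) c :=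
    HasFDerivAt.comp_hasDerivAt (f := fun c : ℝ => ((c, θ) : ℝ × ℝ)) c hψ.hasFDerivAt e1
  have e3 : (fun c => S γ Y c θ) =ᶠ[𝓝 c] fun c => ψ (c, θ) := by
    have : Tendsto (fun c : ℝ => ((c, θ) : ℝ × ℝ)) (𝓝 c) (𝓝 (c, θ)) := e1.continuousAt
    filter_upwards [this.eventually hev, lt_mem_nhds h0, gt_mem_nhds h1] with t ht ht0 ht1
    exact (ht ht0 ht1.le).symm
  refine (e2.congr_of_eventuallyEq e3).congr_deriv ?_
  rw [hL]; ring

lemma S_continuousOn (h : Sit γ ρ Y) :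
    ContinuousOn (fun q : ℝ × ℝ => S γ Y q.1 q.2) (Ioc 0 1 ×ˢ univ) := by
  rintro ⟨c, θ⟩ ⟨hc, -⟩
  obtain ⟨ψ, L, hψ, hL, hev⟩ := h.exists_implicit hc.1 hc.2 θ
  have e1 : ContinuousWithinAt ψ (Ioc 0 1 ×ˢ univ) (c, θ) :=
    hψ.hasFDerivAt.continuousAt.continuousWithinAt
  refine e1.congr_of_eventuallyEq ?_ (hev.self_of_nhds hc.1 hc.2).symm
  filter_upwards [hev.filter_mono nhdsWithin_le_nhds, self_mem_nhdsWithin] with q hq hq2
  exact (hq hq2.1.1 hq2.1.2).symm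

lemma Z_continuousOn (h : Sit γ ρ Y) :
    ContinuousOn (fun q : ℝ × ℝ => Z γ Y q.1 q.2) (Ioc 0 1 ×ˢ univ) := by
  unfold Z
  exact (P_continuous h.oval).comp_continuousOn (continuousOn_snd.prodMk h.S_continuousOn)

lemma fderiv_Z_continuousOn (h : Sit γ ρ Y) :
    ContinuousOn (fun q : ℝ × ℝ => fderiv ℝ Y (Z γ Y q.1 q.2)) (Ioc 0 1 ×ˢ univ) := by
  rintro ⟨c, θ⟩ hq
  have hz := h.Y_Z hq.1.1 hq.1.2 θ
  have h2 : ContDiffAt ℝ 1 Y (Z γ Y c θ) :=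
    h.contDiffAt (by rw [hz]; exact hq.1.1.le) (by rw [hz]; exact hq.1.2)
  have h3 : ContinuousAt (fderiv ℝ Y) (Z γ Y c θ) :=
    (h2.fderiv_right (m := 0) (by norm_num)).continuousAt
  exact ContinuousAt.comp_continuousWithinAt (f := fun q : ℝ × ℝ => Z γ Y q.1 q.2) h3
    (h.Z_continuousOn (c, θ) hq)

/-- continuity of the derivative in `c` -/
lemma Sc_continuousOn (h : Sit γ ρ Y) :
    ContinuousOn (fun q : ℝ × ℝ => 1 / fderiv ℝ Y (Z γ Y q.1 q.2) (tang q.2))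
      (Ioc 0 1 ×ˢ univ) := by
  refine continuousOn_const.div ?_ ?_
  · exact h.fderiv_Z_continuousOn.clm_apply (tang_continuous.comp continuous_snd).continuousOn
  · rintro ⟨c, θ⟩ hq
    exact (h.beta_pos hq.1.1 hq.1.2 θ).ne'

/-- The tangent length extended by zero to `c ≤ 0`. -/
noncomputable def sg (γ : ℝ → ℂ) (Y : ℂ → ℝ) (c θ : ℝ) : ℝ := if c ≤ 0 then 0 else S γ Y c θ

lemma sg_pos' {c : ℝ} (h0 : 0 < c) (θ : ℝ) : sg γ Y c θ = S γ Y c θ := by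
  unfold sg; rw [if_neg (not_le.2 h0)]

/-- the tangent segments lie in the sublevel sets -/
lemma Y_seg (h : Sit γ ρ Y) {c : ℝ} (h0 : 0 < c) (h1 : c ≤ 1) (θ : ℝ) {s : ℝ} (hs0 : 0 ≤ s)
    (hs : s ≤ S γ Y c θ) : Y (P γ θ s) ≤ c := by
  have h2 := h.S_spec h0 h1 θ
  have h3 : γ θ ∈ {z | Y z ≤ c} := by
    show Y _ ≤ c
    rw [h.Y_gam]; exact h0.le
  have h4 : P γ θ (S γ Y c θ) ∈ {z | Y z ≤ c} := h2.2.le
  have h5 := (h.collar.convex c h0.le h1) h3 h4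
    (show 0 ≤ 1 - s / S γ Y c θ by
      rw [sub_nonneg, div_le_one h2.1]; exact hs)
    (show 0 ≤ s / S γ Y c θ from div_nonneg hs0 h2.1.le) (by ring)
  have h6 : (1 - s / S γ Y c θ) • γ θ + (s / S γ Y c θ) • P γ θ (S γ Y c θ) = P γ θ s := by
    rw [P_eq, P_eq, smul_add, sub_smul, one_smul, smul_smul, div_mul_cancel₀ _ h2.1.ne']
    ring
  rw [h6] at h5
  exact h5

lemma sg_continuousOn (h : Sit γ ρ Y) :
    ContinuousOn (fun q : ℝ × ℝ => sg γ Y q.1 q.2) (Icc 0 1 ×ˢ univ) := by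
  rintro ⟨c, θ⟩ ⟨hc, -⟩
  rcases eq_or_lt_of_le hc.1 with h0 | h0
  · -- at `c = 0`
    simp only at h0
    subst h0
    rw [Metric.continuousWithinAt_iff']
    intro ε hε
    have hm := h.pos_P θ (s := ε / 2) (by positivity)
    set c' := min (Y (P γ θ (ε / 2)) / 2) (1 / 2) with hc'
    have hc'0 : 0 < c' := lt_min (by positivity) (by norm_num)
    have hc'1 : c' < 1 := lt_of_le_of_lt (min_le_right _ _) (by norm_num)
    have hc'2 : c' < Y (P γ θ (ε / 2)) := lt_of_le_of_lt (min_le_left _ _) (by linarith)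
    have hcl := (h.collar.compact c' hc'0.le hc'1.le).isClosed
    have hopen : ∀ᶠ z in 𝓝 (P γ θ (ε / 2)), c' < Y z := by
      have : {z | Y z ≤ c'}ᶜ ∈ 𝓝 (P γ θ (ε / 2)) :=
        hcl.isOpen_compl.mem_nhds (by simpa using hc'2)
      filter_upwards [this] with z hz
      simpa using hz
    have hcont : Tendsto (fun q : ℝ × ℝ => P γ q.2 (ε / 2)) (𝓝 ((0 : ℝ), θ))
        (𝓝 (P γ θ (ε / 2))) := by
      have h2 : Continuous fun q : ℝ × ℝ => P γ q.2 (ε / 2) :=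
        (P_continuous h.oval).comp (continuous_snd.prodMk continuous_const)
      exact h2.tendsto _
    have hfst : ∀ᶠ q : ℝ × ℝ in 𝓝 ((0 : ℝ), θ), q.1 < c' :=
      (continuous_fst.tendsto _).eventually (gt_mem_nhds hc'0)
    filter_upwards [nhdsWithin_le_nhds (hcont.eventually hopen), nhdsWithin_le_nhds hfst,
      self_mem_nhdsWithin] with q hq1 hq2 hq3
    have e0 : sg γ Y 0 θ = 0 := by unfold sg; simp
    rw [e0, Real.dist_eq, sub_zero]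
    rcases le_or_gt q.1 0 with h5 | h5
    · have : sg γ Y q.1 q.2 = 0 := by unfold sg; rw [if_pos h5]
      rw [this, abs_zero]; exact hε
    · rw [sg_pos' h5]
      have h6 := h.S_spec h5 hq3.1.2 q.2
      rw [abs_of_pos h6.1]
      by_contra hcon
      push Not at hcon
      have := h.Y_seg h5 hq3.1.2 q.2 (s := ε / 2) (by positivity) (by linarith)
      linarith
  · have h2 := h.S_continuousOn (c, θ) ⟨⟨h0, hc.2⟩, mem_univ _⟩
    have h3 : ContinuousWithinAt (fun q : ℝ × ℝ => S γ Y q.1 q.2) (Icc 0 1 ×ˢ univ) (c, θ) := by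
      refine h2.mono_of_mem_nhdsWithin ?_
      have hfst : ∀ᶠ q : ℝ × ℝ in 𝓝 (c, θ), 0 < q.1 :=
        (continuous_fst.tendsto _).eventually (lt_mem_nhds h0)
      filter_upwards [nhdsWithin_le_nhds hfst, self_mem_nhdsWithin] with q hq1 hq2
      exact ⟨⟨hq1, hq2.1.2⟩, mem_univ _⟩
    refine h3.congr_of_eventuallyEq ?_ (sg_pos' h0 θ)
    have hfst : ∀ᶠ q : ℝ × ℝ in 𝓝 (c, θ), 0 < q.1 :=
      (continuous_fst.tendsto _).eventually (lt_mem_nhds h0)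
    filter_upwards [nhdsWithin_le_nhds hfst] with q hq1
    exact sg_pos' hq1 _

end Sit

end Pool.Agent.H97.OB
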