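import Pool.Agent.H97.OB.Impl

/-!
# Polar coordinates on the leaves; the densities
-/

set_option autoImplicit false

open Set Filter Topology Complex
open scoped ContDiff Real

namespace Pool.Agent.H97.OB

variable {γ : ℝ → ℂ} {ρ : ℝ → ℝ} {Y : ℂ → ℝ}

namespace Sit

lemma exists_ray (h : Sit γ ρ Y) {c : ℝ} (h0 : 0 < c) (h1 : c ≤ 1) (φ : ℝ) :
    ∃ s : ℝ, 0 < s ∧ Y (s * exp (φ * I)) = c := by
  refine h.exists_on_path (A := fun s : ℝ => s * exp (φ * I)) (c₀ := 0) (by fun_prop) ?_ le_rfl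
    h0 h1 ?_
  · simp only [ofReal_zero, zero_mul]
    exact h.inside_zero.le
  · intro M
    refine ⟨|M| + 1, fun τ hτ => ?_⟩
    rw [norm_mul, norm_exp_ofReal_mul_I, mul_one, norm_real, Real.norm_eq_abs]
    have := le_abs_self M
    have := le_abs_self τ
    linarith

lemma unique_ray (h : Sit γ ρ Y) {c : ℝ} (h0 : 0 < c) (h1 : c ≤ 1) {φ s t : ℝ} (hs : 0 < s)
    (ht : 0 < t) (hsc : Y (s * exp (φ * I)) = c) (htc : Y (t * exp (φ * I)) = c) : s = t := by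
  have key : ∀ s t : ℝ, 0 < s → s < t → Y (s * exp (φ * I)) = c → Y (t * exp (φ * I)) = c →
      False := by
    intro s t hs hst hsc htc
    have ht : 0 < t := hs.trans hst
    have h2 := (h.collar.convex c h0.le h1).combo_interior_self_mem_interior
      (h.zero_mem_interior h0 h1) (show (t * exp (φ * I) : ℂ) ∈ {z | Y z ≤ c} from htc.le)
      (show (0 : ℝ) < 1 - s / t by rw [sub_pos, div_lt_one ht]; exact hst)
      (show (0 : ℝ) ≤ s / t by positivity) (by ring)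
    have h3 : (1 - s / t) • (0 : ℂ) + (s / t) • (t * exp (φ * I) : ℂ) = s * exp (φ * I) := by
      rw [smul_zero, zero_add, real_smul]
      push_cast
      have : (t : ℂ) ≠ 0 := by exact_mod_cast ht.ne'
      field_simp
    rw [h3] at h2
    have := h.lt_of_mem_interior h0 h1 h2
    linarith
  rcases lt_trichotomy s t with h2 | h2 | h2
  · exact (key s t hs h2 hsc htc).elim
  · exact h2
  · exact (key t s ht h2 htc hsc).elim

lemma Rad_spec (h : Sit γ ρ Y) {c : ℝ} (h0 : 0 < c) (h1 : c ≤ 1) (φ : ℝ) :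
    0 < Rad Y c φ ∧ Y (Rad Y c φ * exp (φ * I)) = c :=
  Classical.epsilon_spec (h.exists_ray h0 h1 φ)

lemma Rad_unique (h : Sit γ ρ Y) {c : ℝ} (h0 : 0 < c) (h1 : c ≤ 1) {φ s : ℝ}
    (hs : 0 < s) (hc : Y (s * exp (φ * I)) = c) : s = Rad Y c φ :=
  h.unique_ray h0 h1 hs (h.Rad_spec h0 h1 φ).1 hc (h.Rad_spec h0 h1 φ).2

lemma exp_periodic' (φ : ℝ) : exp (((φ + 2 * π : ℝ) : ℂ) * I) = exp (φ * I) := by
  have : ((φ + 2 * π : ℝ) : ℂ) * I = φ * I + 2 * π * I := by push_cast; ring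
  rw [this, exp_add, exp_two_pi_mul_I, mul_one]

lemma Rad_periodic (c φ : ℝ) : Rad Y c (φ + 2 * π) = Rad Y c φ := by
  unfold Rad
  simp only [exp_periodic']

lemma radial_fderiv_pos (h : Sit γ ρ Y) {c : ℝ} (h0 : 0 < c) (h1 : c ≤ 1) (φ : ℝ) :
    0 < fderiv ℝ Y (Rad Y c φ * exp (φ * I)) (exp (φ * I)) := by
  obtain ⟨h2, h3⟩ := h.Rad_spec h0 h1 φ
  have h4 := h.radial_pos (z := Rad Y c φ * exp (φ * I)) (by rw [h3]; exact h0)
    (by rw [h3]; exact h1)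
  have h5 : (Rad Y c φ * exp (φ * I) : ℂ) = Rad Y c φ • exp (φ * I) := by rw [real_smul]
  nth_rewrite 2 [h5] at h4
  rw [map_smul, smul_eq_mul] at h4
  exact (pos_iff_pos_of_mul_pos h4).1 h2

lemma Rad_continuous (h : Sit γ ρ Y) {c : ℝ} (h0 : 0 < c) (h1 : c ≤ 1) :
    Continuous (Rad Y c) := by
  rw [continuous_iff_continuousAt]
  intro φ
  obtain ⟨h2, h3⟩ := h.Rad_spec h0 h1 φ
  have hA : ContDiff ℝ ∞ (fun u : ℝ × ℝ => (u.2 : ℂ) * exp (u.1 * I)) :=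
    (ofRealCLM.contDiff.comp contDiff_snd).mul
      (((ofRealCLM.contDiff.comp contDiff_fst).mul contDiff_const).cexp)
  have hA' : HasStrictFDerivAt (fun u : ℝ × ℝ => (u.2 : ℂ) * exp (u.1 * I))
      (fderiv ℝ (fun u : ℝ × ℝ => (u.2 : ℂ) * exp (u.1 * I)) (φ, Rad Y c φ)) (φ, Rad Y c φ) :=
    hA.contDiffAt.hasStrictFDerivAt (by norm_num)
  have hY : HasStrictFDerivAt Y (fderiv ℝ Y (Rad Y c φ * exp (φ * I)))
      (Rad Y c φ * exp (φ * I)) :=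
    (h.contDiffAt (by rw [h3]; exact h0.le) (by rw [h3]; exact h1)).hasStrictFDerivAt
      (by norm_num)
  have hval : fderiv ℝ (fun u : ℝ × ℝ => (u.2 : ℂ) * exp (u.1 * I)) (φ, Rad Y c φ) (0, 1) =
      exp (φ * I) := by
    have e1 : HasDerivAt (fun s : ℝ => ((φ, s) : ℝ × ℝ)) (0, 1) (Rad Y c φ) :=
      (hasDerivAt_const _ φ).prodMk (hasDerivAt_id _)
    have e2 : HasDerivAt (fun s : ℝ => (s : ℂ) * exp (φ * I)) (exp (φ * I)) (Rad Y c φ) := by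
      simpa using (ofRealCLM.hasDerivAt (x := Rad Y c φ)).mul_const (exp (φ * I))
    exact (HasFDerivAt.comp_hasDerivAt (f := fun s : ℝ => ((φ, s) : ℝ × ℝ)) _
      hA'.hasFDerivAt e1).unique e2
  obtain ⟨ψ, L, hψ, -, hev⟩ := implicit_gen (Y := Y)
    (A := fun u : ℝ × ℝ => (u.2 : ℂ) * exp (u.1 * I)) (S := Rad Y) (c₀ := c) (x₀ := φ)
    (s₀ := Rad Y c φ) hY hA' (by rw [hval]; exact (h.radial_fderiv_pos h0 h1 φ).ne') h3 h2
    (fun c' x s hc0 hc1 hs hc => h.Rad_unique hc0 hc1 hs hc)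
  have e1 : ContinuousAt (fun φ : ℝ => ((c, φ) : ℝ × ℝ)) φ := by fun_prop
  have e2 : ContinuousAt (fun φ : ℝ => ψ (c, φ)) φ :=
    ContinuousAt.comp (f := fun φ : ℝ => ((c, φ) : ℝ × ℝ)) hψ.hasFDerivAt.continuousAt e1
  refine e2.congr ?_
  filter_upwards [e1.eventually hev] with t ht
  exact ht h0 h1

/-- The density of the leaf. -/
noncomputable def gg (Y : ℂ → ℝ) (c φ : ℝ) : ℝ :=
  -(fderiv ℝ Y (Rad Y c φ * exp (φ * I)) (I * (Rad Y c φ * exp (φ * I)))) /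
    (fderiv ℝ Y (Rad Y c φ * exp (φ * I)) (Rad Y c φ * exp (φ * I))) ^ 2

lemma gg_periodic (c φ : ℝ) : gg Y c (φ + 2 * π) = gg Y c φ := by
  unfold gg
  rw [Rad_periodic, exp_periodic']

lemma gg_continuous (h : Sit γ ρ Y) {c : ℝ} (h0 : 0 < c) (h1 : c ≤ 1) :
    Continuous (gg Y c) := by
  have hR := h.Rad_continuous h0 h1
  have hz : Continuous fun φ : ℝ => (Rad Y c φ * exp (φ * I) : ℂ) := by fun_prop
  have hd : Continuous fun φ : ℝ => fderiv ℝ Y (Rad Y c φ * exp (φ * I)) := by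
    rw [continuous_iff_continuousAt]
    intro φ
    obtain ⟨h2, h3⟩ := h.Rad_spec h0 h1 φ
    have h4 : ContDiffAt ℝ 1 Y (Rad Y c φ * exp (φ * I)) :=
      h.contDiffAt (by rw [h3]; exact h0.le) (by rw [h3]; exact h1)
    have h5 : ContinuousAt (fderiv ℝ Y) (Rad Y c φ * exp (φ * I)) :=
      (h4.fderiv_right (m := 0) (by norm_num)).continuousAt
    exact ContinuousAt.comp (f := fun φ : ℝ => (Rad Y c φ * exp (φ * I) : ℂ)) h5 hz.continuousAt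
  unfold gg
  refine Continuous.div ?_ ?_ ?_
  · exact (hd.clm_apply (continuous_const.mul hz)).neg
  · exact (hd.clm_apply hz).pow 2
  · intro φ
    obtain ⟨h2, h3⟩ := h.Rad_spec h0 h1 φ
    have := h.radial_pos (z := Rad Y c φ * exp (φ * I)) (by rw [h3]; exact h0)
      (by rw [h3]; exact h1)
    positivity

/-- polar form of a point in tangent coordinates -/
lemma P_polar (h : Sit γ ρ Y) (θ s : ℝ) :
    P γ θ s = ((sp γ θ * √(1 + ((sq γ θ + s) / sp γ θ) ^ 2) : ℝ) : ℂ) *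
      exp (((θ + Real.arctan ((sq γ θ + s) / sp γ θ) : ℝ) : ℂ) * I) := by
  have hp := h.supp.ppos θ
  set x := (sq γ θ + s) / sp γ θ with hx
  have h1 : sq γ θ + s = sp γ θ * x := by rw [hx]; field_simp
  have h2 : 0 < √(1 + x ^ 2) := Real.sqrt_pos.2 (by positivity)
  have h3 : exp ((Real.arctan x : ℝ) * I) = ((1 / √(1 + x ^ 2) : ℝ) : ℂ) +
      ((x / √(1 + x ^ 2) : ℝ) : ℂ) * I := by
    rw [exp_mul_I, ← ofReal_cos, ← ofReal_sin, Real.cos_arctan, Real.sin_arctan]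
  have h4 : exp (((θ + Real.arctan x : ℝ) : ℂ) * I) = exp (θ * I) *
      exp ((Real.arctan x : ℝ) * I) := by
    rw [← exp_add]; congr 1; push_cast; ring
  rw [P_eq_pt, pt, h1, h4, h3]
  have h5 : (√(1 + x ^ 2) : ℂ) ≠ 0 := by exact_mod_cast h2.ne'
  push_cast
  field_simp

/-- a point of the leaf in polar coordinates -/
lemma P_rad (h : Sit γ ρ Y) {c : ℝ} (h0 : 0 < c) (h1 : c ≤ 1) {θ s : ℝ}
    (hY : Y (P γ θ s) = c) :
    P γ θ s = Rad Y c (θ + Real.arctan ((sq γ θ + s) / sp γ θ)) *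
      exp (((θ + Real.arctan ((sq γ θ + s) / sp γ θ) : ℝ) : ℂ) * I) := by
  have h2 := h.P_polar θ s
  have hp := h.supp.ppos θ
  rw [h2] at hY
  have h3 := h.Rad_unique h0 h1 (mul_pos hp (Real.sqrt_pos.2 (by positivity))) hY
  rw [← h3]; exact h2

lemma gg_at (h : Sit γ ρ Y) {c : ℝ} (h0 : 0 < c) (h1 : c ≤ 1) {θ s : ℝ}
    (hY : Y (P γ θ s) = c) :
    gg Y c (θ + Real.arctan ((sq γ θ + s) / sp γ θ)) =
      -(fderiv ℝ Y (P γ θ s) (I * P γ θ s)) / (fderiv ℝ Y (P γ θ s) (P γ θ s)) ^ 2 := by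
  unfold gg
  rw [← h.P_rad h0 h1 hY]

/-- The differential of `Y` in the frame of the tangent line. -/
lemma fderiv_frame (γ : ℝ → ℂ) (Y : ℂ → ℝ) (θ s : ℝ) :
    (fderiv ℝ Y (P γ θ s) (P γ θ s) = sp γ θ * fderiv ℝ Y (P γ θ s) (exp (θ * I)) +
      (sq γ θ + s) * fderiv ℝ Y (P γ θ s) (tang θ)) ∧
    (fderiv ℝ Y (P γ θ s) (I * P γ θ s) = sp γ θ * fderiv ℝ Y (P γ θ s) (tang θ) -
      (sq γ θ + s) * fderiv ℝ Y (P γ θ s) (exp (θ * I))) := by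
  have h1 : P γ θ s = sp γ θ • exp (θ * I) + (sq γ θ + s) • tang θ := by
    rw [P_eq_pt, pt, real_smul, real_smul, tang]
    push_cast; ring
  have h2 : I * P γ θ s = sp γ θ • tang θ - (sq γ θ + s) • exp (θ * I) := by
    rw [h1, real_smul, real_smul, real_smul, real_smul, tang]
    linear_combination ((sq γ θ + s : ℝ) : ℂ) * exp (θ * I) * I_sq
  constructor
  · conv_lhs => rw [show (fderiv ℝ Y (P γ θ s)) (P γ θ s) =
      (fderiv ℝ Y (P γ θ s)) (sp γ θ • exp (θ * I) + (sq γ θ + s) • tang θ) from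
      congrArg _ h1]
    rw [map_add, map_smul, map_smul, smul_eq_mul, smul_eq_mul]
  · rw [h2, map_sub, map_smul, map_smul, smul_eq_mul, smul_eq_mul]

/-- `∂S/∂θ` -/
noncomputable def Su (γ : ℝ → ℂ) (ρ : ℝ → ℝ) (Y : ℂ → ℝ) (c θ : ℝ) : ℝ :=
  -(fderiv ℝ Y (Z γ Y c θ) (ρ θ * tang θ - S γ Y c θ * exp (θ * I)) /
        fderiv ℝ Y (Z γ Y c θ) (tang θ))

/-- `∂S/∂c` -/
noncomputable def Sv (γ : ℝ → ℂ) (Y : ℂ → ℝ) (c θ : ℝ) : ℝ :=
  1 / fderiv ℝ Y (Z γ Y c θ) (tang θ)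

lemma Su_eq (γ : ℝ → ℂ) (ρ : ℝ → ℝ) (Y : ℂ → ℝ) (c θ : ℝ) :
    Su γ ρ Y c θ = -((ρ θ * fderiv ℝ Y (Z γ Y c θ) (tang θ) -
      S γ Y c θ * fderiv ℝ Y (Z γ Y c θ) (exp (θ * I))) / fderiv ℝ Y (Z γ Y c θ) (tang θ)) := by
  unfold Su
  have : (ρ θ * tang θ - S γ Y c θ * exp (θ * I) : ℂ) =
      ρ θ • tang θ - S γ Y c θ • exp (θ * I) := by rw [real_smul, real_smul]
  rw [this, map_sub, map_smul, map_smul, smul_eq_mul, smul_eq_mul]

section refl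

variable (h : Sit γ ρ Y) (hr : ∀ θ, SigmaReflection γ Y θ) {c : ℝ} (h0 : 0 < c) (h1 : c ≤ 1)
include h hr h0 h1

lemma Y_neg (θ : ℝ) : Y (P γ θ (-S γ Y c θ)) = c := by
  obtain ⟨h2, h3⟩ := h.S_spec h0 h1 θ
  have h4 := hr θ (S γ Y c θ) (by unfold P at h3; rw [h3]; exact h1)
  unfold P at h3 ⊢
  rw [h3] at h4
  push_cast
  rw [neg_mul, ← sub_eq_add_neg]
  exact h4

lemma beta_neg (θ : ℝ) : fderiv ℝ Y (P γ θ (-S γ Y c θ)) (tang θ) < 0 := by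
  obtain ⟨h2, h3⟩ := h.S_spec h0 h1 θ
  have h4 := h.Y_neg hr h0 h1 θ
  have h5 := h.transversal (θ := θ) (s := -S γ Y c θ) (by linarith [h2] |> ne_of_lt)
    (by rw [h4]; exact h1)
  nlinarith

/-- the derivative `∂S/∂θ` from the backward point -/
lemma Su_eq' (θ : ℝ) :
    Su γ ρ Y c θ = ρ θ + S γ Y c θ * fderiv ℝ Y (P γ θ (-S γ Y c θ)) (exp (θ * I)) /
      fderiv ℝ Y (P γ θ (-S γ Y c θ)) (tang θ) := by
  have hb := h.beta_neg hr h0 h1 θ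
  have hY := h.Y_neg hr h0 h1 θ
  have h2 := h.S_deriv_right h0 h1 θ
  change HasDerivAt _ (Su γ ρ Y c θ) θ at h2
  have h3 : HasDerivAt (fun θ : ℝ => ((θ, -S γ Y c θ) : ℝ × ℝ)) (1, -Su γ ρ Y c θ) θ :=
    (hasDerivAt_id θ).prodMk h2.neg
  have hd : HasFDerivAt (fun u : ℝ × ℝ => P γ u.1 u.2)
      (fderiv ℝ (fun u : ℝ × ℝ => P γ u.1 u.2) (θ, -S γ Y c θ)) (θ, -S γ Y c θ) :=
    ((P_contDiff h.oval).differentiable (by norm_num) (θ, -S γ Y c θ)).hasFDerivAt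
  have h4 := HasFDerivAt.comp_hasDerivAt (f := fun θ : ℝ => ((θ, -S γ Y c θ) : ℝ × ℝ)) θ hd h3
  have hYd : HasFDerivAt Y (fderiv ℝ Y (P γ θ (-S γ Y c θ))) (P γ θ (-S γ Y c θ)) :=
    (h.differentiableAt (by rw [hY]; exact h0.le) (by rw [hY]; exact h1)).hasFDerivAt
  have h5 := HasFDerivAt.comp_hasDerivAt (f := fun θ : ℝ => P γ θ (-S γ Y c θ)) θ hYd h4
  have h6 : (fun θ : ℝ => Y (P γ θ (-S γ Y c θ))) = fun _ => c := by
    funext θ; exact h.Y_neg hr h0 h1 θ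
  have h7 : HasDerivAt (fun θ : ℝ => Y (P γ θ (-S γ Y c θ))) 0 θ := by
    rw [h6]; exact hasDerivAt_const θ c
  have h8 := h5.unique h7
  obtain ⟨e1, e2⟩ := P_fderiv h.oval θ (-S γ Y c θ)
  have h9 : ((1, -Su γ ρ Y c θ) : ℝ × ℝ) = (1 : ℝ) • ((1 : ℝ), (0 : ℝ)) +
      (-Su γ ρ Y c θ) • ((0 : ℝ), (1 : ℝ)) := by simp
  rw [h9, map_add, map_smul, map_smul, e1, e2, one_smul] at h8
  have h10 : (ρ θ * tang θ - (-S γ Y c θ : ℝ) * exp (θ * I) + -Su γ ρ Y c θ • tang θ : ℂ) =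
      (ρ θ - Su γ ρ Y c θ) • tang θ + S γ Y c θ • exp (θ * I) := by
    simp only [real_smul]; push_cast; ring
  rw [h10, map_add, map_smul, map_smul, smul_eq_mul, smul_eq_mul] at h8
  have hb' := hb.ne
  field_simp
  linarith

/-- the derivative `∂S/∂c` from the backward point -/
lemma Sv_eq' (h1' : c < 1) (θ : ℝ) :
    Sv γ Y c θ = -(1 / fderiv ℝ Y (P γ θ (-S γ Y c θ)) (tang θ)) := by
  have hb := h.beta_neg hr h0 h1 θ
  have hY := h.Y_neg hr h0 h1 θ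
  have h2 := h.S_deriv_left h0 h1' θ
  change HasDerivAt _ (Sv γ Y c θ) c at h2
  have h4 : HasDerivAt (fun c : ℝ => P γ θ (-S γ Y c θ)) ((-Sv γ Y c θ) • tang θ) c :=
    HasDerivAt.scomp (g₁ := fun s : ℝ => P γ θ s) (h := fun c : ℝ => -S γ Y c θ) c
      (P_hasDerivAt γ θ (-S γ Y c θ)) h2.neg
  have hYd : HasFDerivAt Y (fderiv ℝ Y (P γ θ (-S γ Y c θ))) (P γ θ (-S γ Y c θ)) :=
    (h.differentiableAt (by rw [hY]; exact h0.le) (by rw [hY]; exact h1)).hasFDerivAt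
  have h5 := HasFDerivAt.comp_hasDerivAt (f := fun c : ℝ => P γ θ (-S γ Y c θ)) c hYd h4
  have h6 : (fun c : ℝ => Y (P γ θ (-S γ Y c θ))) =ᶠ[𝓝 c] fun c => c := by
    filter_upwards [lt_mem_nhds h0, gt_mem_nhds h1'] with t ht0 ht1
    exact h.Y_neg hr ht0 ht1.le θ
  have h7 : HasDerivAt (fun c : ℝ => Y (P γ θ (-S γ Y c θ))) 1 c :=
    (hasDerivAt_id c).congr_of_eventuallyEq h6
  have h8 := h5.unique h7
  rw [map_smul, smul_eq_mul] at h8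
  have hb' := hb.ne
  field_simp
  linarith

/-- `a + b > 0` and its value -/
lemma ab_pos (θ : ℝ) :
    sp γ θ * ρ θ + S γ Y c θ ^ 2 + (sp γ θ * Su γ ρ Y c θ + sq γ θ * S γ Y c θ) =
      S γ Y c θ * fderiv ℝ Y (Z γ Y c θ) (Z γ Y c θ) / fderiv ℝ Y (Z γ Y c θ) (tang θ) ∧
    sp γ θ * ρ θ + S γ Y c θ ^ 2 - (sp γ θ * Su γ ρ Y c θ + sq γ θ * S γ Y c θ) =
      -(S γ Y c θ * fderiv ℝ Y (P γ θ (-S γ Y c θ)) (P γ θ (-S γ Y c θ)) /
        fderiv ℝ Y (P γ θ (-S γ Y c θ)) (tang θ)) ∧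
    0 < sp γ θ * ρ θ + S γ Y c θ ^ 2 + (sp γ θ * Su γ ρ Y c θ + sq γ θ * S γ Y c θ) ∧
    0 < sp γ θ * ρ θ + S γ Y c θ ^ 2 - (sp γ θ * Su γ ρ Y c θ + sq γ θ * S γ Y c θ) := by
  have hb := h.beta_pos h0 h1 θ
  have hb2 := h.beta_neg hr h0 h1 θ
  have hs := (h.S_spec h0 h1 θ).1
  have hYZ := h.Y_Z h0 h1 θ
  have hYN := h.Y_neg hr h0 h1 θ
  have r1 := h.radial_pos (z := Z γ Y c θ) (by rw [hYZ]; exact h0) (by rw [hYZ]; exact h1)
  have r2 := h.radial_pos (z := P γ θ (-S γ Y c θ)) (by rw [hYN]; exact h0)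
    (by rw [hYN]; exact h1)
  have f1 : fderiv ℝ Y (Z γ Y c θ) (Z γ Y c θ) = sp γ θ * fderiv ℝ Y (Z γ Y c θ) (exp (θ * I)) +
      (sq γ θ + S γ Y c θ) * fderiv ℝ Y (Z γ Y c θ) (tang θ) :=
    (fderiv_frame γ Y θ (S γ Y c θ)).1
  have f2 := (fderiv_frame γ Y θ (-S γ Y c θ)).1
  have u1 := Su_eq γ ρ Y c θ
  have u2 := h.Su_eq' hr h0 h1 θ
  have k1 : sp γ θ * ρ θ + S γ Y c θ ^ 2 + (sp γ θ * Su γ ρ Y c θ + sq γ θ * S γ Y c θ) =
      S γ Y c θ * fderiv ℝ Y (Z γ Y c θ) (Z γ Y c θ) / fderiv ℝ Y (Z γ Y c θ) (tang θ) := by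
    rw [f1, u1]
    have := hb.ne'
    field_simp
    ring
  have k2 : sp γ θ * ρ θ + S γ Y c θ ^ 2 - (sp γ θ * Su γ ρ Y c θ + sq γ θ * S γ Y c θ) =
      -(S γ Y c θ * fderiv ℝ Y (P γ θ (-S γ Y c θ)) (P γ θ (-S γ Y c θ)) /
        fderiv ℝ Y (P γ θ (-S γ Y c θ)) (tang θ)) := by
    rw [f2, u2]
    have := hb2.ne
    field_simp
    ring
  refine ⟨k1, k2, ?_, ?_⟩
  · rw [k1]; positivity
  · rw [k2, ← neg_div]
    exact div_pos_of_neg_of_neg (by nlinarith) hb2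

end refl

end Sit

end Pool.Agent.H97.OB
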