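import Pool.Agent.H97.OB.Four

/-!
# The outer leaf is given by a Radon curve
-/

set_option autoImplicit false

open Set Filter Topology Complex MeasureTheory
open scoped ContDiff Real

namespace Pool.Agent.H97.OB

variable {γ : ℝ → ℂ} {ρ : ℝ → ℝ} {Y : ℂ → ℝ}

namespace Sit

section refl

variable (h : Sit γ ρ Y) (hr : ∀ θ, SigmaReflection γ Y θ) (h4 : OuterLeafFourPeriodic γ Y)
include h hr h4

/-- second Radon relation in real form -/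
lemma rel2 (θ : ℝ) :
    S γ Y 1 (F γ Y 1 θ) = √(sp γ θ ^ 2 + sq γ θ ^ 2) ∧
    S γ Y 1 (F γ Y 1 θ) * Real.cos (F γ Y 1 θ - θ) = -sq γ θ ∧
    S γ Y 1 (F γ Y 1 θ) * Real.sin (F γ Y 1 θ - θ) = sp γ θ := by
  have h2 := (h.radon_rel hr h4 θ).2
  rw [gam_eq γ θ] at h2
  unfold tang at h2
  have h3 : exp ((F γ Y 1 θ : ℂ) * I) = exp (((F γ Y 1 θ - θ : ℝ) : ℂ) * I) * exp (θ * I) := by
    rw [← exp_add]; congr 1; push_cast; ring
  rw [h3, exp_mul_I, ← ofReal_cos, ← ofReal_sin] at h2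
  have h5 : ((S γ Y 1 (F γ Y 1 θ) * (I * (((Real.cos (F γ Y 1 θ - θ) : ℝ) : ℂ) +
      ((Real.sin (F γ Y 1 θ - θ) : ℝ) : ℂ) * I)) : ℂ)) =
      -((sp γ θ : ℂ) + (sq γ θ : ℂ) * I) := by
    apply mul_right_cancel₀ (exp_ne_zero ((θ : ℂ) * I))
    linear_combination h2
  have hre := congrArg Complex.re h5
  have him := congrArg Complex.im h5
  simp only [mul_re, mul_im, add_re, add_im, neg_re, neg_im, ofReal_re, ofReal_im, I_re, I_im]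
    at hre him
  have e1 : S γ Y 1 (F γ Y 1 θ) * Real.cos (F γ Y 1 θ - θ) = -sq γ θ := by linarith
  have e2 : S γ Y 1 (F γ Y 1 θ) * Real.sin (F γ Y 1 θ - θ) = sp γ θ := by linarith
  refine ⟨?_, e1, e2⟩
  have hs := (h.S_spec one_pos le_rfl (F γ Y 1 θ)).1
  rw [eq_comm, Real.sqrt_eq_iff_mul_self_eq (by positivity) hs.le]
  have := Real.sin_sq_add_cos_sq (F γ Y 1 θ - θ)
  rw [← e2]
  have e1' : sq γ θ = -(S γ Y 1 (F γ Y 1 θ) * Real.cos (F γ Y 1 θ - θ)) := by linarith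
  rw [e1']
  first
    | linear_combination (-(S γ Y 1 (F γ Y 1 θ)) ^ 2) * this
    | linear_combination ((S γ Y 1 (F γ Y 1 θ)) ^ 2) * this

lemma F_eq (θ : ℝ) : F γ Y 1 θ = θ + π / 2 + Real.arctan (sq γ θ / sp γ θ) := by
  obtain ⟨e0, e1, e2⟩ := h.rel2 hr h4 θ
  have hp := h.supp.ppos θ
  have hs := (h.S_spec one_pos le_rfl (F γ Y 1 θ)).1
  obtain ⟨f1, f2, -⟩ := h.F_spec hr one_pos le_rfl θ
  have hn : 0 < sp γ θ ^ 2 + sq γ θ ^ 2 := by positivity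
  have hπ := Real.pi_pos
  have b1 := Real.arctan_lt_pi_div_two (sq γ θ / sp γ θ)
  have b2 := Real.neg_pi_div_two_lt_arctan (sq γ θ / sp γ θ)
  have hcos : Real.cos (F γ Y 1 θ - θ) = Real.cos (π / 2 + Real.arctan (sq γ θ / sp γ θ)) := by
    rw [show π / 2 + Real.arctan (sq γ θ / sp γ θ) = Real.arctan (sq γ θ / sp γ θ) + π / 2 by
      ring, Real.cos_add_pi_div_two, Real.sin_arctan]
    have h2 : Real.cos (F γ Y 1 θ - θ) = -sq γ θ / S γ Y 1 (F γ Y 1 θ) := by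
      rw [eq_div_iff hs.ne']; linarith
    rw [h2, e0]
    have h3 : √(1 + (sq γ θ / sp γ θ) ^ 2) = √(sp γ θ ^ 2 + sq γ θ ^ 2) / sp γ θ := by
      have : 1 + (sq γ θ / sp γ θ) ^ 2 = (sp γ θ ^ 2 + sq γ θ ^ 2) / sp γ θ ^ 2 := by
        field_simp
      rw [this, Real.sqrt_div hn.le, Real.sqrt_sq hp.le]
    rw [h3]
    have h4 : √(sp γ θ ^ 2 + sq γ θ ^ 2) ≠ 0 := (Real.sqrt_pos.2 hn).ne'
    field_simp
  have := Real.injOn_cos (show F γ Y 1 θ - θ ∈ Icc 0 π by constructor <;> linarith)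
    (show π / 2 + Real.arctan (sq γ θ / sp γ θ) ∈ Icc 0 π by constructor <;> linarith) hcos
  linarith

/-- trigonometric functions of the displacement -/
lemma F_trig (θ : ℝ) :
    Real.cos (F γ Y 1 θ - θ) = -sq γ θ / √(sp γ θ ^ 2 + sq γ θ ^ 2) ∧
    Real.sin (F γ Y 1 θ - θ) = sp γ θ / √(sp γ θ ^ 2 + sq γ θ ^ 2) := by
  obtain ⟨e0, e1, e2⟩ := h.rel2 hr h4 θ
  have hp := h.supp.ppos θ
  have hn : 0 < √(sp γ θ ^ 2 + sq γ θ ^ 2) := Real.sqrt_pos.2 (by positivity)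
  rw [e0] at e1 e2
  constructor
  · rw [eq_div_iff hn.ne']; linarith
  · rw [eq_div_iff hn.ne']; linarith

/-- first Radon relation: `p (F θ)`, `q (F θ)` -/
lemma rel1 (θ : ℝ) :
    sp γ (F γ Y 1 θ) = S γ Y 1 θ * (sp γ θ / √(sp γ θ ^ 2 + sq γ θ ^ 2)) ∧
    sq γ (F γ Y 1 θ) = S γ Y 1 θ * (-sq γ θ / √(sp γ θ ^ 2 + sq γ θ ^ 2)) := by
  obtain ⟨c1, c2⟩ := h.F_trig hr h4 θ
  have h2 := (h.radon_rel hr h4 θ).1
  have h3 : γ (F γ Y 1 θ) * exp (-((F γ Y 1 θ : ℝ) * I)) = S γ Y 1 θ *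
      (I * (((Real.cos (F γ Y 1 θ - θ) : ℝ) : ℂ) - ((Real.sin (F γ Y 1 θ - θ) : ℝ) : ℂ) * I)) := by
    rw [h2, tang]
    have h5 : ((Real.cos (F γ Y 1 θ - θ) : ℝ) : ℂ) - ((Real.sin (F γ Y 1 θ - θ) : ℝ) : ℂ) * I =
        exp (-(((F γ Y 1 θ - θ : ℝ) : ℂ)) * I) := by
      rw [exp_mul_I, Complex.cos_neg, Complex.sin_neg, ofReal_cos, ofReal_sin]; ring
    rw [h5, mul_assoc, mul_assoc, ← exp_add]
    congr 3
    push_cast; ring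
  constructor
  · have e : sp γ (F γ Y 1 θ) = (γ (F γ Y 1 θ) * exp (-((F γ Y 1 θ : ℝ) * I))).re := rfl
    rw [e, h3, ← c2]
    simp only [mul_re, sub_re, sub_im, ofReal_re, ofReal_im, I_re, I_im, mul_im]
    ring
  · have e : sq γ (F γ Y 1 θ) = (γ (F γ Y 1 θ) * exp (-((F γ Y 1 θ : ℝ) * I))).im := rfl
    rw [e, h3, ← c1]
    simp only [mul_im, sub_re, sub_im, ofReal_re, ofReal_im, I_re, I_im, mul_re]
    ring

/-- derivative of the next tangent angle -/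
lemma F_deriv (θ : ℝ) :
    HasDerivAt (F γ Y 1) (sp γ θ * ρ θ / (sp γ θ ^ 2 + sq γ θ ^ 2)) θ := by
  have h2 := hopf_arctan (r := sq γ) (u := fun θ => ρ θ - sp γ θ) h.supp.ppos h.supp.dp
    h.supp.dq θ
  have h3 : F γ Y 1 = fun θ => (θ + Real.arctan (sq γ θ / sp γ θ)) + π / 2 := by
    funext x; rw [h.F_eq hr h4 x]; ring
  rw [h3]
  have hp := h.supp.ppos θ
  refine (h2.add_const (π / 2)).congr_deriv ?_
  have hn : 0 < sp γ θ ^ 2 + sq γ θ ^ 2 := by positivity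
  field_simp
  ring

/-- differentiated first relation -/
lemma rel3 (θ : ℝ) :
    ρ (F γ Y 1 θ) * (sp γ θ * ρ θ / (sp γ θ ^ 2 + sq γ θ ^ 2)) *
      (sp γ θ / √(sp γ θ ^ 2 + sq γ θ ^ 2)) = S γ Y 1 θ ∧
    -(ρ (F γ Y 1 θ) * (sp γ θ * ρ θ / (sp γ θ ^ 2 + sq γ θ ^ 2)) *
      (sq γ θ / √(sp γ θ ^ 2 + sq γ θ ^ 2))) = Su γ ρ Y 1 θ := by
  obtain ⟨c1, c2⟩ := h.F_trig hr h4 θ
  have d1 : HasDerivAt (fun θ => γ (F γ Y 1 θ))
      ((sp γ θ * ρ θ / (sp γ θ ^ 2 + sq γ θ ^ 2)) •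
        (ρ (F γ Y 1 θ) * tang (F γ Y 1 θ) : ℂ)) θ :=
    HasDerivAt.scomp (g₁ := γ) (h := F γ Y 1) θ (h.oval.deriv (F γ Y 1 θ)) (h.F_deriv hr h4 θ)
  have d2 : HasDerivAt (fun θ => (S γ Y 1 θ : ℂ) * tang θ)
      ((Su γ ρ Y 1 θ : ℂ) * tang θ + S γ Y 1 θ * (-exp (θ * I))) θ := by
    have e := h.S_deriv_right one_pos le_rfl θ
    exact e.ofReal_comp.mul (tang_hasDerivAt θ)
  have e1 : (fun θ => γ (F γ Y 1 θ)) = fun θ => (S γ Y 1 θ : ℂ) * tang θ :=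
    funext fun x => (h.radon_rel hr h4 x).1
  rw [e1] at d1
  have e2 := d1.unique d2
  rw [real_smul] at e2
  unfold tang at e2
  have h3 : exp ((F γ Y 1 θ : ℂ) * I) = exp (((F γ Y 1 θ - θ : ℝ) : ℂ) * I) * exp (θ * I) := by
    rw [← exp_add]; congr 1; push_cast; ring
  rw [h3, exp_mul_I, ← ofReal_cos, ← ofReal_sin, c1, c2] at e2
  have h5 : (((sp γ θ * ρ θ / (sp γ θ ^ 2 + sq γ θ ^ 2) : ℝ) : ℂ)) * (ρ (F γ Y 1 θ) *
      (I * (((-sq γ θ / √(sp γ θ ^ 2 + sq γ θ ^ 2) : ℝ) : ℂ) +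
      ((sp γ θ / √(sp γ θ ^ 2 + sq γ θ ^ 2) : ℝ) : ℂ) * I))) =
      (Su γ ρ Y 1 θ : ℂ) * I - S γ Y 1 θ := by
    apply mul_right_cancel₀ (exp_ne_zero ((θ : ℂ) * I))
    linear_combination e2
  have hre := congrArg Complex.re h5
  have him := congrArg Complex.im h5
  simp only [mul_re, mul_im, add_re, add_im, sub_re, sub_im, ofReal_re, ofReal_im, I_re, I_im]
    at hre him
  constructor
  · linarith
  · have : sq γ θ / √(sp γ θ ^ 2 + sq γ θ ^ 2) = -(-sq γ θ / √(sp γ θ ^ 2 + sq γ θ ^ 2)) := by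
      ring
    rw [this]
    linarith

/-- `p S` is constant on the outer leaf. -/
lemma pS_const : ∃ τ : ℝ, 0 < τ ∧ ∀ θ, sp γ θ * S γ Y 1 θ = τ := by
  have hd : ∀ θ, HasDerivAt (fun θ => sp γ θ * S γ Y 1 θ) 0 θ := by
    intro θ
    have e := h.S_deriv_right one_pos le_rfl θ
    refine ((h.supp.dp θ).mul e).congr_deriv ?_
    change sq γ θ * S γ Y 1 θ + sp γ θ * Su γ ρ Y 1 θ = 0
    obtain ⟨r1, r2⟩ := h.rel3 hr h4 θ
    rw [← r1, ← r2]; ring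
  have hconst : ∀ x y, sp γ x * S γ Y 1 x = sp γ y * S γ Y 1 y := by
    intro x y
    exact is_const_of_deriv_eq_zero (f := fun θ => sp γ θ * S γ Y 1 θ)
      (fun θ => (hd θ).differentiableAt) (fun θ => (hd θ).deriv) x y
  exact ⟨sp γ 0 * S γ Y 1 0, mul_pos (h.supp.ppos 0) (h.S_spec one_pos le_rfl 0).1,
    fun θ => hconst θ 0⟩

/-- All the Radon data. -/
lemma radon_data : ∃ τ : ℝ, 0 < τ ∧ (∀ θ, S γ Y 1 θ = τ / sp γ θ) ∧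
    (∀ θ, sp γ (θ + π / 2 + Real.arctan (sq γ θ / sp γ θ)) = τ / √(sp γ θ ^ 2 + sq γ θ ^ 2)) ∧
    (∀ θ, sq γ (θ + π / 2 + Real.arctan (sq γ θ / sp γ θ)) =
      -(τ * sq γ θ) / (sp γ θ * √(sp γ θ ^ 2 + sq γ θ ^ 2))) ∧
    (∀ θ, ρ (θ + π / 2 + Real.arctan (sq γ θ / sp γ θ)) =
      τ * (sp γ θ ^ 2 + sq γ θ ^ 2) * √(sp γ θ ^ 2 + sq γ θ ^ 2) / (sp γ θ ^ 3 * ρ θ)) := by
  obtain ⟨τ, hτ, hc⟩ := h.pS_const hr h4
  have hS : ∀ θ, S γ Y 1 θ = τ / sp γ θ := by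
    intro θ
    have hp := h.supp.ppos θ
    rw [eq_div_iff hp.ne', mul_comm]; exact hc θ
  refine ⟨τ, hτ, hS, ?_, ?_, ?_⟩
  · intro θ
    have hp := h.supp.ppos θ
    have hn : 0 < √(sp γ θ ^ 2 + sq γ θ ^ 2) := Real.sqrt_pos.2 (by positivity)
    rw [← h.F_eq hr h4, (h.rel1 hr h4 θ).1, hS]
    field_simp
  · intro θ
    have hp := h.supp.ppos θ
    have hn : 0 < √(sp γ θ ^ 2 + sq γ θ ^ 2) := Real.sqrt_pos.2 (by positivity)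
    rw [← h.F_eq hr h4, (h.rel1 hr h4 θ).2, hS]
    field_simp
  · intro θ
    have hp := h.supp.ppos θ
    have hρ := h.oval.pos θ
    have hn2 : 0 < sp γ θ ^ 2 + sq γ θ ^ 2 := by positivity
    have hn : 0 < √(sp γ θ ^ 2 + sq γ θ ^ 2) := Real.sqrt_pos.2 hn2
    have r1 := (h.rel3 hr h4 θ).1
    rw [← h.F_eq hr h4]
    rw [hS] at r1
    rw [eq_div_iff (by positivity)]
    have h5 : ρ (F γ Y 1 θ) * (sp γ θ ^ 3 * ρ θ) =
        (ρ (F γ Y 1 θ) * (sp γ θ * ρ θ / (sp γ θ ^ 2 + sq γ θ ^ 2)) *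
          (sp γ θ / √(sp γ θ ^ 2 + sq γ θ ^ 2))) * (sp γ θ * (sp γ θ ^ 2 + sq γ θ ^ 2) *
          √(sp γ θ ^ 2 + sq γ θ ^ 2)) := by
      field_simp
    rw [h5, r1]
    field_simp

end refl

end Sit

end Pool.Agent.H97.OB
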